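import Pool.Agent.D0H54.Gk.Fin1

set_option linter.unusedSectionVars false

namespace Pool.Agent.D0H54.Gk

open Polynomial Finset TensorProduct

section sep

variable (k : Type*) [Field k] [Fintype k] {F : Type*} [Field F] [Algebra (RatFunc k) F]

lemma lam_separable (w : k[X]) (hw0 : w ≠ 0) (lam : F) (htor : cAct k w lam = 0) :
    IsSeparable (RatFunc k) lam := by
  obtain ⟨p, hp⟩ := CharP.exists k
  have hp1 := CharP.char_is_prime k p
  have : Fact p.Prime := ⟨hp1⟩
  have : CharP (RatFunc k) p := charP_of_injective_algebraMap (algebraMap k (RatFunc k)).injective p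
  obtain ⟨⟨m, hm⟩, _, h2⟩ := FiniteField.card k p
  have hq : Fintype.card k = p ^ m := h2
  obtain ⟨n, c, hn, hc0, _, hc⟩ := cAct_expand k (F := F) w
  set P : (RatFunc k)[X] := ∑ i ∈ range n, C (algebraMap k[X] (RatFunc k) (c i)) * X ^ (Fintype.card k ^ i)
    with hP
  have h1 : aeval lam P = 0 := by
    rw [hP, map_sum, ← htor, hc]
    refine sum_congr rfl fun i _ => ?_
    rw [map_mul, aeval_C, map_pow, aeval_X, al_apply]
  have h3 : derivative P = C (algebraMap k[X] (RatFunc k) w) := by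
    rw [hP, derivative_sum]
    obtain ⟨n', rfl⟩ : ∃ n', n = n' + 1 := ⟨n - 1, by omega⟩
    rw [sum_range_succ', sum_eq_zero, zero_add, hc0]
    · simp
    · intro i _
      rw [derivative_C_mul, derivative_X_pow]
      have : ((Fintype.card k ^ (i + 1) : ℕ) : RatFunc k) = 0 := by
        rw [CharP.cast_eq_zero_iff (RatFunc k) p, hq, ← pow_mul]
        exact dvd_pow_self p (Nat.mul_ne_zero (by omega) (by omega))
      rw [this]; simp
  have h4 : P.Separable := by
    rw [Polynomial.separable_def, h3]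
    apply IsCoprime.symm
    have h5 : algebraMap k[X] (RatFunc k) w ≠ 0 := by
      intro h
      rw [← map_zero (algebraMap k[X] (RatFunc k))] at h
      exact hw0 (RatFunc.algebraMap_injective k h)
    exact ⟨C (algebraMap k[X] (RatFunc k) w)⁻¹, 0, by
      rw [zero_mul, add_zero, ← C_mul, inv_mul_cancel₀ h5, C_1]⟩
  exact h4.of_dvd (minpoly.dvd _ _ h1)

lemma F_separable (w : k[X]) (hw0 : w ≠ 0) (lam : F) (htor : cAct k w lam = 0)
    (hgen : IntermediateField.adjoin (RatFunc k) {lam} = ⊤) : Algebra.IsSeparable (RatFunc k) F := by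
  have h1 := (IntermediateField.isSeparable_adjoin_simple_iff_isSeparable (RatFunc k) F).2
    (lam_separable k w hw0 lam htor)
  rw [hgen] at h1
  exact Algebra.IsSeparable.of_algHom (RatFunc k) (⊤ : IntermediateField (RatFunc k) F)
    (IntermediateField.topEquiv (F := RatFunc k) (E := F)).symm.toAlgHom

end sep

section desc

variable {k : Type*} [Field k] [Fintype k] {F E : Type*} [Field F] [Algebra (RatFunc k) F]
  [Field E] [Algebra (RatFunc k) E] (j : F →ₐ[RatFunc k] E)

lemma cT_map (x : F) : cT k (j x) = j (cT k x) := by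
  simp only [cT, map_add, map_mul, map_pow, AlgHom.commutes]

lemma cAct_map (a : k[X]) (x : F) : cAct k a (j x) = j (cAct k a x) := by
  have h : ∀ i, (cT k)^[i] (j x) = j ((cT k)^[i] x) := by
    intro i
    induction i with
    | zero => rfl
    | succ i ih => rw [Function.iterate_succ_apply', Function.iterate_succ_apply', ih, cT_map]
  rw [cAct, cAct, Polynomial.sum, Polynomial.sum, map_sum]
  refine sum_congr rfl fun i _ => ?_
  rw [h, map_mul, AlgHom.commutes]

lemma descend (p : ℕ) [Fact p.Prime] [CharP E p] [CharP F p] [Algebra.IsSeparable (RatFunc k) E]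
    (x : F) (y : E) (h : j x = y ^ p) : ∃ z, x = z ^ p := by
  let _ : Algebra F E := j.toRingHom.toAlgebra
  have : IsScalarTower (RatFunc k) F E := IsScalarTower.of_algebraMap_eq fun r => (j.commutes r).symm
  have : Algebra.IsSeparable F E := Algebra.isSeparable_tower_top_of_isSeparable (RatFunc k) F E
  have : ExpChar F p := ExpChar.prime Fact.out
  have h1 : y ∈ perfectClosure F E := by
    rw [mem_perfectClosure_iff_pow_mem p]
    exact ⟨1, x, by rw [pow_one]; exact h⟩
  rw [perfectClosure.eq_bot_of_isSeparable F E] at h1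
  obtain ⟨z, hz⟩ := IntermediateField.mem_bot.1 h1
  have h2 : j z = y := hz
  have h3 : j x = j (z ^ p) := by rw [map_pow, h2]; exact h
  exact ⟨z, (j : F →+* E).injective h3⟩

end desc

section rots

variable {q d : ℕ}

lemma rot_modEq (hq : 2 ≤ q) (hd : 1 ≤ d) (l : ℕ) (hl : l < q ^ d) :
    rot q d l ≡ q ^ (d - 1) * l [MOD q ^ d - 1] := by
  have h1 := rot_eq hq l hl
  have h2 : q * rot q d l ≡ l [MOD q ^ d - 1] := by
    rw [h1]
    exact (Nat.modEq_iff_dvd' (Nat.le_add_right _ _)).2 (by simp) |>.symm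
  have h3 : q ^ d ≡ 1 [MOD q ^ d - 1] := by
    have : 1 ≤ q ^ d := Nat.one_le_pow _ _ (by omega)
    exact ((Nat.modEq_iff_dvd' this).2 dvd_rfl).symm
  have h4 := h2.mul_left (q ^ (d - 1))
  have h5 : q ^ (d - 1) * (q * rot q d l) = q ^ d * rot q d l := by
    rw [← mul_assoc, ← pow_succ, Nat.sub_add_cancel hd]
  rw [h5] at h4
  have h6 := h3.mul_right (rot q d l)
  rw [one_mul] at h6
  exact h6.symm.trans h4

lemma rot_iter_modEq (hq : 2 ≤ q) (hd : 1 ≤ d) (l : ℕ) (hl : l < q ^ d) (i : ℕ) :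
    ∃ m, (rot q d)^[i] l ≡ q ^ m * l [MOD q ^ d - 1] := by
  induction i with
  | zero => exact ⟨0, by simpa using Nat.ModEq.refl _⟩
  | succ i ih =>
    obtain ⟨m, hm⟩ := ih
    refine ⟨(d - 1) + m, ?_⟩
    rw [Function.iterate_succ_apply', pow_add, mul_assoc]
    exact (rot_modEq hq hd _ (rot_iter_lt hq l i hl)).trans (hm.mul_left _)

end rots

lemma divBy_of_red {k κ E : Type*} [Field k] [Fintype k] [Field κ] [Algebra k κ] [Field E]
    [Algebra (RatFunc k) E] (θ : κ) (w : k[X]) (hwdvd : ∀ a : k[X], w ∣ a ↔ aeval θ a = 0)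
    (io : κ →+* E) (T : E) (hT : ∀ f : κ[X], f.eval₂ io T = 0 → f = 0)
    (hc : ∀ a : k[X], (a.map (algebraMap k κ)).eval₂ io T = al k E a) (x : RatFunc k)
    (hx : Red io T θ (algebraMap (RatFunc k) E x) 0) (hirr : ∀ a b : k[X], IsCoprime a b → w ∣ a → ¬ w ∣ b) :
    DivBy w x := by
  obtain ⟨A, B, hB, h1, h2⟩ := hx
  rw [zero_mul] at h2
  set a := x.num with ha
  set b := x.denom with hb
  have hb0 : b ≠ 0 := x.denom_ne_zero
  have hxab : x * algebraMap k[X] (RatFunc k) b = algebraMap k[X] (RatFunc k) a := by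
    have h3 := x.num_div_denom
    have h4 : algebraMap k[X] (RatFunc k) b ≠ 0 := by
      intro h
      rw [← map_zero (algebraMap k[X] (RatFunc k))] at h
      exact hb0 (RatFunc.algebraMap_injective k h)
    conv_lhs => rw [← h3]
    rw [div_mul_cancel₀ _ h4]
  have h5 : algebraMap (RatFunc k) E x * al k E b = al k E a := by
    rw [al_apply, al_apply, ← map_mul, hxab]
  have h6 : (a.map (algebraMap k κ)) * B - A * (b.map (algebraMap k κ)) = 0 := by
    apply hT
    rw [eval₂_sub, eval₂_mul, eval₂_mul, hc, hc, ← h5, ← h1]; ring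
  have h7 : (a.map (algebraMap k κ)).eval θ = 0 := by
    have h8 := congrArg (eval θ) (sub_eq_zero.1 h6)
    rw [eval_mul, eval_mul, ← h2, zero_mul] at h8
    rcases mul_eq_zero.1 h8 with h | h
    · exact h
    · exact absurd h hB
  have h9 : w ∣ a := by rw [hwdvd, ← eval_map_algebraMap]; exact h7
  exact ⟨a, b, h9, hirr a b x.isCoprime_num_denom h9, hxab⟩

lemma H_eq_sum {κ E : Type*} [Field κ] [Fintype κ] [Field E] {q d : ℕ} {T : E} {th : κ} {L : κ → E}
    (M : Datum q d T th L) [Fintype κˣ] (h : κ → E) (l : ℕ) :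
    M.H h l = ∑ a : κˣ, (M.io (a : κ))⁻¹ ^ l * h a := by
  rw [Datum.H]
  exact Finset.sum_congr (by ext x; simp) (fun _ _ => rfl)

/-- The main equivalence: the `w^l`-component of the cyclotomic numbers is trivial in
`κ ⊗ Fˣ` iff `w` divides the Bernoulli-Carlitz numbers of the whole orbit of `l`. -/
theorem comp_zero_tfae {k κ : Type*} [Field k] [Fintype k] [Field κ] [Fintype κ] [Fintype κˣ]
    (p : ℕ) [Fact p.Prime] [CharP k p]
    (w : k[X]) (hw : w.Monic) (pr : k[X] →+* κ) (hpr : Function.Surjective pr)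
    (hker : RingHom.ker pr = Ideal.span {w})
    {F : Type*} [Field F] [Algebra (RatFunc k) F] (lam : F) (hlam : lam ≠ 0)
    (htor : cAct k w lam = 0) (hgen : IntermediateField.adjoin (RatFunc k) {lam} = ⊤)
    (rep : κ → k[X]) (hrep : ∀ a, pr (rep a) = a)
    (u : κˣ → Fˣ) (hu : ∀ a : κˣ, (u a : F) = cAct k (rep a) lam)
    (l : ℕ) (hl0 : 0 < l) (hl : l < Fintype.card κ - 1) :
    List.TFAE [
      ∑ a : κˣ, ((a : κ)⁻¹ ^ l) ⊗ₜ[ℤ] Additive.ofMul (u a) = (0 : κ ⊗[ℤ] Additive Fˣ),
      ∀ l' : ℕ, 0 < l' → l' < Fintype.card κ - 1 →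
        (∃ m : ℕ, l' ≡ Fintype.card k ^ m * l [MOD Fintype.card κ - 1]) → DivBy w (bC k l'),
      ∀ l' : ℕ, 0 < l' → l' < Fintype.card κ - 1 →
        (∃ m : ℕ, l' ≡ p ^ m * l [MOD Fintype.card κ - 1]) → DivBy w (bC k l')] := by
  classical
  let _ : Algebra k κ := (pr.comp C).toAlgebra
  set θ : κ := pr X with hθ
  have hae : ∀ f : k[X], aeval θ f = pr f := by
    intro f
    have : (aeval θ : k[X] →ₐ[k] κ).toRingHom = pr := by
      ext c
      · simp; rfl
      · simp [hθ]
    exact congrArg (fun g : k[X] →+* κ => g f) this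
  have hsurj : Function.Surjective (aeval θ : k[X] → κ) := by
    intro x
    obtain ⟨f, hf⟩ := hpr x
    exact ⟨f, by rw [hae, hf]⟩
  have hwdvd : ∀ a : k[X], w ∣ a ↔ aeval θ a = 0 := by
    intro a
    rw [hae, ← RingHom.mem_ker, hker, Ideal.mem_span_singleton]
  have hrep' : ∀ a, aeval θ (rep a) = a := fun a => by rw [hae, hrep]
  have hcard := card_kap θ w hw hsurj hwdvd
  have hd : 1 ≤ w.natDegree := natDegree_pos θ w hw hwdvd
  have hq2 : 2 ≤ Fintype.card k := Fintype.one_lt_card
  have hp1 : p.Prime := Fact.out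
  obtain ⟨⟨r, hr⟩, _, h2⟩ := FiniteField.card k p
  have hq : Fintype.card k = p ^ r := h2
  have : CharP κ p := charP_of_injective_ringHom (algebraMap k κ).injective p
  have : CharP F p := charP_of_injective_ringHom
    (f := (algebraMap (RatFunc k) F).comp RatFunc.C) (RingHom.injective _) p
  have : PerfectRing k p := inferInstance
  let E := SeparableClosure (RatFunc k)
  have : CharP E p := charP_of_injective_ringHom
    (f := (algebraMap (RatFunc k) E).comp RatFunc.C) (RingHom.injective _) p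
  have hFsep : Algebra.IsSeparable (RatFunc k) F := F_separable k w hw.ne_zero lam htor hgen
  let j : F →ₐ[RatFunc k] E := IsSepClosed.lift
  obtain ⟨io, hio⟩ : ∃ io : κ →+* E, ∀ c : k, io (algebraMap k κ c) = al k E (C c) := by
    let _ : Algebra k E := ((al k E).comp C).toAlgebra
    let io : κ →ₐ[k] E := IsSepClosed.lift
    exact ⟨io.toRingHom, fun c => io.commutes c⟩
  obtain ⟨D, hD⟩ := exists_derivation k E
  have hD' : ∀ f : k[X], D (al k E f) = al k E (derivative f) := hD
  have hDT : D (al k E X) = 1 := by rw [hD', derivative_X, map_one]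
  have hdec : ∀ x : E, Dec p (al k E X) x := by
    intro x
    rw [al_X]
    exact dec_all p k x
  have hjlam : j lam ≠ 0 := by
    intro h; rw [map_eq_zero] at h; exact hlam h
  have hjtor : cAct k w (j lam) = 0 := by rw [cAct_map, htor, map_zero]
  obtain ⟨M, hMc, hMio⟩ := exists_datum θ w hw hsurj hwdvd io hio (j lam) hjlam hjtor rep hrep'
  have hLne : ∀ a : κ, a ≠ 0 → LL (k := k) (j lam) rep a ≠ 0 := fun a ha =>
    LL_ne θ w hsurj hwdvd (j lam) hjlam hjtor rep hrep' ha
  let φ : κ →+* κ := iterateFrobenius κ p r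
  have hφ : ∀ x, φ x = x ^ Fintype.card k := fun x => by
    rw [hq]; exact iterateFrobenius_def p r x
  have hl' : l < Fintype.card k ^ w.natDegree - 1 := by rw [← hcard]; exact hl
  have hrel := exists_rel θ w hwdvd (j lam) hjtor rep hrep' D hD'
  have hmap := w_map θ w hw hsurj hwdvd
  have h21 : (∀ l' : ℕ, 0 < l' → l' < Fintype.card κ - 1 →
        (∃ m : ℕ, l' ≡ Fintype.card k ^ m * l [MOD Fintype.card κ - 1]) → DivBy w (bC k l')) →
      ∑ a : κˣ, ((a : κ)⁻¹ ^ l) ⊗ₜ[ℤ] Additive.ofMul (u a) = (0 : κ ⊗[ℤ] Additive Fˣ) := by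
    intro hB
    have hBrot : ∀ i, DivBy w (bC k ((rot (Fintype.card k) w.natDegree)^[i] l)) := by
      intro i
      obtain ⟨m, hm⟩ := rot_iter_modEq hq2 hd l (by omega) i
      refine hB _ ?_ ?_ ⟨m, by rw [hcard]; exact hm⟩
      · clear hm
        induction i with
        | zero => exact hl0
        | succ i ih =>
          rw [Function.iterate_succ_apply']
          exact rot_pos hq2 _ ih (rot_iter_lt hq2 l i (by omega))
      · rw [hcard]
        clear hm
        induction i with
        | zero => exact hl'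
        | succ i ih =>
          rw [Function.iterate_succ_apply']
          exact rot_lt_N hq2 hd _ ih
    have hH := M.H_zero D hDT hdec hq hcard hd hLne (th_ne θ w hw hsurj hwdvd) w
      hmap (fun a => by rw [hwdvd, eval_map_algebraMap]) hrel hMc l hl0 hl' hBrot φ hφ
    have hall := M.H_all D hDT hdec hq hcard hd hq2 hLne l hH
    obtain ⟨n, e, t, ht1, ht2⟩ := exists_basis (p := p) M.io (fun a : κˣ => (a : κ)⁻¹ ^ l)
      (fun a : κˣ => Datum.hh D (LL (k := k) (j lam) rep) a) (fun s => by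
        rw [← hall s, H_eq_sum]
        refine sum_congr rfl fun a _ => ?_
        rw [map_pow, map_inv₀, ← pow_mul])
    -- p-th powers
    have hpow : ∀ i : Fin n, ∃ z : Fˣ, ∏ a : κˣ, u a ^ t ((a : κ)⁻¹ ^ l) i = z ^ p := by
      intro i
      have h3 : D (∏ a : κˣ, LL (k := k) (j lam) rep a ^ t ((a : κ)⁻¹ ^ l) i) = 0 := by
        rw [D_prod D univ (fun a : κˣ => LL (k := k) (j lam) rep a) _ (fun a _ => hLne _ a.ne_zero)]
        have := ht2 i
        simp only [Datum.hh] at this
        rw [this, mul_zero]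
      obtain ⟨y, hy⟩ := ker_D p D hDT hdec h3
      have h4 : j (∏ a : κˣ, (u a : F) ^ t ((a : κ)⁻¹ ^ l) i) = y ^ p := by
        rw [← hy, map_prod]
        refine prod_congr rfl fun a _ => ?_
        rw [map_pow, hu, ← cAct_map]
        rfl
      obtain ⟨z, hz⟩ := descend j p _ y h4
      have hz0 : z ≠ 0 := by
        rintro rfl
        rw [zero_pow hp1.ne_zero, prod_eq_zero_iff] at hz
        obtain ⟨a, _, ha⟩ := hz
        exact (pow_ne_zero _ (u a).ne_zero) ha
      refine ⟨Units.mk0 z hz0, ?_⟩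
      ext
      rw [Units.coe_prod]
      simpa using hz
    choose z hz using hpow
    have h5 : ∀ a : κˣ, ((a : κ)⁻¹ ^ l) ⊗ₜ[ℤ] Additive.ofMul (u a) =
        ∑ i : Fin n, e i ⊗ₜ[ℤ] Additive.ofMul (u a ^ t ((a : κ)⁻¹ ^ l) i) := by
      intro a
      conv_lhs => rw [ht1 ((a : κ)⁻¹ ^ l), TensorProduct.sum_tmul]
      refine sum_congr rfl fun i _ => ?_
      rw [ofMul_pow, ← nsmul_eq_mul, ← Nat.cast_smul_eq_nsmul ℤ, ← Nat.cast_smul_eq_nsmul ℤ,
        TensorProduct.smul_tmul]
    rw [sum_congr rfl fun a _ => h5 a, sum_comm]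
    refine sum_eq_zero fun i _ => ?_
    rw [← TensorProduct.tmul_sum, ← ofMul_prod, hz i, ofMul_pow, ← Nat.cast_smul_eq_nsmul ℤ,
      ← TensorProduct.smul_tmul, Nat.cast_smul_eq_nsmul, nsmul_eq_mul, CharP.cast_eq_zero, zero_mul,
      TensorProduct.zero_tmul]
  have h32 : (∀ l' : ℕ, 0 < l' → l' < Fintype.card κ - 1 →
        (∃ m : ℕ, l' ≡ p ^ m * l [MOD Fintype.card κ - 1]) → DivBy w (bC k l')) →
      (∀ l' : ℕ, 0 < l' → l' < Fintype.card κ - 1 →
        (∃ m : ℕ, l' ≡ Fintype.card k ^ m * l [MOD Fintype.card κ - 1]) → DivBy w (bC k l')) := by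
    intro h l' h1 h3 h4
    obtain ⟨m, hm⟩ := h4
    exact h l' h1 h3 ⟨r * m, by rw [hq, ← pow_mul] at hm; exact hm⟩
  have h13 : ∑ a : κˣ, ((a : κ)⁻¹ ^ l) ⊗ₜ[ℤ] Additive.ofMul (u a) = (0 : κ ⊗[ℤ] Additive Fˣ) →
      (∀ l' : ℕ, 0 < l' → l' < Fintype.card κ - 1 →
        (∃ m : ℕ, l' ≡ p ^ m * l [MOD Fintype.card κ - 1]) → DivBy w (bC k l')) := by
    intro h1 l' hl'0 hl'N hm
    obtain ⟨m, hm⟩ := hm
    -- the log derivative as a map on the tensor product
    let ψ : E → (Fˣ → E) := fun c x => c * (D (j x) / j x)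
    have hψ2 : ∀ c (x y : Fˣ), ψ c (x * y) = ψ c x + ψ c y := by
      intro c x y
      have hx : j x ≠ 0 := by intro h; rw [map_eq_zero] at h; exact x.ne_zero h
      have hy : j y ≠ 0 := by intro h; rw [map_eq_zero] at h; exact y.ne_zero h
      have h0 : D (j (x : F) * j (y : F)) / (j (x : F) * j (y : F)) =
          D (j (x : F)) / j (x : F) + D (j (y : F)) / j (y : F) := by
        rw [Derivation.leibniz, smul_eq_mul, smul_eq_mul, div_add_div _ _ hx hy]
        congr 1; ring
      simp only [ψ, Units.val_mul, map_mul]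
      rw [h0, mul_add]
    let fr : κ →+* E := M.io.comp (iterateFrobenius κ p m)
    let B : κ →+ (Additive Fˣ →+ E) :=
      { toFun := fun c =>
          { toFun := fun x => ψ (fr c) (Additive.toMul x)
            map_zero' := by simp [ψ]
            map_add' := fun x y => hψ2 _ _ _ }
        map_zero' := by ext x; simp [ψ]
        map_add' := fun c c' => by ext x; simp [ψ]; ring }
    let Ψ : κ ⊗[ℤ] Additive Fˣ →+ E := TensorProduct.liftAddHom B (fun n c x => by
      simp only [map_zsmul, AddMonoidHom.smul_apply])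
    have h3 := congrArg Ψ h1
    rw [map_zero, map_sum] at h3
    have h4 : M.H (Datum.hh D (LL (k := k) (j lam) rep)) (l * p ^ m) = 0 := by
      rw [← h3, H_eq_sum]
      refine sum_congr rfl fun a _ => ?_
      change _ = ψ (fr ((a : κ)⁻¹ ^ l)) (u a)
      simp only [ψ, fr, Datum.hh]
      rw [hu, ← cAct_map, RingHom.comp_apply, iterateFrobenius_def, ← pow_mul, map_pow, map_inv₀]
      rfl
    have hl'N2 : l' < Fintype.card k ^ w.natDegree - 1 := by rw [← hcard]; exact hl'N
    have h5 : M.H (Datum.hh D (LL (k := k) (j lam) rep)) l' = 0 := by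
      have h6 : l * p ^ m = l' + (Fintype.card k ^ w.natDegree - 1) *
          ((l * p ^ m) / (Fintype.card k ^ w.natDegree - 1)) := by
        have h7 : (l * p ^ m) % (Fintype.card k ^ w.natDegree - 1) = l' := by
          have h8 := hm.symm
          rw [hcard, Nat.ModEq, Nat.mod_eq_of_lt hl'N2] at h8
          rw [mul_comm]; exact h8
        conv_lhs => rw [← Nat.mod_add_div (l * p ^ m) (Fintype.card k ^ w.natDegree - 1), h7]
      rw [h6, M.H_add_mul hcard] at h4
      exact h4
    obtain ⟨G, hG⟩ := M.good_h D hcard hd hLne w hmap hrel hMc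
    have h8 := M.H_eq hcard hd hq2 φ hφ (Datum.hh D _) _ G hG l' hl'N2
    rw [h5, mul_zero] at h8
    have h9 : G l' = 0 := by
      apply M.hT
      have := M.La_ne hq2 l'
      rcases mul_eq_zero.1 (neg_eq_zero.1 h8.symm) with h | h
      · exact h
      · exact absurd h this
    have h10 := Datum.bC_red hMc hcard hd (th_ne θ w hw hsurj hwdvd) G
      (M.hf_of D hDT hq hcard hd hLne G hG) l' hl'N2
    rw [h9, eval_zero, zero_div] at h10
    refine divBy_of_red θ w hwdvd M.io _ M.hT (fun a => hMc a) _ h10 fun a b hab ha hb => ?_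
    obtain ⟨x, y, hxy⟩ := hab
    have h11 := congrArg (aeval θ) hxy
    rw [map_add, map_mul, map_mul, (hwdvd a).1 ha, (hwdvd b).1 hb, mul_zero, mul_zero, map_one] at h11
    simp at h11
  rw [List.tfae_cons_cons, List.tfae_cons_cons]
  exact ⟨⟨fun h => h32 (h13 h), h21⟩, ⟨fun h => h13 (h21 h), h32⟩, List.tfae_singleton _⟩

end Pool.Agent.D0H54.Gk
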