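import Pool.Agent.D0H54.Gk.Shift

set_option linter.unusedSectionVars false

namespace Pool.Agent.D0H54.Gk

open Polynomial Finset

namespace Datum

section der

variable {p : ℕ} [hp : Fact p.Prime] {κ E : Type*} [Field κ] [Fintype κ] [Field E] [CharP E p]
  {q r d : ℕ} {T : E} {th : κ} {L : κ → E}
  (M : Datum q d T th L) (D : Derivation ℤ E E) (hDT : D T = 1) (hdec : ∀ x : E, Dec p T x)
  (hqp : q = p ^ r) (hcard : Fintype.card κ = q ^ d) (hd : 1 ≤ d) (hq : 2 ≤ q)

include hqp hq in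
lemma D_powq (x : E) : D (x ^ q) = 0 := by
  rcases r with _ | r
  · simp at hqp; omega
  · rw [hqp, pow_succ, pow_mul]
    exact D_powp p D _

include hqp hq hcard hd in
lemma D_io (a : κ) : D (M.io a) = 0 := by
  have h1 : M.io a = (M.io a ^ (q ^ (d - 1))) ^ q := by
    rw [← pow_mul, ← pow_succ, Nat.sub_add_cancel hd, ← map_pow, th_pow M hcard]
  rw [h1]
  exact D_powq D hqp hq _

include hqp hq hcard hd in
lemma D_io_pow (a : κ) (n : ℕ) : D (M.io a ^ n) = 0 := by
  rw [← map_pow]; exact M.D_io D hqp hcard hd hq _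

include hqp hq hcard hd hDT in
lemma D_g (j : ℕ) : (tp q th j).eval₂ M.io T * D (M.g j) = M.g j := by
  have h1 : ∀ j, (tp q th (j + 1)).eval₂ M.io T * D (M.g (j + 1)) = M.g (j + 1) := by
    intro j
    have h2 := congrArg D (M.hrec' j)
    rw [D_powq D hqp hq, Derivation.leibniz, eval_tp, map_sub, M.D_io_pow D hqp hcard hd hq, hDT,
      smul_eq_mul, smul_eq_mul] at h2
    rw [eval_tp]
    linear_combination h2
  rcases j with _ | j
  · obtain ⟨m, rfl⟩ : ∃ m, d = m + 1 := ⟨d - 1, by omega⟩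
    have h3 := h1 m
    have h4 : M.g (m + 1) = M.g 0 := by simpa using M.hper 0
    have h5 : tp q th (m + 1) = tp q th 0 := by simp [tp, th_pow M hcard]
    rwa [h4, h5] at h3
  · exact h1 j

include hqp hq hcard hd hDT in
lemma P1_D (a : κ) : (P1 q d th).eval₂ M.io T * D (L a) =
    ∑ j ∈ range d, M.io a ^ (q ^ j) * M.g j * (Rj q d th j).eval₂ M.io T := by
  rw [M.hL, map_sum, mul_sum]
  refine sum_congr rfl fun j hj => ?_
  rw [Derivation.leibniz, M.D_io_pow D hqp hcard hd hq, smul_zero, add_zero, smul_eq_mul]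
  have h1 : P1 q d th = tp q th j * Rj q d th j := (mul_prod_erase (range d) (tp q th) hj).symm
  rw [h1, eval₂_mul]
  have h2 := M.D_g D hDT hqp hcard hd hq j
  linear_combination (M.io a ^ q ^ j * eval₂ M.io T (Rj q d th j)) * h2

variable (φ : κ →+* κ) (hφ : ∀ x, φ x = x ^ q)

/-- log derivatives of the torsion points -/
noncomputable def hh (L : κ → E) (a : κ) : E := D (L a) / L a

variable (hLne : ∀ a, a ≠ 0 → L a ≠ 0)

include hqp hq hcard hd hDT hLne hφ in
lemma cartN_H (l : ℕ) (hl : l < q ^ d) :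
    cartN p D hDT hdec r (M.H (hh D L) l) = M.H (hh D L) (rot q d l) := by
  rw [H, H, map_sum]
  refine sum_congr rfl fun a _ => ?_
  have h1 : (M.io (a : κ))⁻¹ ^ l = ((M.io (a : κ))⁻¹ ^ rot q d l) ^ (p ^ r) := by
    rw [← hqp, ← pow_mul, mul_comm, rot_eq hq l hl, pow_add, M.io_inv_pow hcard hd hq φ hφ, mul_one]
  rw [h1, cartN_mul, hh, cartN_dlog]
  exact hLne _ a.ne_zero

/-- the polynomial `∏ (th^(q^j) - X)^(q-1-l_j)` -/
noncomputable def Pk (q d : ℕ) (th : κ) (l : ℕ) : κ[X] :=
  ∏ j ∈ range d, tp q th j ^ (q - 1 - dg q d l j)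

lemma P1_ne : (P1 q d th).eval₂ M.io T ≠ 0 := by
  rw [P1, eval₂_finsetProd]
  exact prod_ne_zero_iff.2 fun j _ => M.tp_ne j

include hqp hq hcard hd hDT hLne hφ in
lemma cart_step (l : ℕ) (hl : l < q ^ d) (f : κ[X])
    (hf : (P1 q d th).eval₂ M.io T * M.H (hh D L) l = - (f.eval₂ M.io T * M.La l)) :
    (P1 q d th).eval₂ M.io T * M.H (hh D L) (rot q d l) =
      - (cartN p D hDT hdec r ((f * Pk q d th l).eval₂ M.io T) * M.La (rot q d l)) := by
  have hP1 := M.P1_ne
  have hPq : (P1 q d th).eval₂ M.io T ^ q = (P1 q d th).eval₂ M.io T *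
      (P1 q d th).eval₂ M.io T ^ (q - 1) := by
    rw [← pow_succ']; congr 1; omega
  have h1 : M.La (rot q d l) ^ q * (Pk q d th l).eval₂ M.io T =
      M.La l * (P1 q d th).eval₂ M.io T ^ (q - 1) := by
    rw [← M.La_rot hcard hd hq φ hφ, Pk, P1, eval₂_finsetProd, eval₂_finsetProd, mul_assoc,
      ← prod_mul_distrib, ← prod_pow]
    congr 1
    refine prod_congr rfl fun j _ => ?_
    rw [eval₂_pow, ← pow_add]
    congr 1
    have := dg_lt (d := d) hq l j
    omega
  have h2 : M.H (hh D L) l = - ((M.La (rot q d l) / (P1 q d th).eval₂ M.io T) ^ (p ^ r) *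
      (f * Pk q d th l).eval₂ M.io T) := by
    rw [← hqp, div_pow, eval₂_mul]
    have h3 : M.H (hh D L) l = - (f.eval₂ M.io T * M.La l) / (P1 q d th).eval₂ M.io T := by
      rw [← hf]; field_simp
    rw [h3]
    have h4 : M.La l / (P1 q d th).eval₂ M.io T =
        M.La (rot q d l) ^ q / (P1 q d th).eval₂ M.io T ^ q * (Pk q d th l).eval₂ M.io T := by
      rw [div_mul_eq_mul_div, h1, hPq, div_eq_div_iff hP1 (mul_ne_zero hP1 (pow_ne_zero _ hP1))]
      ring
    linear_combination (- f.eval₂ M.io T) * h4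
  have h5 := M.cartN_H D hDT hdec hqp hcard hd hq φ hφ hLne l hl
  rw [h2, map_neg, cartN_mul] at h5
  rw [← h5]
  field_simp

lemma Pk_degree (l : ℕ) : (Pk q d th l).natDegree ≤ ∑ j ∈ range d, (q - 1 - dg q d l j) := by
  rw [Pk]
  refine (natDegree_prod_le _ _).trans (sum_le_sum fun j _ => ?_)
  refine natDegree_pow_le.trans ?_
  have : (tp q th j).natDegree ≤ 1 := by
    rw [tp, ← neg_sub, natDegree_neg]
    exact natDegree_X_sub_C_le _
  calc (q - 1 - dg q d l j) * (tp q th j).natDegree ≤ (q - 1 - dg q d l j) * 1 :=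
        Nat.mul_le_mul_left _ this
    _ = _ := mul_one _

include hqp hq hcard hd hDT hLne hφ hdec in
/-- the degree bound -/
lemma degree_bound [CharP κ p] (l : ℕ) (hl0 : 0 < l) (hl : l < q ^ d - 1)
    (hgood : M.Good (fun a => (P1 q d th).eval₂ M.io T * hh D L a)) :
    ∃ f : κ[X], f ∈ degreeLT κ (d - 1) ∧
      (P1 q d th).eval₂ M.io T * M.H (hh D L) l = - (f.eval₂ M.io T * M.La l) := by
  classical
  obtain ⟨F, hF⟩ := hgood
  set W : ℕ := ∑ j ∈ range d, (q - 1 - dg q d l j) with hW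
  set A : ℕ → Prop := fun D0 => ∀ i, ∃ f ∈ degreeLT κ D0,
    (P1 q d th).eval₂ M.io T * M.H (hh D L) ((rot q d)^[i] l) =
      - (f.eval₂ M.io T * M.La ((rot q d)^[i] l)) with hA
  have hltN : ∀ i, (rot q d)^[i] l < q ^ d - 1 := by
    intro i
    induction i with
    | zero => exact hl
    | succ i ih => rw [Function.iterate_succ_apply']; exact rot_lt_N hq hd _ ih
  have hWi : ∀ i, ∑ j ∈ range d, (q - 1 - dg q d ((rot q d)^[i] l) j) = W := by
    intro i
    induction i with
    | zero => rfl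
    | succ i ih =>
      rw [Function.iterate_succ_apply', ← ih]
      simp_rw [dg_rot hq hd]
      exact sum_dg_shift hd ((rot q d)^[i] l) (fun x => q - 1 - x)
  have hex : ∃ D0, A D0 := by
    refine ⟨∑ m ∈ range (q ^ d - 1), ((F m).natDegree + 1), fun i => ⟨F ((rot q d)^[i] l), ?_, ?_⟩⟩
    · rw [mem_degreeLT]
      refine lt_of_le_of_lt degree_le_natDegree ?_
      rw [Nat.cast_lt]
      have := single_le_sum (f := fun m => (F m).natDegree + 1) (fun m _ => Nat.zero_le _)
        (mem_range.2 (hltN i))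
      omega
    · exact M.H_eq hcard hd hq φ hφ (hh D L) _ F hF _ (hltN i)
  set D0 := Nat.find hex with hD0
  have hAD : A D0 := Nat.find_spec hex
  have hmin : ∀ m < D0, ¬ A m := fun m hm => Nat.find_min hex hm
  have hle : D0 * (q - 1) ≤ W := by
    by_contra hcon
    have hlt : (D0 + W) / q < D0 := by
      rw [Nat.div_lt_iff_lt_mul (by omega)]
      have : D0 * q = D0 * (q - 1) + D0 := by
        obtain ⟨m, rfl⟩ : ∃ m, q = m + 1 := ⟨q - 1, by omega⟩
        simp; ring
      omega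
    refine hmin _ hlt fun i => ?_
    obtain ⟨f, hf1, hf2⟩ := hAD (i + (d - 1))
    have h1 := M.cart_step D hDT hdec hqp hcard hd hq φ hφ hLne _ (by have := hltN (i + (d - 1)); omega) f hf2
    have h2 : rot q d ((rot q d)^[i + (d - 1)] l) = (rot q d)^[i] l := by
      rw [← Function.iterate_succ_apply' (rot q d)]
      have : (i + (d - 1)).succ = i + d := by omega
      rw [this, Function.iterate_add_apply, rot_iter_d hq hd l (by omega)]
    obtain ⟨g, hg1, hg2⟩ := cartN_poly p D hDT hdec M.io r (f * Pk q d th ((rot q d)^[i + (d - 1)] l))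
      (D0 + W) (by
        rw [mem_degreeLT] at hf1 ⊢
        by_cases hf0 : f = 0
        · rw [hf0, zero_mul, degree_zero]; exact WithBot.bot_lt_coe _
        · by_cases hP0 : Pk q d th ((rot q d)^[i + (d - 1)] l) = 0
          · rw [hP0, mul_zero, degree_zero]; exact WithBot.bot_lt_coe _
          · rw [← natDegree_lt_iff_degree_lt (mul_ne_zero hf0 hP0), natDegree_mul hf0 hP0]
            have h3 := (natDegree_lt_iff_degree_lt hf0).2 hf1
            have h4 := Pk_degree (q := q) (d := d) (th := th) ((rot q d)^[i + (d - 1)] l)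
            rw [hWi] at h4
            omega)
    refine ⟨g, ?_, ?_⟩
    · rw [← hqp] at hg1; exact hg1
    · rw [h2, hg2] at h1
      exact h1
  obtain ⟨f, hf1, hf2⟩ := hAD 0
  refine ⟨f, ?_, hf2⟩
  refine degreeLT_mono ?_ hf1
  -- D0 ≤ d - 1
  have hdigit : ∃ j ∈ range d, dg q d l j ≠ 0 := by
    by_contra hcon
    push Not at hcon
    have := sum_dg hq l (by omega : l < q ^ d)
    rw [sum_eq_zero (fun j hj => by rw [hcon j hj, zero_mul])] at this
    omega
  have hWlt : W < d * (q - 1) := by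
    obtain ⟨j, hj, hj0⟩ := hdigit
    have h1 : ∑ j ∈ range d, (q - 1 - dg q d l j) < ∑ _j ∈ range d, (q - 1) := by
      refine sum_lt_sum (fun j _ => Nat.sub_le _ _) ⟨j, hj, ?_⟩
      have := dg_lt (d := d) hq l j
      omega
    simpa using h1
  have : D0 * (q - 1) < d * (q - 1) := lt_of_le_of_lt hle hWlt
  have := Nat.lt_of_mul_lt_mul_right this
  omega

end der

end Datum

end Pool.Agent.D0H54.Gk
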