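import Mathlib

set_option linter.unusedSectionVars false

namespace Pool.Agent.D0H54.Gk

open Polynomial Finset

section

variable (k : Type*) [Field k] [Fintype k] {F : Type*} [Field F] [Algebra (RatFunc k) F]

/-- the Carlitz action of `T`: `x ↦ T x + x^q` -/
noncomputable def cT (x : F) : F :=
  algebraMap (RatFunc k) F RatFunc.X * x + x ^ Fintype.card k

/-- the Carlitz action of a polynomial `a = ∑ a_i T^i`: `C_a(x) = ∑ a_i C_T^i(x)` -/
noncomputable def cAct (a : k[X]) (x : F) : F :=
  a.sum fun i c => algebraMap (RatFunc k) F (RatFunc.C c) * (cT k)^[i] x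

lemma cT_add (x y : F) : cT k (x + y) = cT k x + cT k y := by
  obtain ⟨p, hp⟩ := CharP.exists k
  have hp1 := CharP.char_is_prime k p
  have : Fact p.Prime := ⟨hp1⟩
  have : CharP F p := charP_of_injective_ringHom
    (f := (algebraMap (RatFunc k) F).comp RatFunc.C) (RingHom.injective _) p
  obtain ⟨⟨n, hn⟩, _, h2⟩ := FiniteField.card k p
  have h3 : Fintype.card k = p ^ n := h2
  simp only [cT]
  rw [h3, add_pow_char_pow, mul_add]
  ring

lemma cT_C_mul (c : k) (x : F) : cT k (algebraMap (RatFunc k) F (RatFunc.C c) * x) =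
    algebraMap (RatFunc k) F (RatFunc.C c) * cT k x := by
  simp only [cT]
  rw [mul_pow, ← map_pow, ← map_pow, FiniteField.pow_card]
  ring

lemma cAct_hom : ∃ Φ : k[X] →+* AddMonoid.End F, ∀ a x, cAct k a x = Φ a x := by
  let _ : Algebra k F := ((algebraMap (RatFunc k) F).comp RatFunc.C).toAlgebra
  let φ : Module.End k F :=
    { toFun := cT k
      map_add' := cT_add k
      map_smul' := fun c x => cT_C_mul k c x }
  let Ψ : Module.End k F →+* AddMonoid.End F :=
    { toFun := fun f => f.toAddMonoidHom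
      map_one' := rfl
      map_mul' := fun _ _ => rfl
      map_zero' := rfl
      map_add' := fun _ _ => rfl }
  refine ⟨Ψ.comp (aeval φ).toRingHom, fun a x => ?_⟩
  change _ = (aeval φ a) x
  rw [aeval_eq_sum_range, cAct, Polynomial.sum_over_range _ (by intro n; simp), LinearMap.sum_apply]
  refine sum_congr rfl fun i _ => ?_
  change _ = (a.coeff i) • ((φ ^ i) x)
  rw [Algebra.smul_def, Module.End.pow_apply]
  rfl

lemma cAct_add (a b : k[X]) (x : F) : cAct k (a + b) x = cAct k a x + cAct k b x := by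
  obtain ⟨Φ, hΦ⟩ := cAct_hom k (F := F)
  rw [hΦ, hΦ, hΦ, map_add]; rfl

lemma cAct_mul (a b : k[X]) (x : F) : cAct k (a * b) x = cAct k a (cAct k b x) := by
  obtain ⟨Φ, hΦ⟩ := cAct_hom k (F := F)
  rw [hΦ, hΦ, hΦ, map_mul]; rfl

lemma cAct_add' (a : k[X]) (x y : F) : cAct k a (x + y) = cAct k a x + cAct k a y := by
  obtain ⟨Φ, hΦ⟩ := cAct_hom k (F := F)
  rw [hΦ, hΦ, hΦ, map_add]

lemma cAct_zero' (a : k[X]) : cAct k a (0 : F) = 0 := by
  obtain ⟨Φ, hΦ⟩ := cAct_hom k (F := F)
  rw [hΦ, map_zero]

lemma cAct_zero (x : F) : cAct k 0 x = 0 := by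
  obtain ⟨Φ, hΦ⟩ := cAct_hom k (F := F)
  rw [hΦ, map_zero]; rfl

lemma cAct_one (x : F) : cAct k 1 x = x := by
  obtain ⟨Φ, hΦ⟩ := cAct_hom k (F := F)
  rw [hΦ, map_one]; rfl

lemma cAct_C (c : k) (x : F) : cAct k (C c) x = algebraMap (RatFunc k) F (RatFunc.C c) * x := by
  rw [cAct, sum_C_index]
  · rfl
  · simp

lemma cAct_X (x : F) : cAct k X x = cT k x := by
  rw [cAct, sum_X_index]
  · simp
  · simp

lemma cAct_sum {ι : Type*} (s : Finset ι) (f : ι → k[X]) (x : F) :
    cAct k (∑ i ∈ s, f i) x = ∑ i ∈ s, cAct k (f i) x := by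
  obtain ⟨Φ, hΦ⟩ := cAct_hom k (F := F)
  simp_rw [hΦ]
  rw [map_sum]
  exact AddMonoidHom.finsetSum_apply _ _ _

/-- the constants and polynomials inside `F` -/
noncomputable def al (k F : Type*) [Field k] [Field F] [Algebra (RatFunc k) F] : k[X] →+* F :=
  (algebraMap (RatFunc k) F).comp (algebraMap k[X] (RatFunc k))

lemma al_apply (a : k[X]) : al k F a = algebraMap (RatFunc k) F (algebraMap k[X] (RatFunc k) a) := rfl

lemma al_X : al k F X = algebraMap (RatFunc k) F RatFunc.X := by
  rw [al_apply, RatFunc.algebraMap_X]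

lemma al_C (c : k) : al k F (C c) = algebraMap (RatFunc k) F (RatFunc.C c) := by
  rw [al_apply, RatFunc.algebraMap_C]

lemma al_inj : Function.Injective (al k F) := by
  intro a b h
  rw [al_apply, al_apply] at h
  exact RatFunc.algebraMap_injective k ((algebraMap (RatFunc k) F).injective h)

/-- `C_a` is an additive polynomial with linear coefficient `a` -/
lemma cAct_expand (a : k[X]) : ∃ (n : ℕ) (c : ℕ → k[X]), 0 < n ∧ c 0 = a ∧ (∀ i, n ≤ i → c i = 0) ∧
    ∀ x : F, cAct k a x = ∑ i ∈ range n, al k F (c i) * x ^ (Fintype.card k ^ i) := by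
  obtain ⟨p, hp⟩ := CharP.exists k
  have hp1 := CharP.char_is_prime k p
  have : Fact p.Prime := ⟨hp1⟩
  have : CharP F p := charP_of_injective_ringHom
    (f := (algebraMap (RatFunc k) F).comp RatFunc.C) (RingHom.injective _) p
  obtain ⟨⟨m, hm⟩, _, h2⟩ := FiniteField.card k p
  have hcard : Fintype.card k = p ^ m := h2
  induction a using Polynomial.induction_on with
  | C c =>
    refine ⟨1, fun i => if i = 0 then C c else 0, one_pos, by simp, fun i hi => by
      beta_reduce; rw [if_neg (by omega)], fun x => ?_⟩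
    rw [cAct_C, sum_range_one]
    beta_reduce
    rw [if_pos rfl, al_C, pow_zero, pow_one]
  | add a b ha hb =>
    obtain ⟨n, c, hn, hc0, hc, h1⟩ := ha
    obtain ⟨n', c', hn', hc0', hc', h1'⟩ := hb
    refine ⟨n + n', fun i => c i + c' i, by omega, by beta_reduce; rw [hc0, hc0'], fun i hi => by
      beta_reduce; rw [hc i (by omega), hc' i (by omega), add_zero], fun x => ?_⟩
    rw [cAct_add, h1, h1']
    have e1 : ∑ i ∈ range n, al k F (c i) * x ^ (Fintype.card k ^ i) =
        ∑ i ∈ range (n + n'), al k F (c i) * x ^ (Fintype.card k ^ i) := by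
      refine sum_subset (range_subset_range.2 (by omega)) fun i _ hi => ?_
      rw [mem_range, not_lt] at hi
      rw [hc i hi, map_zero, zero_mul]
    have e2 : ∑ i ∈ range n', al k F (c' i) * x ^ (Fintype.card k ^ i) =
        ∑ i ∈ range (n + n'), al k F (c' i) * x ^ (Fintype.card k ^ i) := by
      refine sum_subset (range_subset_range.2 (by omega)) fun i _ hi => ?_
      rw [mem_range, not_lt] at hi
      rw [hc' i hi, map_zero, zero_mul]
    rw [e1, e2, ← sum_add_distrib]
    refine sum_congr rfl fun i _ => ?_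
    rw [map_add, add_mul]
  | monomial j a ha =>
    obtain ⟨n, c, hn, hc0, hc, h1⟩ := ha
    refine ⟨n + 1, fun i => X * c i + (if i = 0 then 0 else c (i - 1) ^ Fintype.card k), by omega, ?_,
      fun i hi => ?_, fun x => ?_⟩
    · simp only [if_true, add_zero, hc0, pow_succ]; ring
    · have : i ≠ 0 := by omega
      simp only [this, if_false]
      rw [hc i (by omega), hc (i - 1) (by omega), mul_zero, zero_pow Fintype.card_ne_zero, add_zero]
    · have e0 : C a * X ^ (j + 1) = X * (C a * X ^ j) := by rw [pow_succ]; ring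
      rw [e0, cAct_mul, cAct_X, cT, h1, hcard, sum_pow_char_pow]
      simp_rw [map_add, add_mul, sum_add_distrib]
      congr 1
      · rw [sum_range_succ, hc n le_rfl, mul_zero, map_zero, zero_mul, add_zero, mul_sum]
        refine sum_congr rfl fun i _ => ?_
        rw [map_mul, al_X]; ring
      · rw [sum_range_succ']
        simp only [if_true, map_zero, zero_mul, add_zero]
        refine sum_congr rfl fun i _ => ?_
        rw [if_neg (by omega), Nat.add_sub_cancel, map_pow, mul_pow, ← pow_mul, ← pow_succ]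

end

end Pool.Agent.D0H54.Gk
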