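import Pool.Agent.D0H54.Gk.Eval

set_option linter.unusedSectionVars false

namespace Pool.Agent.D0H54.Gk

open Polynomial Finset

section defs

variable (k : Type*) [Field k] [Fintype k]

/-- `D_i = ∏_{j < i} (T^{q^i} - T^{q^j})` -/
noncomputable def cD (i : ℕ) : k[X] :=
  ∏ j ∈ range i, (X ^ (Fintype.card k ^ i) - X ^ (Fintype.card k ^ j))

/-- the Carlitz factorial `Π(n) = ∏_i D_i^{n_i}`, `n_i` the base `q` digits of `n` -/
noncomputable def cPi (n : ℕ) : k[X] :=
  ∏ i ∈ range (n + 1), cD k i ^ (n / Fintype.card k ^ i % Fintype.card k)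

/-- the Carlitz exponential `e(z) = ∑_i z^{q^i} / D_i` -/
noncomputable def cExp : PowerSeries (RatFunc k) :=
  PowerSeries.mk fun n => ∑ i ∈ range (n + 1),
    if Fintype.card k ^ i = n then (algebraMap k[X] (RatFunc k) (cD k i))⁻¹ else 0

/-- the power series `e(z) / z` -/
noncomputable def cExpDiv : PowerSeries (RatFunc k) :=
  PowerSeries.mk fun n => PowerSeries.coeff (n + 1) (cExp k)

/-- the Bernoulli-Carlitz numbers: `z / e(z) = ∑_n (B_n / Π(n)) z^n` -/
noncomputable def bC (n : ℕ) : RatFunc k :=
  algebraMap k[X] (RatFunc k) (cPi k n) * PowerSeries.coeff n (cExpDiv k)⁻¹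

end defs

section lemmas

variable {k : Type*} [Field k] [Fintype k]

lemma cD_zero : cD k 0 = 1 := by simp [cD]

lemma cD_succ (i : ℕ) : cD k (i + 1) = (X ^ (Fintype.card k ^ (i + 1)) - X) * cD k i ^ Fintype.card k := by
  rw [← FiniteField.expand_card, cD, cD, prod_range_succ', mul_comm]
  congr 1
  · simp
  · rw [map_prod]
    refine prod_congr rfl fun j _ => ?_
    rw [map_sub, map_pow, map_pow, expand_X, ← pow_mul, ← pow_mul, pow_succ', pow_succ']

lemma coeff_cExpDiv (m : ℕ) : PowerSeries.coeff m (cExpDiv k) = ∑ i ∈ range (m + 2),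
    if Fintype.card k ^ i = m + 1 then (algebraMap k[X] (RatFunc k) (cD k i))⁻¹ else 0 := by
  rw [cExpDiv, PowerSeries.coeff_mk, cExp, PowerSeries.coeff_mk]

lemma coeff_zero_cExpDiv : PowerSeries.coeff 0 (cExpDiv k) = 1 := by
  have hq : 1 < Fintype.card k := Fintype.one_lt_card
  rw [coeff_cExpDiv, sum_range_succ, sum_range_one]
  simp only [pow_zero, zero_add, if_true, pow_one, cD_zero, map_one, inv_one]
  rw [if_neg (by omega), add_zero]

lemma cExpDiv_conv (r : ℕ) : ∑ x ∈ antidiagonal r, PowerSeries.coeff x.1 (cExpDiv k) *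
    PowerSeries.coeff x.2 (cExpDiv k)⁻¹ = if r = 0 then 1 else 0 := by
  have h : cExpDiv k * (cExpDiv k)⁻¹ = 1 := by
    apply PowerSeries.mul_inv_cancel
    rw [← PowerSeries.coeff_zero_eq_constantCoeff_apply, coeff_zero_cExpDiv]
    exact one_ne_zero
  rw [← PowerSeries.coeff_mul, h, PowerSeries.coeff_one]

end lemmas

namespace Datum

variable {k κ E : Type*} [Field k] [Fintype k] [Field κ] [Fintype κ] [Field E] [Algebra k κ]
  [Algebra (RatFunc k) E]
  {d : ℕ} {T : E} {th : κ} {L : κ → E}
  (M : Datum (Fintype.card k) d T th L)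

lemma cD_eval (th : κ) (j : ℕ) : ((cD k j).map (algebraMap k κ)).eval th = (Dt (Fintype.card k) th j).eval th := by
  induction j with
  | zero => simp [cD_zero, Dt]
  | succ j ih =>
    rw [cD_succ, Dt, Polynomial.map_mul, Polynomial.map_pow, eval_mul, eval_mul, eval_pow, eval_pow, ih, tp]
    simp

lemma cPi_eval (th : κ) (n : ℕ) (hn : n < Fintype.card k ^ d) :
    ((cPi k n).map (algebraMap k κ)).eval th = (Pt (Fintype.card k) d th n).eval th := by
  have hq : 1 < Fintype.card k := Fintype.one_lt_card
  rw [cPi, Pt, Polynomial.map_prod, eval_prod, eval_prod]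
  have e1 : ∏ j ∈ range (n + 1 + d), ((Dt (Fintype.card k) th j).eval th) ^
      (n / Fintype.card k ^ j % Fintype.card k) =
      ∏ j ∈ range (n + 1), eval th (Polynomial.map (algebraMap k κ)
        (cD k j ^ (n / Fintype.card k ^ j % Fintype.card k))) := by
    symm
    have : ∀ j ∈ range (n + 1), eval th (Polynomial.map (algebraMap k κ)
        (cD k j ^ (n / Fintype.card k ^ j % Fintype.card k))) = ((Dt (Fintype.card k) th j).eval th) ^
      (n / Fintype.card k ^ j % Fintype.card k) := by
      intro j _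
      rw [Polynomial.map_pow, eval_pow, cD_eval]
    rw [prod_congr rfl this]
    refine prod_subset (range_subset_range.2 (by omega)) fun j _ hj => ?_
    rw [mem_range, not_lt] at hj
    have h1 : n < Fintype.card k ^ j := lt_of_lt_of_le (by omega) (Nat.lt_pow_self hq).le
    rw [Nat.div_eq_of_lt h1]
    simp
  have e2 : ∏ j ∈ range (n + 1 + d), ((Dt (Fintype.card k) th j).eval th) ^
      (n / Fintype.card k ^ j % Fintype.card k) =
      ∏ j ∈ range d, eval th (Dt (Fintype.card k) th j ^ (n / Fintype.card k ^ j % Fintype.card k)) := by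
    symm
    simp_rw [eval_pow]
    refine prod_subset (range_subset_range.2 (by omega)) fun j _ hj => ?_
    rw [mem_range, not_lt] at hj
    have h1 : n < Fintype.card k ^ j := lt_of_lt_of_le hn (Nat.pow_le_pow_right (by omega) hj)
    rw [Nat.div_eq_of_lt h1]
    simp
  rw [← e1, e2]

/-- compatibility of the embedding of `κ` with the structure of `E` -/
def Compat : Prop := ∀ a : k[X], (a.map (algebraMap k κ)).eval₂ M.io T =
  algebraMap (RatFunc k) E (algebraMap k[X] (RatFunc k) a)

variable {M}

lemma red_alg (hM : M.Compat (k := k)) (a : k[X]) :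
    Red M.io T th (algebraMap (RatFunc k) E (algebraMap k[X] (RatFunc k) a))
      ((a.map (algebraMap k κ)).eval th) := by
  rw [← hM a]
  exact Red.poly _

lemma R0_ne (hth : ∀ j, 1 ≤ j → j < d → th ^ (Fintype.card k ^ j) ≠ th) :
    (Rj (Fintype.card k) d th 0).eval th ≠ 0 := by
  rw [Rj, eval_prod]
  refine prod_ne_zero_iff.2 fun j hj => ?_
  rw [mem_erase, mem_range] at hj
  rw [tp, eval_sub, eval_C, eval_X, sub_ne_zero]
  exact hth _ (by omega) hj.2

theorem bC_red (hM : M.Compat (k := k)) (hcard : Fintype.card κ = Fintype.card k ^ d) (hd : 1 ≤ d)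
    (hth : ∀ j, 1 ≤ j → j < d → th ^ (Fintype.card k ^ j) ≠ th) (f : ℕ → κ[X])
    (hf : ∀ a : κ, a ≠ 0 → L a * (∑ l ∈ range (Fintype.card k ^ d - 1),
      (f l).eval₂ M.io T * (M.io a ^ l * M.La l)) =
      ∑ j ∈ range d, M.io a ^ (Fintype.card k ^ j) * M.g j * (Rj (Fintype.card k) d th j).eval₂ M.io T)
    (r : ℕ) (hr : r < Fintype.card k ^ d - 1) :
    Red M.io T th (algebraMap (RatFunc k) E (bC k r))
      ((f r).eval th / (Rj (Fintype.card k) d th 0).eval th) := by
  classical
  have hq : 1 < Fintype.card k := Fintype.one_lt_card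
  have hF := M.conv_F hcard hd hq hth f hf
  have key := conv_red (io := M.io) (T := T) (th := th) (Fintype.card k ^ d - 1)
    (fun m => ∑ j ∈ range d, if Fintype.card k ^ j = m + 1 then ((Dt (Fintype.card k) th j).eval th)⁻¹ else 0)
    (fun l => (f l).eval th / (Pt (Fintype.card k) d th l).eval th)
    (fun m => algebraMap (RatFunc k) E (PowerSeries.coeff m (cExpDiv k)))
    (fun m => algebraMap (RatFunc k) E (PowerSeries.coeff m (cExpDiv k)⁻¹))
    ((Rj (Fintype.card k) d th 0).eval th) (R0_ne hth) ?_ ?_ ?_ hF ?_ r hr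
  · have h1 : Red M.io T th (algebraMap (RatFunc k) E (algebraMap k[X] (RatFunc k) (cPi k r)))
        ((Pt (Fintype.card k) d th r).eval th) := by
      rw [← cPi_eval th r (by omega)]
      exact red_alg hM _
    have h2 := h1.mul key
    rw [← map_mul] at h2
    have h3 : (Pt (Fintype.card k) d th r).eval th * ((f r).eval th / (Pt (Fintype.card k) d th r).eval th / (Rj (Fintype.card k) d th 0).eval th)
        = (f r).eval th / (Rj (Fintype.card k) d th 0).eval th := by
      have := Pt_eval_ne (q := Fintype.card k) (d := d) hth r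
      field_simp
    rw [h3] at h2
    exact h2
  · intro m hm
    rw [coeff_cExpDiv]
    by_cases hex : ∃ j, Fintype.card k ^ j = m + 1
    · obtain ⟨j, hj⟩ := hex
      have hjd : j < d := by
        by_contra h
        have := Nat.pow_le_pow_right (n := Fintype.card k) (by omega) (not_lt.1 h)
        omega
      have hjm : j < m + 2 := by
        have := Nat.lt_pow_self hq (n := j)
        omega
      have huniq : ∀ i, i ≠ j → Fintype.card k ^ i ≠ m + 1 := by
        intro i hi h
        rw [← hj] at h
        exact hi (Nat.pow_right_injective hq h)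
      rw [sum_eq_single j, sum_eq_single j, if_pos hj, if_pos hj, map_inv₀, ← cD_eval th]
      · refine Red.inv M.hT (red_alg hM _) ?_
        rw [cD_eval]
        exact Dt_eval_ne hth j hjd
      · intro b _ hb; rw [if_neg (huniq b hb)]
      · intro h; exact absurd (mem_range.2 hjd) h
      · intro b _ hb; rw [if_neg (huniq b hb)]
      · intro h; exact absurd (mem_range.2 hjm) h
    · push Not at hex
      rw [sum_eq_zero, sum_eq_zero, map_zero]
      · exact Red.zero
      · intro j _; rw [if_neg (hex j)]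
      · intro j _; rw [if_neg (hex j)]
  · rw [coeff_zero_cExpDiv, map_one]
  · rw [sum_eq_single 0]
    · simp [Dt]
    · intro j _ hj
      rw [if_neg]
      intro h
      have : 1 < Fintype.card k ^ j := Nat.one_lt_pow hj hq
      omega
    · intro h; exact absurd (mem_range.2 (by omega)) h
  · intro r _
    have h := congrArg (algebraMap (RatFunc k) E) (cExpDiv_conv (k := k) r)
    rw [map_sum] at h
    simp_rw [map_mul] at h
    rw [h]
    split_ifs <;> simp

end Datum

end Pool.Agent.D0H54.Gk
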