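import Pool.Agent.D0H54.Gk.Main1
import Pool.Agent.D0H54.Gk.Act

set_option linter.unusedSectionVars false

namespace Pool.Agent.D0H54.Gk

open Polynomial Finset

section finite

variable {k κ : Type*} [Field k] [Fintype k] [Field κ] [Fintype κ]

lemma card_le_of_fixed (Q : ℕ) (hQ : 2 ≤ Q) (h : ∀ x : κ, x ^ Q = x) : Fintype.card κ ≤ Q := by
  classical
  obtain ⟨g, hg⟩ := IsCyclic.exists_generator (α := κˣ)
  have h1 : orderOf g = Nat.card κˣ := orderOf_eq_card_of_forall_mem_zpowers hg
  have h2 : g ^ (Q - 1) = 1 := by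
    have h3 := h (g : κ)
    have h4 : (g : κ) ^ (Q - 1) * g = 1 * g := by
      rw [← pow_succ, Nat.sub_add_cancel (by omega), h3, one_mul]
    have h5 := mul_right_cancel₀ g.ne_zero h4
    ext; simpa using h5
  have h3 := orderOf_dvd_of_pow_eq_one h2
  rw [h1, Nat.card_eq_fintype_card, Fintype.card_units] at h3
  have h4 := Nat.le_of_dvd (by omega) h3
  have : 1 < Fintype.card κ := Fintype.one_lt_card
  omega

variable [Algebra k κ] (θ : κ) (w : k[X]) (hw : w.Monic)
  (hsurj : Function.Surjective (aeval θ : k[X] → κ)) (hwdvd : ∀ a : k[X], w ∣ a ↔ aeval θ a = 0)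

include hw hsurj hwdvd in
lemma card_kap : Fintype.card κ = Fintype.card k ^ w.natDegree := by
  have hint : IsIntegral k θ := ⟨w, hw, by
    have := (hwdvd w).1 dvd_rfl
    rwa [aeval_def] at this⟩
  have h1 : w = minpoly k θ := by
    refine eq_of_monic_of_associated hw (minpoly.monic hint) ?_
    refine associated_of_dvd_dvd ?_ ?_
    · rw [hwdvd]; exact minpoly.aeval k θ
    · exact minpoly.dvd k θ ((hwdvd w).1 dvd_rfl)
  have h2 : IntermediateField.adjoin k {θ} = ⊤ := by
    rw [eq_top_iff]
    intro x _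
    obtain ⟨f, rfl⟩ := hsurj x
    exact IntermediateField.algebra_adjoin_le_adjoin k {θ} (aeval_mem_adjoin_singleton k θ)
  have h3 : Module.finrank k κ = w.natDegree := by
    rw [h1, ← IntermediateField.adjoin.finrank hint, h2, IntermediateField.finrank_top']
  rw [Module.card_eq_pow_finrank (K := k) (V := κ), h3]

lemma pow_card_pow_eq_expand (f : k[X]) (j : ℕ) :
    f ^ (Fintype.card k ^ j) = expand k (Fintype.card k ^ j) f := by
  induction j with
  | zero => simp
  | succ j ih =>
    rw [pow_succ, pow_mul, ih, ← FiniteField.expand_card, expand_expand, mul_comm]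

lemma aeval_pow_card (f : k[X]) (j : ℕ) :
    (aeval θ f) ^ (Fintype.card k ^ j) = aeval (θ ^ (Fintype.card k ^ j)) f := by
  rw [← map_pow, pow_card_pow_eq_expand, expand_aeval]

include hw hsurj hwdvd in
lemma th_ne (j : ℕ) (hj1 : 1 ≤ j) (hjd : j < w.natDegree) : θ ^ (Fintype.card k ^ j) ≠ θ := by
  intro h
  have hq : 1 < Fintype.card k := Fintype.one_lt_card
  have h1 : ∀ x : κ, x ^ (Fintype.card k ^ j) = x := by
    intro x
    obtain ⟨f, rfl⟩ := hsurj x
    rw [aeval_pow_card, h]
  have h2 := card_le_of_fixed (κ := κ) (Fintype.card k ^ j)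
    (Nat.succ_le_of_lt (Nat.one_lt_pow (by omega) hq)) h1
  rw [card_kap θ w hw hsurj hwdvd] at h2
  have := Nat.pow_lt_pow_right hq hjd
  omega

include hw hsurj hwdvd in
lemma w_map : w.map (algebraMap k κ) = ∏ j ∈ range w.natDegree, (X - C (θ ^ (Fintype.card k ^ j))) := by
  obtain ⟨p, hp⟩ := CharP.exists k
  have hp1 := CharP.char_is_prime k p
  have : Fact p.Prime := ⟨hp1⟩
  have : CharP κ p := charP_of_injective_ringHom (algebraMap k κ).injective p
  obtain ⟨⟨m, hm⟩, _, h2⟩ := FiniteField.card k p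
  have hcard : Fintype.card k = p ^ m := h2
  have hinj := Datum.th_inj (k := k) (κ := κ) (p := p) (r := m) (d := w.natDegree) (th := θ) hcard
    (fun j h1 h2 => th_ne θ w hw hsurj hwdvd j h1 h2)
  have hdvd : (∏ j ∈ range w.natDegree, (X - C (θ ^ (Fintype.card k ^ j)))) ∣ w.map (algebraMap k κ) := by
    refine Finset.prod_dvd_of_coprime ?_ ?_
    · intro i hi j hj hij
      refine isCoprime_X_sub_C_of_isUnit_sub (sub_ne_zero_of_ne fun h => hij ?_).isUnit
      exact hinj i (by simpa using hi) j (by simpa using hj) h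
    · intro i _
      rw [dvd_iff_isRoot, IsRoot.def, eval_map_algebraMap, ← aeval_pow_card, (hwdvd w).1 dvd_rfl]
      exact zero_pow (pow_ne_zero _ Fintype.card_ne_zero)
  have hmon : (∏ j ∈ range w.natDegree, (X - C (θ ^ (Fintype.card k ^ j)))).Monic :=
    monic_prod_of_monic _ _ fun j _ => monic_X_sub_C _
  have hdeg : (∏ j ∈ range w.natDegree, (X - C (θ ^ (Fintype.card k ^ j)))).natDegree = w.natDegree := by
    rw [natDegree_prod_of_monic _ _ fun j _ => monic_X_sub_C _]
    simp only [natDegree_X_sub_C, sum_const, card_range, smul_eq_mul, mul_one]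
  exact eq_of_monic_of_dvd_of_natDegree_le hmon (hw.map _) hdvd (by
    rw [hdeg, natDegree_map])

end finite

section build

variable {k κ E : Type*} [Field k] [Fintype k] [Field κ] [Fintype κ] [Algebra k κ]
  [Field E] [Algebra (RatFunc k) E]
  (θ : κ) (w : k[X]) (hw : w.Monic)
  (hsurj : Function.Surjective (aeval θ : k[X] → κ)) (hwdvd : ∀ a : k[X], w ∣ a ↔ aeval θ a = 0)
  (io : κ →+* E) (hio : ∀ c : k, io (algebraMap k κ c) = al k E (C c))
  (lam : E) (hlam : lam ≠ 0) (htor : cAct k w lam = 0)
  (rep : κ → k[X]) (hrep : ∀ a, aeval θ (rep a) = a)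

include hio in
lemma compat_eval (a : k[X]) : (a.map (algebraMap k κ)).eval₂ io (al k E X) = al k E a := by
  rw [eval₂_map]
  have : eval₂RingHom (io.comp (algebraMap k κ)) (al k E X) = al k E := by
    ext c
    · simp [hio]
    · simp
  rw [← this]; simp

include hio in
lemma transc (f : κ[X]) (hf : f.eval₂ io (al k E X) = 0) : f = 0 := by
  by_contra hne
  let _ : Algebra κ E := io.toAlgebra
  let _ : Algebra k E := ((al k E).comp C).toAlgebra
  have : IsScalarTower k κ E := IsScalarTower.of_algebraMap_eq fun c => (hio c).symm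
  have h1 : IsAlgebraic κ (al k E X) := ⟨f, hne, hf⟩
  have : Algebra.IsAlgebraic k κ := Algebra.IsAlgebraic.of_finite k κ
  have h2 : IsAlgebraic k (al k E X) := IsAlgebraic.restrictScalars k h1
  obtain ⟨g, hg, hg2⟩ := h2
  have h3 : (aeval (al k E X)) g = al k E g := by
    rw [aeval_def]
    have : eval₂RingHom (algebraMap k E) (al k E X) = al k E := by
      ext c
      · simp; rfl
      · simp
    rw [← this]; simp
  rw [h3, ← map_zero (al k E)] at hg2
  exact hg (al_inj k hg2)

include htor hwdvd in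
lemma tors_eq {f g : k[X]} (h : aeval θ f = aeval θ g) : cAct k f lam = cAct k g lam := by
  have h1 : w ∣ f - g := by rw [hwdvd, map_sub, h, sub_self]
  obtain ⟨c, hc⟩ := h1
  have h2 : f = g + c * w := by rw [mul_comm, ← hc]; ring
  rw [h2, cAct_add, cAct_mul, htor, cAct_zero', add_zero]

include htor hwdvd hlam hsurj in
lemma tors_ne {f : k[X]} (h : aeval θ f ≠ 0) : cAct k f lam ≠ 0 := by
  obtain ⟨u, hu⟩ := hsurj (aeval θ f)⁻¹
  intro h0
  have h1 : aeval θ (u * f) = aeval θ (1 : k[X]) := by
    rw [map_mul, hu, inv_mul_cancel₀ h, map_one]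
  have h2 := tors_eq θ w hwdvd lam htor h1
  rw [cAct_mul, h0, cAct_zero', cAct_one] at h2
  exact hlam h2.symm

/-- the torsion points as a function on the residue field -/
noncomputable def LL (a : κ) : E := cAct k (rep a) lam

include htor hwdvd hrep in
lemma LL_aeval (f : k[X]) : LL lam rep (aeval θ f) = cAct k f lam :=
  tors_eq θ w hwdvd lam htor (hrep _)

include htor hwdvd hlam hsurj hrep in
lemma LL_ne {a : κ} (h : a ≠ 0) : LL lam rep a ≠ 0 :=
  tors_ne θ w hsurj hwdvd lam hlam htor (by rw [hrep]; exact h)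

include htor hwdvd hrep in
lemma LL_theta (a : κ) : LL lam rep (θ * a) = al k E X * LL lam rep a + LL lam rep a ^ Fintype.card k := by
  have h1 : θ * a = aeval θ (X * rep a) := by rw [map_mul, aeval_X, hrep]
  rw [h1, LL_aeval θ w hwdvd lam htor rep hrep, cAct_mul, cAct_X, cT, ← al_X]
  rfl

include hw hwdvd in
lemma natDegree_pos : 1 ≤ w.natDegree := by
  by_contra h
  have h1 : w = 1 := hw.natDegree_eq_zero.1 (by omega)
  have h2 := (hwdvd w).1 dvd_rfl
  rw [h1, map_one] at h2
  exact one_ne_zero h2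

include hw hsurj hwdvd in
lemma x_inj : Function.Injective (fun j : Fin w.natDegree => io θ ^ (Fintype.card k ^ (j : ℕ))) := by
  obtain ⟨p, hp⟩ := CharP.exists k
  have hp1 := CharP.char_is_prime k p
  have : Fact p.Prime := ⟨hp1⟩
  have : CharP κ p := charP_of_injective_ringHom (algebraMap k κ).injective p
  obtain ⟨⟨m, hm⟩, _, h2⟩ := FiniteField.card k p
  have hcard : Fintype.card k = p ^ m := h2
  have hinj := Datum.th_inj (k := k) (κ := κ) (p := p) (r := m) (d := w.natDegree) (th := θ) hcard
    (fun j h1 h2 => th_ne θ w hw hsurj hwdvd j h1 h2)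
  intro i j h
  beta_reduce at h
  rw [← map_pow, ← map_pow] at h
  exact Fin.ext (hinj i i.2 j j.2 (io.injective h))

include hw hsurj hwdvd in
lemma uniq_coord (y : ℕ → E)
    (hy : ∀ a : κ, ∑ j ∈ range w.natDegree, io a ^ (Fintype.card k ^ j) * y j = 0) :
    ∀ j < w.natDegree, y j = 0 := by
  have h := Matrix.eq_zero_of_forall_pow_sum_mul_pow_eq_zero
    (f := fun j : Fin w.natDegree => io θ ^ (Fintype.card k ^ (j : ℕ)))
    (v := fun j : Fin w.natDegree => y j) (x_inj θ w hw hsurj hwdvd io) (fun i => by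
      have h1 := hy (θ ^ (i : ℕ))
      rw [← Fin.sum_univ_eq_sum_range (fun j => io (θ ^ (i : ℕ)) ^ (Fintype.card k ^ j) * y j)] at h1
      rw [← h1]
      refine sum_congr rfl fun j _ => ?_
      rw [map_pow, ← pow_mul, ← pow_mul, mul_comm (i : ℕ)]
      ring)
  intro j hj
  exact congrFun h ⟨j, hj⟩

include hw hsurj hwdvd hio htor hrep in
lemma exists_coord : ∃ v : ℕ → E, ∀ a : κ, LL lam rep a =
    ∑ j ∈ range w.natDegree, io a ^ (Fintype.card k ^ j) * v j := by
  set d := w.natDegree with hd
  set x : Fin d → E := fun j => io θ ^ (Fintype.card k ^ (j : ℕ)) with hx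
  have hxinj : Function.Injective x := x_inj θ w hw hsurj hwdvd io
  have hdet : IsUnit (Matrix.vandermonde x).det :=
    (Matrix.det_vandermonde_ne_zero_iff.2 hxinj).isUnit
  set b : Fin d → E := fun i => LL lam rep (θ ^ (i : ℕ)) with hb
  set v : Fin d → E := Matrix.vecMul b (Matrix.vandermonde x)⁻¹ with hv
  have hvb : ∀ i : Fin d, ∑ j, v j * x j ^ (i : ℕ) = b i := by
    intro i
    have h1 : Matrix.vecMul v (Matrix.vandermonde x) = b := by
      rw [hv, Matrix.vecMul_vecMul, Matrix.nonsing_inv_mul _ hdet, Matrix.vecMul_one]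
    rw [← h1]
    rfl
  refine ⟨fun j => if h : j < d then v ⟨j, h⟩ else 0, fun a => ?_⟩
  obtain ⟨f, rfl⟩ := hsurj a
  set f' := f %ₘ w with hf'
  have hff : aeval θ f = aeval θ f' := by
    rw [← sub_eq_zero, ← map_sub, ← hwdvd]
    refine ⟨f /ₘ w, ?_⟩
    rw [hf', modByMonic_eq_sub_mul_div f w]; ring
  have hdpos : 1 ≤ d := natDegree_pos θ w hw hwdvd
  have hdeg : f'.natDegree < d := natDegree_modByMonic_lt f hw (by
    intro h; rw [h] at hd; simp at hd; omega)
  have hf2 : f' = ∑ i ∈ range d, C (f'.coeff i) * X ^ i := as_sum_range_C_mul_X_pow' f' hdeg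
  have hL : LL lam rep (aeval θ f) = ∑ i : Fin d, al k E (C (f'.coeff i)) * b i := by
    rw [hff, LL_aeval θ w hwdvd lam htor rep hrep]
    conv_lhs => rw [hf2]
    rw [cAct_sum, ← Fin.sum_univ_eq_sum_range (fun i => cAct k (C (f'.coeff i) * X ^ i) lam)]
    refine sum_congr rfl fun i _ => ?_
    rw [cAct_mul, cAct_C, ← al_C, hb]
    beta_reduce
    congr 1
    rw [← LL_aeval θ w hwdvd lam htor rep hrep, map_pow, aeval_X]
  have hA : ∀ j : Fin d, io (aeval θ f) ^ (Fintype.card k ^ (j : ℕ)) =
      ∑ i : Fin d, al k E (C (f'.coeff i)) * x j ^ (i : ℕ) := by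
    intro j
    rw [hff, ← map_pow, aeval_pow_card]
    conv_lhs => rw [hf2]
    rw [map_sum, map_sum, ← Fin.sum_univ_eq_sum_range (fun i => io ((aeval (θ ^ Fintype.card k ^ (j : ℕ)))
      (C (f'.coeff i) * X ^ i)))]
    refine sum_congr rfl fun i _ => ?_
    rw [map_mul, aeval_C, map_mul, hio, map_pow, aeval_X, map_pow, map_pow]
  rw [hL, ← Fin.sum_univ_eq_sum_range (fun j => io (aeval θ f) ^ (Fintype.card k ^ j) *
    (if h : j < d then v ⟨j, h⟩ else 0))]
  have h3 : ∀ j : Fin d, io (aeval θ f) ^ (Fintype.card k ^ (j : ℕ)) *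
      (if h : (j : ℕ) < d then v ⟨j, h⟩ else 0) = ∑ i : Fin d, al k E (C (f'.coeff i)) * (v j * x j ^ (i : ℕ)) := by
    intro j
    rw [hA, dif_pos j.2, sum_mul]
    refine sum_congr rfl fun i _ => ?_
    ring
  rw [sum_congr rfl fun j _ => h3 j, sum_comm]
  refine sum_congr rfl fun i _ => ?_
  rw [← mul_sum, hvb]

include hw hsurj hwdvd hio hlam htor hrep in
theorem exists_datum : ∃ M : Datum (Fintype.card k) w.natDegree (al k E X) θ (LL (k := k) lam rep),
    M.Compat (k := k) ∧ M.io = io := by
  obtain ⟨v, hv⟩ := exists_coord θ w hw hsurj hwdvd io hio lam htor rep hrep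
  obtain ⟨p, hp⟩ := CharP.exists k
  have hp1 := CharP.char_is_prime k p
  have : Fact p.Prime := ⟨hp1⟩
  have : CharP κ p := charP_of_injective_ringHom (algebraMap k κ).injective p
  have : CharP E p := charP_of_injective_ringHom
    (f := (algebraMap (RatFunc k) E).comp RatFunc.C) (RingHom.injective _) p
  obtain ⟨⟨m, hm⟩, _, h2⟩ := FiniteField.card k p
  have hq : Fintype.card k = p ^ m := h2
  have hq2 : 2 ≤ Fintype.card k := Fintype.one_lt_card
  have hcard := card_kap θ w hw hsurj hwdvd
  have hdpos : 1 ≤ w.natDegree := natDegree_pos θ w hw hwdvd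
  set d := w.natDegree with hd
  set g : ℕ → E := fun j => v (j % d) with hg
  have hgper : ∀ j, g (j + d) = g j := by
    intro j; simp only [hg, Nat.add_mod_right]
  have hLg : ∀ a : κ, LL lam rep a = ∑ j ∈ range d, io a ^ (Fintype.card k ^ j) * g j := by
    intro a
    rw [hv a]
    refine sum_congr rfl fun j hj => ?_
    simp only [hg]
    rw [Nat.mod_eq_of_lt (mem_range.1 hj)]
  have hfull : ∀ a : κ, a ^ (Fintype.card k ^ d) = a := fun a => by
    rw [← hcard]; exact FiniteField.pow_card a
  have hrec0 : ∀ j < d, (io θ ^ (Fintype.card k ^ j) - al k E X) * g j = g (j + (d - 1)) ^ Fintype.card k := by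
    have h := uniq_coord θ w hw hsurj hwdvd io
      (fun j => (io θ ^ (Fintype.card k ^ j) - al k E X) * g j - g (j + (d - 1)) ^ Fintype.card k) (by
        intro a
        have h1 := LL_theta θ w hwdvd lam htor rep hrep a
        rw [hLg, hLg] at h1
        have h3 : (∑ j ∈ range d, io a ^ (Fintype.card k ^ j) * g j) ^ Fintype.card k =
            ∑ j ∈ range d, io a ^ (Fintype.card k ^ j) * g (j + (d - 1)) ^ Fintype.card k := by
          rw [hq, sum_pow_char_pow, ← hq]
          have h4 := sum_shift hdpos (fun j => io a ^ (Fintype.card k ^ j) * g (j + (d - 1)) ^ Fintype.card k) (by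
            rw [← map_pow, hfull, pow_zero, pow_one, zero_add, add_comm, hgper])
          rw [← h4]
          refine sum_congr rfl fun j _ => ?_
          have h5 : j + 1 + (d - 1) = j + d := by omega
          rw [h5, hgper, mul_pow, ← pow_mul, ← pow_succ]
        rw [h3] at h1
        simp_rw [mul_sub, sum_sub_distrib]
        rw [← sub_eq_zero.2 h1]
        rw [mul_sum, ← sub_sub]
        congr 1
        rw [← sum_sub_distrib]
        refine sum_congr rfl fun j _ => ?_
        rw [map_mul, mul_pow]; ring)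
    intro j hj
    exact sub_eq_zero.1 (h j hj)
  have hrec : ∀ j, (io θ ^ (Fintype.card k ^ (j + 1)) - al k E X) * g (j + 1) = g j ^ Fintype.card k := by
    intro j
    have h1 := hrec0 ((j + 1) % d) (Nat.mod_lt _ (by omega))
    have h3 : g ((j + 1) % d) = g (j + 1) := by simp only [hg, Nat.mod_mod]
    have h4 : g ((j + 1) % d + (d - 1)) = g j := by
      simp only [hg]
      congr 1
      rw [Nat.add_mod, Nat.mod_mod, ← Nat.add_mod]
      have : j + 1 + (d - 1) = j + d := by omega
      rw [this, Nat.add_mod_right]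
    have h5 : ∀ n, θ ^ (Fintype.card k ^ (n % d)) = θ ^ (Fintype.card k ^ n) := by
      intro n
      conv_rhs => rw [← Nat.mod_add_div n d, pow_add, pow_mul]
      generalize θ ^ Fintype.card k ^ (n % d) = z
      generalize n / d = t
      induction t with
      | zero => simp
      | succ t ih => rw [mul_add, mul_one, pow_add, pow_mul, ← ih, hfull]
    rw [h3, h4, ← map_pow, h5, map_pow] at h1
    exact h1
  have hg0 : g 0 ≠ 0 := by
    have hex : ∃ j < d, g j ≠ 0 := by
      by_contra hcon
      push Not at hcon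
      have h1 := LL_ne θ w hsurj hwdvd lam hlam htor rep hrep (a := 1) one_ne_zero
      rw [hLg] at h1
      exact h1 (sum_eq_zero fun j hj => by rw [hcon j (mem_range.1 hj), mul_zero])
    obtain ⟨j0, hj0, hne⟩ := hex
    have hup : ∀ n, g (j0 + n) ≠ 0 := by
      intro n
      induction n with
      | zero => exact hne
      | succ n ih =>
        intro h
        have h1 := hrec (j0 + n)
        rw [add_assoc, h, mul_zero] at h1
        exact ih (pow_eq_zero_iff (by omega) |>.1 h1.symm)
    have := hup (d - j0)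
    have h3 : j0 + (d - j0) = 0 + d := by omega
    rwa [h3, hgper] at this
  exact ⟨⟨io, g, fun f hf => transc io hio f hf, hLg, hrec, hgper, hg0⟩,
    fun a => compat_eval io hio a, rfl⟩

include hwdvd htor hrep in
lemma exists_rel (D : Derivation ℤ E E) (hD : ∀ f : k[X], D (al k E f) = al k E (derivative f)) :
    ∃ (n : ℕ) (c : ℕ → k[X]), ∀ a : κ,
    algebraMap (RatFunc k) E (algebraMap k[X] (RatFunc k) w) * D (LL lam rep a) =
    ∑ i ∈ range n, algebraMap (RatFunc k) E (algebraMap k[X] (RatFunc k) (c i)) *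
      LL lam rep a ^ (Fintype.card k ^ i) := by
  obtain ⟨p, hp⟩ := CharP.exists k
  have hp1 := CharP.char_is_prime k p
  have : Fact p.Prime := ⟨hp1⟩
  have : CharP E p := charP_of_injective_ringHom
    (f := (algebraMap (RatFunc k) E).comp RatFunc.C) (RingHom.injective _) p
  obtain ⟨⟨m, hm⟩, _, h2⟩ := FiniteField.card k p
  have hq : Fintype.card k = p ^ m := h2
  obtain ⟨n, c, hn, hc0, _, hc⟩ := cAct_expand k (F := E) w
  refine ⟨n, fun i => - derivative (c i), fun a => ?_⟩
  have h0 : cAct k w (LL lam rep a) = 0 := by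
    change cAct k w (cAct k (rep a) lam) = 0
    rw [← cAct_mul, mul_comm, cAct_mul, htor, cAct_zero']
  rw [hc] at h0
  have h1 := congrArg D h0
  rw [map_zero, map_sum] at h1
  have h3 : ∀ i ∈ range n, D (al k E (c i) * LL lam rep a ^ (Fintype.card k ^ i)) =
      al k E (derivative (c i)) * LL lam rep a ^ (Fintype.card k ^ i) +
      (if i = 0 then al k E w * D (LL lam rep a) else 0) := by
    intro i _
    rw [Derivation.leibniz, hD, smul_eq_mul, smul_eq_mul]
    rcases i with _ | i
    · rw [pow_zero, pow_one, if_pos rfl, hc0]; ring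
    · rw [if_neg (by omega)]
      have : D (LL lam rep a ^ (Fintype.card k ^ (i + 1))) = 0 := by
        obtain ⟨m', rfl⟩ : ∃ m', m = m' + 1 := ⟨m - 1, by omega⟩
        rw [pow_succ, pow_mul]
        nth_rewrite 2 [hq]
        rw [pow_succ, pow_mul]
        exact D_powp p D _
      rw [this]; ring
  rw [sum_congr rfl h3, sum_add_distrib, sum_ite_eq' (range n) 0, if_pos (mem_range.2 hn)] at h1
  rw [← al_apply]
  have h4 : al k E w * D (LL lam rep a) = - ∑ i ∈ range n, al k E (derivative (c i)) *
      LL lam rep a ^ (Fintype.card k ^ i) := by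
    linear_combination h1
  rw [h4, ← sum_neg_distrib]
  refine sum_congr rfl fun i _ => ?_
  rw [← al_apply, map_neg]; ring

end build

end Pool.Agent.D0H54.Gk
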