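import Mathlib

set_option linter.unusedSectionVars false

namespace Pool.Agent.D0H54.Gk

open Polynomial

variable {E : Type*} [Field E] (p : ℕ) [hp : Fact p.Prime] [CharP E p]

/-- every element is a combination of `T ^ i`, `i < p`, with coefficients `p`-th powers -/
def Dec (T : E) (x : E) : Prop := ∃ y : ℕ → E, x = ∑ i ∈ Finset.range p, T ^ i * y i ^ p

lemma Dec.monom (T w : E) (m : ℕ) : Dec p T (T ^ m * w ^ p) := by
  refine ⟨fun i => if i = m % p then T ^ (m / p) * w else 0, ?_⟩
  rw [Finset.sum_eq_single (m % p)]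
  · simp only [if_true]
    rw [mul_pow, ← pow_mul, ← mul_assoc, ← pow_add, mul_comm (m / p) p, Nat.mod_add_div]
  · intro b _ hb
    simp [hb, hp.out.ne_zero]
  · intro h
    exact absurd (Finset.mem_range.2 (Nat.mod_lt _ hp.out.pos)) h

lemma Dec.zero (T : E) : Dec p T 0 := ⟨fun _ => 0, by simp [hp.out.ne_zero]⟩

lemma Dec.add {T x x' : E} (h : Dec p T x) (h' : Dec p T x') : Dec p T (x + x') := by
  obtain ⟨y, rfl⟩ := h
  obtain ⟨z, rfl⟩ := h'
  refine ⟨fun i => y i + z i, ?_⟩
  rw [← Finset.sum_add_distrib]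
  refine Finset.sum_congr rfl fun i _ => ?_
  rw [add_pow_char, mul_add]

lemma Dec.sum {T : E} {ι : Type*} (s : Finset ι) (f : ι → E) (h : ∀ i ∈ s, Dec p T (f i)) :
    Dec p T (∑ i ∈ s, f i) := by
  classical
  induction s using Finset.induction_on with
  | empty => simpa using Dec.zero p T
  | insert a s ha ih =>
    rw [Finset.sum_insert ha]
    exact Dec.add p (h a (Finset.mem_insert_self _ _))
      (ih fun i hi => h i (Finset.mem_insert_of_mem hi))

lemma Dec.mul {T x x' : E} (h : Dec p T x) (h' : Dec p T x') : Dec p T (x * x') := by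
  obtain ⟨y, rfl⟩ := h
  obtain ⟨z, rfl⟩ := h'
  rw [Finset.sum_mul_sum]
  refine Dec.sum p _ _ fun i _ => Dec.sum p _ _ fun j _ => ?_
  have : T ^ i * y i ^ p * (T ^ j * z j ^ p) = T ^ (i + j) * (y i * z j) ^ p := by
    rw [mul_pow, pow_add]; ring
  rw [this]
  exact Dec.monom p T _ _

lemma Dec.powp (T w : E) : Dec p T (w ^ p) := by simpa using Dec.monom p T w 0

lemma Dec.pow {T x : E} (h : Dec p T x) (n : ℕ) : Dec p T (x ^ n) := by
  induction n with
  | zero => simpa using Dec.powp p T (1 : E)
  | succ n ih => rw [pow_succ]; exact Dec.mul p ih h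

lemma Dec.inv {T x : E} (h : Dec p T x) : Dec p T x⁻¹ := by
  by_cases hx : x = 0
  · rw [hx, inv_zero]; exact Dec.zero p T
  · have : x⁻¹ = x ^ (p - 1) * (x⁻¹) ^ p := by
      have h1 : x ^ p * (x⁻¹) ^ p = 1 := by rw [← mul_pow, mul_inv_cancel₀ hx, one_pow]
      have h2 : x * x ^ (p - 1) = x ^ p := by
        rw [← pow_succ', Nat.sub_add_cancel hp.out.pos]
      have h3 : x * (x ^ (p - 1) * (x⁻¹) ^ p) = 1 := by rw [← mul_assoc, h2, h1]
      exact (eq_inv_of_mul_eq_one_right h3).symm
    rw [this]
    exact Dec.mul p (Dec.pow p h _) (Dec.powp p T _)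

/-- Decomposition holds for all elements of a separable algebraic extension of `k(T)`, `k` perfect. -/
lemma dec_all (k : Type*) [Field k] [CharP k p] [PerfectRing k p] [Algebra (RatFunc k) E]
    [Algebra.IsSeparable (RatFunc k) E] (x : E) :
    Dec p (algebraMap (RatFunc k) E RatFunc.X) x := by
  set T : E := algebraMap (RatFunc k) E RatFunc.X with hT
  have hC : ∀ c : k, Dec p T (algebraMap (RatFunc k) E (RatFunc.C c)) := by
    intro c
    obtain ⟨b, hb⟩ := (PerfectRing.bijective_frobenius (R := k) (p := p)).surjective c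
    change b ^ p = c at hb
    rw [← hb, map_pow, map_pow]
    exact Dec.powp p T _
  have hpoly : ∀ f : k[X], Dec p T (algebraMap (RatFunc k) E (algebraMap k[X] (RatFunc k) f)) := by
    intro f
    induction f using Polynomial.induction_on' with
    | add f g hf hg => rw [map_add, map_add]; exact Dec.add p hf hg
    | monomial n a =>
      rw [← Polynomial.C_mul_X_pow_eq_monomial, map_mul, map_mul, map_pow, map_pow,
        RatFunc.algebraMap_X, ← hT, RatFunc.algebraMap_C]
      refine Dec.mul p (hC a) (Dec.pow p ?_ n)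
      simpa using Dec.monom p T 1 1
  have hK : ∀ r : RatFunc k, Dec p T (algebraMap (RatFunc k) E r) := by
    intro r
    induction r using RatFunc.induction_on with
    | _ f g hg =>
      rw [map_div₀, div_eq_mul_inv]
      exact Dec.mul p (hpoly f) (Dec.inv p (hpoly g))
  let S : IntermediateField (RatFunc k) E :=
    { carrier := {x | Dec p T x}
      mul_mem' := fun h h' => Dec.mul p h h'
      add_mem' := fun h h' => Dec.add p h h'
      algebraMap_mem' := hK
      inv_mem' := fun x h => Dec.inv p h }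
  have : CharP (RatFunc k) p := charP_of_injective_algebraMap (algebraMap k (RatFunc k)).injective p
  have : ExpChar (RatFunc k) p := ExpChar.prime hp.out
  have h1 := IntermediateField.adjoin_simple_eq_adjoin_pow_expChar_pow_of_isSeparable'
    (F := RatFunc k) (E := E) x p 1
  have h2 : IntermediateField.adjoin (RatFunc k) {x ^ p ^ 1} ≤ S := by
    rw [IntermediateField.adjoin_le_iff, Set.singleton_subset_iff, pow_one]
    exact Dec.powp p T x
  rw [← h1] at h2
  exact h2 (IntermediateField.mem_adjoin_simple_self _ x)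

section cart

variable (D : Derivation ℤ E E) {T : E} (hT : D T = 1)

lemma D_powp (x : E) : D (x ^ p) = 0 := by
  rw [Derivation.leibniz_pow]
  simp

lemma D_natCast (n : ℕ) : D (n : E) = 0 := by
  simp

include hT in
lemma D_Tpow (i : ℕ) : D (T ^ i) = (i : E) * T ^ (i - 1) := by
  rw [Derivation.leibniz_pow, hT]
  simp

include hT in
/-- linear independence of the powers of `T` over the constants -/
lemma indep (m : ℕ) (hm : m ≤ p) : ∀ c : ℕ → E, (∀ i, D (c i) = 0) →
    ∑ i ∈ Finset.range m, T ^ i * c i = 0 → ∀ i < m, c i = 0 := by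
  induction m with
  | zero => intro c _ _ i hi; omega
  | succ m ih =>
    intro c hc hsum
    have h1 : ∑ i ∈ Finset.range m, T ^ i * (((i + 1 : ℕ) : E) * c (i + 1)) = 0 := by
      have h2 : D (∑ i ∈ Finset.range (m + 1), T ^ i * c i) = 0 := by rw [hsum, map_zero]
      rw [map_sum, Finset.sum_range_succ'] at h2
      simp only [Derivation.leibniz, hc, D_Tpow D hT, smul_eq_mul, mul_zero, zero_add,
        pow_zero, Derivation.map_one_eq_zero, add_zero, Nat.add_sub_cancel] at h2
      rw [← h2]
      refine Finset.sum_congr rfl fun i _ => ?_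
      push_cast
      ring
    have h2 := ih (by omega) (fun i => ((i + 1 : ℕ) : E) * c (i + 1)) (fun i => by
      rw [Derivation.leibniz, hc]; simp) h1
    have h3 : ∀ i < m, c (i + 1) = 0 := by
      intro i hi
      have := h2 i hi
      rcases mul_eq_zero.1 this with h | h
      · rw [CharP.cast_eq_zero_iff E p] at h
        exact absurd (Nat.le_of_dvd (by omega) h) (by omega)
      · exact h
    intro i hi
    rcases i with _ | i
    · rw [Finset.sum_range_succ', Finset.sum_eq_zero] at hsum
      · simpa using hsum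
      · intro j hj
        rw [h3 j (Finset.mem_range.1 hj), mul_zero]
    · exact h3 i (by omega)

include hT in
lemma uniq {y z : ℕ → E}
    (h : ∑ i ∈ Finset.range p, T ^ i * y i ^ p = ∑ i ∈ Finset.range p, T ^ i * z i ^ p) :
    ∀ i < p, y i = z i := by
  intro i hi
  have h1 := indep p D hT p le_rfl (fun i => (y i - z i) ^ p) (fun i => D_powp p D _) (by
    rw [← sub_eq_zero, ← Finset.sum_sub_distrib] at h
    rw [← h]
    refine Finset.sum_congr rfl fun i _ => ?_
    rw [sub_pow_char, mul_sub]) i hi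
  exact sub_eq_zero.1 (pow_eq_zero_iff hp.out.ne_zero |>.1 h1)

include hT in
lemma ker_D (hdec : ∀ x : E, Dec p T x) {x : E} (hx : D x = 0) : ∃ y, x = y ^ p := by
  obtain ⟨y, hy⟩ := hdec x
  have hp1 := hp.out.one_lt
  obtain ⟨m, hm⟩ : ∃ m, p = m + 1 := ⟨p - 1, by omega⟩
  have h1 : ∑ i ∈ Finset.range m, T ^ i * (((i + 1 : ℕ) : E) * y (i + 1) ^ p) = 0 := by
    have h2 := hx
    rw [hy, map_sum] at h2
    rw [← h2, hm, Finset.sum_range_succ', ← hm]
    simp only [Derivation.leibniz, D_powp, D_Tpow D hT, smul_eq_mul, mul_zero, zero_add,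
        pow_zero, Derivation.map_one_eq_zero, add_zero, Nat.add_sub_cancel]
    refine Finset.sum_congr rfl fun i _ => ?_
    ring
  have h2 := indep p D hT m (by omega) (fun i => ((i + 1 : ℕ) : E) * y (i + 1) ^ p) (fun i => by
      rw [Derivation.leibniz, D_powp]; simp) h1
  refine ⟨y 0, ?_⟩
  have h3 : ∀ i < m, y (i + 1) ^ p = 0 := by
    intro i hi
    rcases mul_eq_zero.1 (h2 i hi) with h | h
    · rw [CharP.cast_eq_zero_iff E p] at h
      exact absurd (Nat.le_of_dvd (by omega) h) (by omega)
    · exact h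
  conv_lhs => rw [hy, hm, Finset.sum_range_succ', ← hm]
  rw [Finset.sum_eq_zero]
  · simp
  · intro j hj
    rw [h3 j (Finset.mem_range.1 hj), mul_zero]

/-- the Cartier operator as a function -/
noncomputable def cart (hdec : ∀ x : E, Dec p T x) (x : E) : E := (hdec x).choose (p - 1)

include hT in
lemma cart_eq (hdec : ∀ x : E, Dec p T x) (y : ℕ → E) :
    cart p hdec (∑ i ∈ Finset.range p, T ^ i * y i ^ p) = y (p - 1) := by
  have h := (hdec (∑ i ∈ Finset.range p, T ^ i * y i ^ p)).choose_spec
  exact (uniq p D hT h (p - 1) (Nat.sub_lt hp.out.pos one_pos)).symm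

include hT in
lemma cart_add (hdec : ∀ x : E, Dec p T x) (x x' : E) :
    cart p hdec (x + x') = cart p hdec x + cart p hdec x' := by
  obtain ⟨y, rfl⟩ := hdec x
  obtain ⟨z, rfl⟩ := hdec x'
  rw [cart_eq p D hT, cart_eq p D hT, ← Finset.sum_add_distrib]
  rw [← cart_eq p D hT hdec (fun i => y i + z i)]
  congr 1
  refine Finset.sum_congr rfl fun i _ => ?_
  rw [add_pow_char, mul_add]

include hT in
lemma cart_mulp (hdec : ∀ x : E, Dec p T x) (w x : E) :
    cart p hdec (w ^ p * x) = w * cart p hdec x := by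
  obtain ⟨y, rfl⟩ := hdec x
  rw [cart_eq p D hT]
  rw [← cart_eq p D hT hdec (fun i => w * y i), Finset.mul_sum]
  congr 1
  refine Finset.sum_congr rfl fun i _ => ?_
  rw [mul_pow]; ring

include hT in
lemma cart_monom (hdec : ∀ x : E, Dec p T x) (w : E) (m : ℕ) :
    cart p hdec (w ^ p * T ^ m) = if m % p = p - 1 then w * T ^ (m / p) else 0 := by
  have h1 : w ^ p * T ^ m = ∑ i ∈ Finset.range p, T ^ i *
      ((fun i => if i = m % p then w * T ^ (m / p) else 0) i) ^ p := by
    rw [Finset.sum_eq_single (m % p)]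
    · simp only [if_true]
      rw [mul_pow, ← pow_mul, mul_comm (T ^ (m % p)), mul_assoc, ← pow_add, mul_comm (m / p) p,
        Nat.div_add_mod]
    · intro b _ hb
      simp [hb, hp.out.ne_zero]
    · intro h
      exact absurd (Finset.mem_range.2 (Nat.mod_lt _ hp.out.pos)) h
  rw [h1, cart_eq p D hT]
  simp only [eq_comm]

include hT in
lemma cart_D (hdec : ∀ x : E, Dec p T x) (x : E) : cart p hdec (D x) = 0 := by
  obtain ⟨y, rfl⟩ := hdec x
  have hp1 := hp.out.one_lt
  obtain ⟨m, hm⟩ : ∃ m, p = m + 1 := ⟨p - 1, by omega⟩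
  have key : ∀ i, ∃ z : E, ((i : ℕ) : E) = z ^ p := fun i => ⟨i, by
    have := map_natCast (frobenius E p) i
    rw [frobenius_def] at this
    exact this.symm⟩
  choose z hz using key
  have h1 : D (∑ i ∈ Finset.range p, T ^ i * y i ^ p) =
      ∑ i ∈ Finset.range p, T ^ i * ((fun i => if i < m then z (i + 1) * y (i + 1) else 0) i) ^ p := by
    rw [map_sum, hm, Finset.sum_range_succ', Finset.sum_range_succ, ← hm]
    simp only [Derivation.leibniz, D_powp, D_Tpow D hT, smul_eq_mul, mul_zero, zero_add,
        pow_zero, Derivation.map_one_eq_zero, add_zero, Nat.add_sub_cancel, lt_irrefl, if_false,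
        zero_pow hp.out.ne_zero]
    refine Finset.sum_congr rfl fun i hi => ?_
    rw [if_pos (Finset.mem_range.1 hi), mul_pow, ← hz]
    ring
  rw [h1, cart_eq p D hT]
  rw [if_neg (by omega)]

include hT in
/-- `C (x ^ (p-1) dx) = dx` -/
lemma cart_pow_pred (hdec : ∀ x : E, Dec p T x) (x : E) :
    cart p hdec (x ^ (p - 1) * D x) = D x := by
  have hp1 := hp.out.one_lt
  have hadd := cart_add p D hT hdec
  -- additivity
  have hW : ∀ x y : E, cart p hdec (x ^ (p - 1) * D x) = D x → cart p hdec (y ^ (p - 1) * D y) = D y →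
      cart p hdec ((x + y) ^ (p - 1) * D (x + y)) = D (x + y) := by
    intro x y hx hy
    obtain ⟨m, hm⟩ : ∃ m, p = m + 1 := ⟨p - 1, by omega⟩
    set W : E := ∑ i ∈ Finset.range m, ((p.choose (i + 1) / p : ℕ) : E) * (x ^ (i + 1) * y ^ (m - i))
      with hWdef
    have hdvd : ∀ i < m, p * (p.choose (i + 1) / p) = p.choose (i + 1) := by
      intro i hi
      exact Nat.mul_div_cancel' (hp.out.dvd_choose_self (by omega) (by omega))
    have hc1 : ∀ i < m, (i + 1) * (p.choose (i + 1) / p) = m.choose i := by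
      intro i hi
      have h1 := Nat.add_one_mul_choose_eq m i
      have h2 := hdvd i hi
      have : p * ((i + 1) * (p.choose (i + 1) / p)) = p * m.choose i := by
        calc p * ((i + 1) * (p.choose (i + 1) / p)) = (i + 1) * (p * (p.choose (i + 1) / p)) := by ring
          _ = (m + 1).choose (i + 1) * (i + 1) := by rw [h2, hm]; ring
          _ = p * m.choose i := by rw [← h1, hm]
      exact Nat.eq_of_mul_eq_mul_left hp.out.pos this
    have hc2 : ∀ i < m, (m - i) * (p.choose (i + 1) / p) = m.choose (i + 1) := by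
      intro i hi
      have h2 := hdvd i hi
      have h3 : (m + 1).choose (i + 1) * (m + 1 - (i + 1)) = (m + 1) * m.choose (i + 1) := by
        have := Nat.choose_mul_succ_eq m (i + 1)
        rw [← this]; ring
      have : p * ((m - i) * (p.choose (i + 1) / p)) = p * m.choose (i + 1) := by
        calc p * ((m - i) * (p.choose (i + 1) / p)) = (m - i) * (p * (p.choose (i + 1) / p)) := by ring
          _ = (m + 1).choose (i + 1) * (m + 1 - (i + 1)) := by
            rw [h2, hm, mul_comm]; congr 1; omega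
          _ = p * m.choose (i + 1) := by rw [h3, hm]
      exact Nat.eq_of_mul_eq_mul_left hp.out.pos this
    have hDW : D W = (x + y) ^ (p - 1) * D (x + y) - x ^ (p - 1) * D x - y ^ (p - 1) * D y := by
      have e1 : (x + y) ^ m = ∑ i ∈ Finset.range m, ((m.choose i : ℕ) : E) * (x ^ i * y ^ (m - i)) + x ^ m := by
        rw [add_pow, Finset.sum_range_succ]
        simp only [Nat.sub_self, pow_zero, mul_one, Nat.choose_self, Nat.cast_one]
        congr 1
        refine Finset.sum_congr rfl fun i _ => ?_
        ring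
      have e2 : (x + y) ^ m = ∑ i ∈ Finset.range m, ((m.choose (i + 1) : ℕ) : E) *
          (x ^ (i + 1) * y ^ (m - (i + 1))) + y ^ m := by
        rw [add_pow, Finset.sum_range_succ']
        simp only [Nat.sub_zero, pow_zero, mul_one, Nat.choose_zero_right, Nat.cast_one, one_mul]
        congr 1
        refine Finset.sum_congr rfl fun i _ => ?_
        ring
      have e3 : D W = (∑ i ∈ Finset.range m, ((m.choose i : ℕ) : E) * (x ^ i * y ^ (m - i))) * D x +
          (∑ i ∈ Finset.range m, ((m.choose (i + 1) : ℕ) : E) *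
          (x ^ (i + 1) * y ^ (m - (i + 1)))) * D y := by
        rw [hWdef, map_sum, Finset.sum_mul, Finset.sum_mul, ← Finset.sum_add_distrib]
        refine Finset.sum_congr rfl fun i hi => ?_
        have hi' := Finset.mem_range.1 hi
        rw [← hc1 i hi', ← hc2 i hi']
        simp only [Derivation.leibniz, Derivation.leibniz_pow, smul_eq_mul, D_natCast, mul_zero,
          add_zero, nsmul_eq_mul, Nat.cast_mul, Nat.add_sub_cancel]
        have h4 : m - i - 1 = m - (i + 1) := by omega
        rw [h4]
        ring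
      have hm' : p - 1 = m := by omega
      rw [e3, hm', map_add, mul_add]
      nth_rewrite 1 [e1]
      rw [e2]
      ring
    have h5 : (x + y) ^ (p - 1) * D (x + y) = D W + (x ^ (p - 1) * D x + y ^ (p - 1) * D y) := by
      rw [hDW]; ring
    rw [h5, hadd, hadd, cart_D p D hT, hx, hy, zero_add, map_add]
  obtain ⟨y, rfl⟩ := hdec x
  have hterm : ∀ i, cart p hdec ((T ^ i * y i ^ p) ^ (p - 1) * D (T ^ i * y i ^ p)) =
      D (T ^ i * y i ^ p) := by
    intro i
    rcases i with _ | i
    · simp only [pow_zero, one_mul, D_powp, mul_zero]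
      have := hadd 0 0
      simpa using this
    · obtain ⟨z, hz⟩ : ∃ z : E, ((i + 1 : ℕ) : E) = z ^ p := ⟨((i + 1 : ℕ) : E), by
        have := map_natCast (frobenius E p) (i + 1)
        rw [frobenius_def] at this
        exact this.symm⟩
      have hzz : z = ((i + 1 : ℕ) : E) := by
        have := map_natCast (frobenius E p) (i + 1)
        rw [frobenius_def, hz] at this
        have h2 : (z ^ p) ^ p = z ^ p := this
        have := frobenius_inj E p (a₁ := z ^ p) (a₂ := z) (by simpa [frobenius_def] using h2)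
        rw [hz, this]
      have e1 : (T ^ (i + 1) * y (i + 1) ^ p) ^ (p - 1) * D (T ^ (i + 1) * y (i + 1) ^ p) =
          (z * T ^ i * y (i + 1) ^ p) ^ p * T ^ (p - 1) := by
        rw [Derivation.leibniz, D_powp, D_Tpow D hT, smul_zero, zero_add, smul_eq_mul,
          Nat.add_sub_cancel, hz]
        have : y (i + 1) ^ p * (z ^ p * T ^ i) * (T ^ (i + 1) * y (i + 1) ^ p) ^ (p - 1) =
          z ^ p * (T ^ i * (T ^ (i + 1)) ^ (p - 1)) * (y (i + 1) ^ p * (y (i + 1) ^ p) ^ (p - 1)) := by
          rw [mul_pow]; ring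
        rw [mul_comm, this, ← pow_succ' (y (i + 1) ^ p), Nat.sub_add_cancel hp.out.pos, mul_pow,
          mul_pow]
        have e2 : T ^ i * (T ^ (i + 1)) ^ (p - 1) = (T ^ i) ^ p * T ^ (p - 1) := by
          rw [← pow_mul, ← pow_mul, ← pow_add, ← pow_add]
          congr 1
          obtain ⟨m, hm⟩ : ∃ m, p = m + 1 := ⟨p - 1, by omega⟩
          rw [hm]; simp; ring
        rw [e2]; ring
      rw [e1, cart_monom p D hT hdec]
      have hlt : p - 1 < p := by omega
      rw [Nat.mod_eq_of_lt hlt, if_pos rfl, Nat.div_eq_of_lt hlt, pow_zero, mul_one,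
        Derivation.leibniz, D_powp, D_Tpow D hT, smul_zero, zero_add, smul_eq_mul,
        Nat.add_sub_cancel, hzz]
      ring
  have hsum : ∀ s : Finset ℕ, cart p hdec ((∑ i ∈ s, T ^ i * y i ^ p) ^ (p - 1) *
      D (∑ i ∈ s, T ^ i * y i ^ p)) = D (∑ i ∈ s, T ^ i * y i ^ p) := by
    intro s
    induction s using Finset.induction_on with
    | empty =>
      simp only [Finset.sum_empty, map_zero, mul_zero]
      have := hadd 0 0
      simpa using this
    | insert a s ha ih =>
      rw [Finset.sum_insert ha]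
      exact hW _ _ (hterm a) ih
  exact hsum _

include hT in
lemma cart_dlog (hdec : ∀ x : E, Dec p T x) {x : E} (hx : x ≠ 0) :
    cart p hdec (D x / x) = D x / x := by
  have h1 : D x / x = (x⁻¹) ^ p * (x ^ (p - 1) * D x) := by
    have h2 : x * x ^ (p - 1) = x ^ p := by
      rw [← pow_succ', Nat.sub_add_cancel hp.out.pos]
    have h3 : (x⁻¹) ^ p * x ^ p = 1 := by rw [← mul_pow, inv_mul_cancel₀ hx, one_pow]
    calc D x / x = ((x⁻¹) ^ p * x ^ p) * (D x / x) := by rw [h3, one_mul]
      _ = (x⁻¹) ^ p * (x ^ (p - 1) * D x) := by rw [← h2]; field_simp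
  conv_lhs => rw [h1]
  rw [cart_mulp p D hT, cart_pow_pred p D hT hdec]
  field_simp

end cart

end Pool.Agent.D0H54.Gk
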