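import Pool.Agent.D0H54.Gk.Cart

set_option linter.unusedSectionVars false

namespace Pool.Agent.D0H54.Gk

open Polynomial

variable {E : Type*} [Field E] (p : ℕ) [hp : Fact p.Prime] [CharP E p]
  (D : Derivation ℤ E E) {T : E} (hT : D T = 1) (hdec : ∀ x : E, Dec p T x)

/-- the Cartier operator as an additive map -/
noncomputable def cartHom : E →+ E where
  toFun := cart p hdec
  map_zero' := by
    have := cart_add p D hT hdec 0 0
    simpa using this
  map_add' := cart_add p D hT hdec

lemma cartHom_apply (x : E) : cartHom p D hT hdec x = cart p hdec x := rfl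

/-- iterated Cartier operator -/
noncomputable def cartN (r : ℕ) : E →+ E :=
  Nat.rec (AddMonoidHom.id E) (fun _ f => (cartHom p D hT hdec).comp f) r

lemma cartN_zero (x : E) : cartN p D hT hdec 0 x = x := rfl

lemma cartN_succ (r : ℕ) (x : E) : cartN p D hT hdec (r + 1) x =
    cart p hdec (cartN p D hT hdec r x) := rfl

lemma cartN_mul (r : ℕ) (y x : E) : cartN p D hT hdec r (y ^ (p ^ r) * x) =
    y * cartN p D hT hdec r x := by
  induction r generalizing y with
  | zero => simp [cartN_zero]
  | succ r ih =>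
    rw [cartN_succ, cartN_succ]
    have : y ^ p ^ (r + 1) = (y ^ p) ^ p ^ r := by rw [← pow_mul, pow_succ']
    rw [this, ih, cart_mulp p D hT]

lemma cartN_dlog (r : ℕ) {x : E} (hx : x ≠ 0) : cartN p D hT hdec r (D x / x) = D x / x := by
  induction r with
  | zero => rfl
  | succ r ih => rw [cartN_succ, ih, cart_dlog p D hT hdec hx]

variable {κ : Type*} [Field κ] [Finite κ] [CharP κ p] (io : κ →+* E)

include D hT in
lemma cart_poly (f : κ[X]) (m : ℕ) (hf : f ∈ degreeLT κ m) :
    ∃ g ∈ degreeLT κ (m / p), cart p hdec (f.eval₂ io T) = g.eval₂ io T := by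
  have hsurj : ∀ c : κ, ∃ b : κ, b ^ p = c := by
    intro c
    exact (Finite.injective_iff_surjective.1 (frobenius_inj κ p)) c
  have hpp := hp.out.one_lt
  have hmon : ∀ (c : κ) (i : ℕ), i < m → ∃ g ∈ degreeLT κ (m / p),
      cart p hdec (io c * T ^ i) = g.eval₂ io T := by
    intro c i hi
    obtain ⟨b, hb⟩ := hsurj c
    rw [← hb, map_pow, cart_monom p D hT hdec]
    split_ifs with h
    · refine ⟨C b * X ^ (i / p), ?_, by simp⟩
      rw [mem_degreeLT]
      refine lt_of_le_of_lt (degree_C_mul_X_pow_le _ _) ?_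
      rw [Nat.cast_lt]
      have h1 : p * (i / p) + (p - 1) = i := by rw [← h]; exact Nat.div_add_mod i p
      have h2 : i / p + 1 ≤ m / p := by
        rw [Nat.le_div_iff_mul_le hp.out.pos]
        have : (i / p + 1) * p = p * (i / p) + p := by ring
        omega
      omega
    · exact ⟨0, Submodule.zero_mem _, by simp⟩
  choose! g hg1 hg2 using hmon
  refine ⟨∑ i ∈ Finset.range m, g (f.coeff i) i,
    Submodule.sum_mem _ fun i hi => hg1 _ _ (Finset.mem_range.1 hi), ?_⟩
  have hf2 : f = ∑ i ∈ Finset.range m, C (f.coeff i) * X ^ i := by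
    rcases Nat.eq_zero_or_pos m with h | h
    · subst h
      rw [mem_degreeLT] at hf
      have : f = 0 := by
        rw [← degree_eq_bot]
        simpa using hf
      simp [this]
    · rw [mem_degreeLT] at hf
      apply Polynomial.as_sum_range_C_mul_X_pow'
      by_cases hf0 : f = 0
      · rw [hf0]; simpa using h
      · exact (natDegree_lt_iff_degree_lt hf0).2 hf
  conv_lhs => rw [hf2]
  rw [eval₂_finsetSum, ← cartHom_apply p D hT, map_sum, eval₂_finsetSum]
  refine Finset.sum_congr rfl fun i hi => ?_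
  rw [cartHom_apply, ← hg2 _ _ (Finset.mem_range.1 hi)]
  simp

lemma cartN_poly (r : ℕ) (f : κ[X]) (m : ℕ) (hf : f ∈ degreeLT κ m) :
    ∃ g ∈ degreeLT κ (m / p ^ r), cartN p D hT hdec r (f.eval₂ io T) = g.eval₂ io T := by
  induction r with
  | zero => exact ⟨f, by simpa using hf, rfl⟩
  | succ r ih =>
    obtain ⟨g, hg, hge⟩ := ih
    obtain ⟨g2, hg2, hge2⟩ := cart_poly p D hT hdec io g _ hg
    refine ⟨g2, ?_, ?_⟩
    · rw [pow_succ, ← Nat.div_div_eq_div_mul]; exact hg2
    · rw [cartN_succ, hge, hge2]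

end Pool.Agent.D0H54.Gk
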