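import Mathlib

namespace Pool.Agent.D0H54.Gk

lemma dig_of_sum (q : ℕ) (hq : 0 < q) : ∀ (d : ℕ) (e : ℕ → ℕ), (∀ i < d, e i < q) →
    (∑ i ∈ Finset.range d, e i * q ^ i < q ^ d) ∧
    ∀ j < d, (∑ i ∈ Finset.range d, e i * q ^ i) / q ^ j % q = e j := by
  intro d
  induction d with
  | zero => intro e _; simp
  | succ d ih =>
    intro e he
    have hs : ∑ i ∈ Finset.range (d + 1), e i * q ^ i =
        e 0 + q * ∑ i ∈ Finset.range d, e (i + 1) * q ^ i := by
      rw [Finset.sum_range_succ', Finset.mul_sum, add_comm]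
      congr 1
      · simp
      · refine Finset.sum_congr rfl fun i _ => ?_
        rw [pow_succ]; ring
    obtain ⟨h1, h2⟩ := ih (fun i => e (i + 1)) (fun i hi => he (i + 1) (by omega))
    have h0 := he 0 (by omega)
    constructor
    · rw [hs, pow_succ]
      nlinarith
    · intro j hj
      rw [hs]
      rcases j with _ | j
      · rw [pow_zero, Nat.div_one, Nat.add_mul_mod_self_left, Nat.mod_eq_of_lt h0]
      · rw [pow_succ', ← Nat.div_div_eq_div_mul, Nat.add_mul_div_left _ _ hq,
          Nat.div_eq_of_lt h0, zero_add]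
        exact h2 j (by omega)

lemma sum_dig (q : ℕ) (hq : 0 < q) : ∀ (d l : ℕ), l < q ^ d →
    ∑ j ∈ Finset.range d, (l / q ^ j % q) * q ^ j = l := by
  intro d
  induction d with
  | zero => intro l hl; simp at hl ⊢; omega
  | succ d ih =>
    intro l hl
    have h1 := ih (l / q) (by
      rw [Nat.div_lt_iff_lt_mul hq, ← pow_succ]; exact hl)
    rw [Finset.sum_range_succ']
    have h2 : ∑ j ∈ Finset.range d, (l / q ^ (j + 1) % q) * q ^ (j + 1) =
        q * ∑ j ∈ Finset.range d, (l / q / q ^ j % q) * q ^ j := by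
      rw [Finset.mul_sum]
      refine Finset.sum_congr rfl fun j _ => ?_
      rw [Nat.div_div_eq_div_mul, ← pow_succ']
      ring
    rw [h2, h1, pow_zero, Nat.div_one, mul_one, add_comm]
    exact Nat.mod_add_div l q

lemma sum_full (q : ℕ) (hq : 0 < q) (d : ℕ) :
    ∑ j ∈ Finset.range d, (q - 1) * q ^ j = q ^ d - 1 := by
  induction d with
  | zero => simp
  | succ d ih =>
    rw [Finset.sum_range_succ, ih, pow_succ]
    have : 0 < q ^ d := pow_pos hq d
    obtain ⟨r, rfl⟩ : ∃ r, q = r + 1 := ⟨q - 1, by omega⟩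
    generalize (r + 1) ^ d = x at *
    simp only [Nat.add_sub_cancel]
    have : x * (r + 1) = r * x + x := by ring
    omega

end Pool.Agent.D0H54.Gk
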