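import Pool.Agent.D0H54.Gk.Red
import Pool.Agent.D0H54.Gk.Dig

set_option linter.unusedSectionVars false

namespace Pool.Agent.D0H54.Gk

open Polynomial Finset

/-- coordinates of the torsion of the Carlitz module -/
structure Datum {κ E : Type*} [Field κ] [Field E] (q d : ℕ) (T : E) (th : κ) (L : κ → E) where
  io : κ →+* E
  g : ℕ → E
  hT : ∀ f : κ[X], f.eval₂ io T = 0 → f = 0
  hL : ∀ a, L a = ∑ j ∈ range d, io a ^ (q ^ j) * g j
  hrec : ∀ j, (io th ^ (q ^ (j + 1)) - T) * g (j + 1) = g j ^ q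
  hper : ∀ j, g (j + d) = g j
  hne : g 0 ≠ 0

lemma prod_shift {M : Type*} [CommMonoid M] {d : ℕ} (hd : 1 ≤ d) (f : ℕ → M) (h : f d = f 0) :
    ∏ j ∈ range d, f (j + 1) = ∏ j ∈ range d, f j := by
  obtain ⟨m, rfl⟩ : ∃ m, d = m + 1 := ⟨d - 1, by omega⟩
  rw [prod_range_succ, prod_range_succ', h]

lemma sum_shift {M : Type*} [AddCommMonoid M] {d : ℕ} (hd : 1 ≤ d) (f : ℕ → M) (h : f d = f 0) :
    ∑ j ∈ range d, f (j + 1) = ∑ j ∈ range d, f j := by
  obtain ⟨m, rfl⟩ : ∃ m, d = m + 1 := ⟨d - 1, by omega⟩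
  rw [sum_range_succ, sum_range_succ', h]

lemma prod_single_pow {M : Type*} [CommMonoid M] {d : ℕ} (g : ℕ → M) (e : ℕ → ℕ) {j : ℕ}
    (hj : j < d) (m : ℕ) :
    ∏ i ∈ range d, g i ^ (e i + if i = j then m else 0) = (∏ i ∈ range d, g i ^ e i) * g j ^ m := by
  simp_rw [pow_add, prod_mul_distrib]
  congr 1
  rw [prod_eq_single j]
  · simp
  · intro b _ hb; simp [hb]
  · intro h; exact absurd (mem_range.2 hj) h

lemma sum_single_pow {d q : ℕ} (e : ℕ → ℕ) {j : ℕ} (hj : j < d) (m : ℕ) :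
    ∑ i ∈ range d, (e i + if i = j then m else 0) * q ^ i = (∑ i ∈ range d, e i * q ^ i) + m * q ^ j := by
  simp_rw [add_mul, sum_add_distrib]
  congr 1
  rw [sum_eq_single j]
  · simp
  · intro b _ hb; simp [hb]
  · intro h; exact absurd (mem_range.2 hj) h

lemma sum_single_add {d : ℕ} (e : ℕ → ℕ) {j : ℕ} (hj : j < d) (m : ℕ) :
    ∑ i ∈ range d, (e i + if i = j then m else 0) = (∑ i ∈ range d, e i) + m := by
  simp_rw [sum_add_distrib]
  congr 1
  rw [sum_eq_single j]
  · simp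
  · intro b _ hb; simp [hb]
  · intro h; exact absurd (mem_range.2 hj) h

/-- the linear polynomial `th^(q^j) - X` -/
noncomputable def tp {κ : Type*} [Field κ] (q : ℕ) (th : κ) (j : ℕ) : κ[X] := C (th ^ (q ^ j)) - X

/-- the product of the `tp j` -/
noncomputable def P1 {κ : Type*} [Field κ] (q d : ℕ) (th : κ) : κ[X] := ∏ j ∈ range d, tp q th j

namespace Datum

variable {κ E : Type*} [Field κ] [Fintype κ] [Field E] {q d : ℕ} {T : E} {th : κ} {L : κ → E}
  (M : Datum q d T th L)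

lemma eval_tp (j : ℕ) : (tp q th j).eval₂ M.io T = M.io th ^ (q ^ j) - T := by
  rw [tp, eval₂_sub, eval₂_C, eval₂_X, map_pow]

lemma hrec' (j : ℕ) : (tp q th (j + 1)).eval₂ M.io T * M.g (j + 1) = M.g j ^ q := by
  rw [eval_tp, M.hrec]

lemma tp_ne (j : ℕ) : (tp q th j).eval₂ M.io T ≠ 0 := by
  intro h
  have h1 := M.hT _ h
  have h2 : (tp q th j).coeff 1 = 0 := by rw [h1, coeff_zero]
  rw [tp, coeff_sub, coeff_C, coeff_X_one] at h2
  simp at h2

lemma g_ne (j : ℕ) (hq : 2 ≤ q) : M.g j ≠ 0 := by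
  induction j with
  | zero => exact M.hne
  | succ j ih =>
    intro h
    have := M.hrec' j
    rw [h, mul_zero] at this
    exact ih (pow_eq_zero_iff (by omega) |>.1 this.symm)

/-- monomials with the digits of `l` -/
noncomputable def La (l : ℕ) : E := ∏ j ∈ range d, M.g j ^ (l / q ^ j % q)

lemma La_ne (hq : 2 ≤ q) (l : ℕ) : M.La l ≠ 0 :=
  prod_ne_zero_iff.2 fun j _ => pow_ne_zero _ (M.g_ne j hq)

lemma La_zero : M.La 0 = 1 := by simp [La]

include M in
lemma th_pow (hcard : Fintype.card κ = q ^ d) (a : κ) : a ^ (q ^ d) = a := by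
  rw [← hcard]; exact FiniteField.pow_card a

lemma pow_full (hcard : Fintype.card κ = q ^ d) (hd : 1 ≤ d) (hq : 2 ≤ q) :
    ∏ j ∈ range d, M.g j ^ (q - 1) = (P1 q d th).eval₂ M.io T := by
  have h1 : (∏ j ∈ range d, (tp q th (j + 1)).eval₂ M.io T) * ∏ j ∈ range d, M.g (j + 1) =
      (∏ j ∈ range d, M.g j) ^ q := by
    rw [← prod_mul_distrib, ← prod_pow]
    exact prod_congr rfl fun j _ => M.hrec' j
  rw [prod_shift hd M.g (by simpa using M.hper 0), prod_shift hd
    (fun j => (tp q th j).eval₂ M.io T) (by simp [tp, th_pow M hcard])] at h1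
  have h2 : (∏ j ∈ range d, M.g j) ≠ 0 := prod_ne_zero_iff.2 fun j _ => M.g_ne j hq
  rw [prod_pow, P1, eval₂_finsetProd]
  have h3 : (∏ j ∈ range d, M.g j) ^ q = (∏ j ∈ range d, M.g j) ^ (q - 1) * ∏ j ∈ range d, M.g j := by
    rw [← pow_succ]; congr 1; omega
  rw [h3] at h1
  exact (mul_right_cancel₀ h2 h1).symm

lemma io_pow_N (hcard : Fintype.card κ = q ^ d) {a : κ} (ha : a ≠ 0) : M.io a ^ (q ^ d - 1) = 1 := by
  rw [← map_pow, ← hcard, FiniteField.pow_card_sub_one_eq_one a ha, map_one]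

lemma red_monom (hcard : Fintype.card κ = q ^ d) (hd : 1 ≤ d) (hq : 2 ≤ q) :
    ∀ (S : ℕ) (e : ℕ → ℕ), ∑ j ∈ range d, e j = S → ∃ l < q ^ d - 1, ∃ c : κ[X],
      ∏ j ∈ range d, M.g j ^ e j = c.eval₂ M.io T * M.La l ∧
      ∀ a : κ, a ≠ 0 → M.io a ^ (∑ j ∈ range d, e j * q ^ j) = M.io a ^ l := by
  have hN : 1 < q ^ d := Nat.one_lt_pow (by omega) (by omega)
  intro S
  induction S using Nat.strong_induction_on with
  | _ S ih =>
  intro e he
  by_cases hall : ∀ j < d, e j < q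
  · obtain ⟨h1, h2⟩ := dig_of_sum q (by omega) d e hall
    set n := ∑ j ∈ range d, e j * q ^ j with hn
    by_cases hlt : n < q ^ d - 1
    · refine ⟨n, hlt, 1, ?_, fun a _ => rfl⟩
      rw [eval₂_one, one_mul, La]
      refine prod_congr rfl fun j hj => ?_
      rw [h2 j (mem_range.1 hj)]
    · have hnN : n = q ^ d - 1 := by omega
      refine ⟨0, by omega, P1 q d th, ?_, fun a ha => ?_⟩
      · rw [La_zero, mul_one, ← M.pow_full hcard hd hq]
        refine prod_congr rfl fun j hj => ?_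
        have h3 := (dig_of_sum q (by omega) d (fun _ => q - 1) (fun i _ => by omega)).2 j
          (mem_range.1 hj)
        rw [sum_full q (by omega) d, ← hnN, h2 j (mem_range.1 hj)] at h3
        rw [h3]
      · rw [hnN, M.io_pow_N hcard ha, pow_zero]
  · push Not at hall
    obtain ⟨j, hj, hej⟩ := hall
    set e0 : ℕ → ℕ := fun i => if i = j then e i - q else e i with he0
    have hee0 : e = fun i => e0 i + if i = j then q else 0 := by
      funext i
      by_cases hi : i = j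
      · subst hi; simp [he0]; omega
      · simp [he0, hi]
    obtain ⟨nx, hnx, hgn, han⟩ : ∃ nx < d, M.g nx = M.g (j + 1) ∧
        ∀ a : κ, M.io a ^ q ^ nx = M.io a ^ q ^ (j + 1) := by
      by_cases h : j + 1 < d
      · exact ⟨j + 1, h, rfl, fun _ => rfl⟩
      · have hjd : j + 1 = d := by omega
        refine ⟨0, by omega, ?_, fun a => ?_⟩
        · rw [hjd]; simpa using (M.hper 0).symm
        · rw [hjd, ← map_pow, ← map_pow, th_pow M hcard]; simp
    obtain ⟨l, hl, c, h1, h2⟩ := ih (∑ i ∈ range d, (e0 i + if i = nx then 1 else 0)) (by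
        rw [sum_single_add e0 hnx]
        rw [← he, hee0, sum_single_add e0 hj]
        omega) (fun i => e0 i + if i = nx then 1 else 0) rfl
    refine ⟨l, hl, tp q th (j + 1) * c, ?_, fun a ha => ?_⟩
    · rw [prod_single_pow M.g e0 hnx] at h1
      rw [hee0, prod_single_pow M.g e0 hj, ← M.hrec' j, eval₂_mul, mul_assoc, ← h1, pow_one, hgn]
      ring
    · rw [← h2 a ha, hee0, sum_single_pow e0 hj, sum_single_pow e0 hnx, pow_add, pow_add]
      congr 1
      rw [one_mul, han, ← pow_succ']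

/-- functions with an expansion in the monomials `io a ^ l * La l` with polynomial coefficients -/
def Good (F : κ → E) : Prop :=
  ∃ f : ℕ → κ[X], ∀ a : κ, a ≠ 0 → F a = ∑ l ∈ range (q ^ d - 1), (f l).eval₂ M.io T * (M.io a ^ l * M.La l)

variable {M}

lemma Good.zero : M.Good (fun _ => 0) := ⟨fun _ => 0, fun a _ => by simp⟩

lemma Good.add {F G : κ → E} (hF : M.Good F) (hG : M.Good G) : M.Good (fun a => F a + G a) := by
  obtain ⟨f, hf⟩ := hF
  obtain ⟨g, hg⟩ := hG
  refine ⟨fun l => f l + g l, fun a ha => ?_⟩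
  beta_reduce
  rw [hf a ha, hg a ha, ← sum_add_distrib]
  refine sum_congr rfl fun l _ => ?_
  rw [eval₂_add, add_mul]

lemma Good.smul {F : κ → E} (hF : M.Good F) (c : κ[X]) : M.Good (fun a => c.eval₂ M.io T * F a) := by
  obtain ⟨f, hf⟩ := hF
  refine ⟨fun l => c * f l, fun a ha => ?_⟩
  beta_reduce
  rw [hf a ha, mul_sum]
  refine sum_congr rfl fun l _ => ?_
  rw [eval₂_mul]; ring

lemma Good.congr {F G : κ → E} (hF : M.Good F) (h : ∀ a, a ≠ 0 → G a = F a) : M.Good G := by
  obtain ⟨f, hf⟩ := hF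
  exact ⟨f, fun a ha => by rw [h a ha, hf a ha]⟩

lemma Good.sum {ι : Type*} (s : Finset ι) {F : ι → κ → E} (h : ∀ i ∈ s, M.Good (F i)) :
    M.Good (fun a => ∑ i ∈ s, F i a) := by
  classical
  induction s using Finset.induction_on with
  | empty => simpa using Good.zero
  | insert a s ha ih =>
    refine Good.congr (Good.add (h a (Finset.mem_insert_self _ _))
      (ih fun i hi => h i (Finset.mem_insert_of_mem hi))) fun b _ => ?_
    rw [sum_insert ha]

lemma Good.monom (l : ℕ) (hl : l < q ^ d - 1) : M.Good (fun a => M.io a ^ l * M.La l) := by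
  refine ⟨fun l' => if l' = l then 1 else 0, fun a _ => ?_⟩
  rw [sum_eq_single l]
  · simp
  · intro b _ hb; simp [hb]
  · intro h; exact absurd (mem_range.2 hl) h

lemma Good.mulL (hcard : Fintype.card κ = q ^ d) (hd : 1 ≤ d) (hq : 2 ≤ q) {F : κ → E}
    (hF : M.Good F) : M.Good (fun a => F a * L a) := by
  obtain ⟨f, hf⟩ := hF
  have key : ∀ l ∈ range (q ^ d - 1), ∀ j ∈ range d,
      M.Good (fun a => (f l).eval₂ M.io T * (M.io a ^ l * M.La l * (M.io a ^ (q ^ j) * M.g j))) := by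
    intro l hl j hj
    have hl' : l < q ^ d := by have := mem_range.1 hl; omega
    obtain ⟨l', hl'2, c, h1, h2⟩ := M.red_monom hcard hd hq _
      (fun i => l / q ^ i % q + if i = j then 1 else 0) rfl
    rw [prod_single_pow M.g _ (mem_range.1 hj)] at h1
    refine Good.congr ((Good.monom l' hl'2).smul (f l * c)) fun a ha => ?_
    have h3 := h2 a ha
    rw [sum_single_pow _ (mem_range.1 hj), sum_dig q (by omega) d l hl', pow_add, one_mul] at h3
    rw [← h3, eval₂_mul, La]
    have h4 : (∏ i ∈ range d, M.g i ^ (l / q ^ i % q)) * M.g j = c.eval₂ M.io T * M.La l' := by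
      rw [← h1, pow_one]
    linear_combination ((f l).eval₂ M.io T * M.io a ^ l * M.io a ^ q ^ j) * h4
  refine Good.congr (Good.sum (range (q ^ d - 1)) fun l hl => Good.sum (range d) fun j hj =>
    key l hl j hj) fun a ha => ?_
  rw [hf a ha, M.hL, sum_mul_sum]
  refine sum_congr rfl fun l _ => sum_congr rfl fun j _ => ?_
  ring

lemma Good.powL (hcard : Fintype.card κ = q ^ d) (hd : 1 ≤ d) (hq : 2 ≤ q) (m : ℕ) :
    M.Good (fun a => L a ^ m) := by
  induction m with
  | zero =>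
    have hN : 1 < q ^ d := Nat.one_lt_pow (by omega) (by omega)
    refine Good.congr (Good.monom 0 (by omega)) fun a _ => ?_
    rw [La_zero]; simp
  | succ m ih =>
    refine Good.congr (Good.mulL hcard hd hq ih) fun a _ => ?_
    rw [pow_succ]

end Datum

end Pool.Agent.D0H54.Gk
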