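import Mathlib

namespace Pool.Agent.D0H54.Gk

open Polynomial TensorProduct

/-- Derivations extend along formally etale extensions. -/
lemma ext_derivation {R S T : Type*} [CommRing R] [CommRing S] [CommRing T]
    [Algebra R S] [Algebra R T] [Algebra S T] [IsScalarTower R S T] [Algebra.FormallyEtale S T]
    (d : Derivation R S T) : ∃ D : Derivation R T T, ∀ x, D (algebraMap S T x) = d x := by
  let e := KaehlerDifferential.tensorKaehlerEquivOfFormallyEtale R S T
  let g : T ⊗[S] (Ω[S⁄R]) →ₗ[T] T := d.liftKaehlerDifferential.liftBaseChange T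
  refine ⟨(g ∘ₗ e.symm.toLinearMap).compDer (KaehlerDifferential.D R T), fun x => ?_⟩
  change g (e.symm (KaehlerDifferential.D R T (algebraMap S T x))) = _
  rw [KaehlerDifferential.tensorKaehlerEquivOfFormallyEtale_symm_D_algebraMap]
  simp [g]

variable (k : Type*) [Field k]

lemma exists_derivation_ratfunc : ∃ D : Derivation k (RatFunc k) (RatFunc k),
    (∀ f : k[X], D (algebraMap k[X] (RatFunc k) f) = algebraMap k[X] (RatFunc k) (derivative f)) := by
  have : Algebra.FormallyEtale k[X] (RatFunc k) :=
    Algebra.FormallyEtale.of_isLocalization (nonZeroDivisors k[X])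
  let d : Derivation k k[X] (RatFunc k) :=
    (Algebra.linearMap k[X] (RatFunc k)).compDer (Polynomial.derivative' (R := k))
  obtain ⟨D, hD⟩ := ext_derivation (R := k) d
  exact ⟨D, fun f => by rw [hD]; rfl⟩

lemma exists_derivation (E : Type*) [Field E] [Algebra (RatFunc k) E]
    [Algebra.IsSeparable (RatFunc k) E] : ∃ D : Derivation ℤ E E,
    (∀ f : k[X], D (algebraMap (RatFunc k) E (algebraMap k[X] (RatFunc k) f)) =
      algebraMap (RatFunc k) E (algebraMap k[X] (RatFunc k) (derivative f))) := by
  have : Algebra.FormallyEtale (RatFunc k) E := Algebra.FormallyEtale.of_isSeparable _ _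
  let _ : Algebra k E := ((algebraMap (RatFunc k) E).comp (algebraMap k (RatFunc k))).toAlgebra
  have : IsScalarTower k (RatFunc k) E := IsScalarTower.of_algebraMap_eq' rfl
  obtain ⟨D0, h0⟩ := exists_derivation_ratfunc k
  let d : Derivation k (RatFunc k) E := (Algebra.linearMap (RatFunc k) E).compDer D0
  obtain ⟨D, hD⟩ := ext_derivation (R := k) d
  refine ⟨Derivation.mk' (D.toLinearMap.toAddMonoidHom.toIntLinearMap) (fun a b => ?_), fun f => ?_⟩
  · exact D.leibniz a b
  · change D _ = _
    rw [hD]; change algebraMap _ _ (D0 _) = _; rw [h0]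

end Pool.Agent.D0H54.Gk
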