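import Pool.Agent.D0H54.Gk.Datum

set_option linter.unusedSectionVars false

namespace Pool.Agent.D0H54.Gk

open Polynomial Finset

/-- twisted factorial polynomials -/
noncomputable def Dt {κ : Type*} [Field κ] (q : ℕ) (th : κ) : ℕ → κ[X]
  | 0 => 1
  | j + 1 => tp q th (j + 1) * Dt q th j ^ q

noncomputable def Pt {κ : Type*} [Field κ] (q d : ℕ) (th : κ) (l : ℕ) : κ[X] :=
  ∏ j ∈ range d, Dt q th j ^ (l / q ^ j % q)

/-- product of the `tp i`, `i ≠ j` -/
noncomputable def Rj {κ : Type*} [Field κ] (q d : ℕ) (th : κ) (j : ℕ) : κ[X] :=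
  ∏ i ∈ (range d).erase j, tp q th i

/-- pure recursion lemma -/
lemma conv_red {κ E : Type*} [Field κ] [Field E] {io : κ →+* E} {T : E} {th : κ} (N : ℕ)
    (w F : ℕ → κ) (W b : ℕ → E) (R0 : κ) (hR0 : R0 ≠ 0)
    (hW : ∀ m < N, Red io T th (W m) (w m)) (hW0 : W 0 = 1) (hw0 : w 0 = 1)
    (hF : ∀ r < N, ∑ x ∈ antidiagonal r, w x.1 * F x.2 = if r = 0 then R0 else 0)
    (hb : ∀ r < N, ∑ x ∈ antidiagonal r, W x.1 * b x.2 = if r = 0 then 1 else 0) :
    ∀ r < N, Red io T th (b r) (F r / R0) := by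
  intro r
  induction r using Nat.strong_induction_on with
  | _ r ih =>
  intro hr
  have h1 := hF r hr
  have h2 := hb r hr
  rw [Nat.sum_antidiagonal_eq_sum_range_succ_mk, sum_range_succ'] at h1 h2
  simp only [Nat.sub_zero, hW0, hw0, one_mul] at h1 h2
  have h3 : b r = (if r = 0 then 1 else 0) - ∑ k ∈ range r, W (k + 1) * b (r - (k + 1)) := by
    rw [← h2]; ring
  have h4 : F r / R0 = (if r = 0 then 1 else 0) - ∑ k ∈ range r, w (k + 1) * (F (r - (k + 1)) / R0) := by
    have h5 : F r = (if r = 0 then R0 else 0) - ∑ k ∈ range r, w (k + 1) * F (r - (k + 1)) := by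
      rw [← h1]; ring
    rw [h5, sub_div, Finset.sum_div]
    congr 1
    · split_ifs
      · exact div_self hR0
      · exact zero_div _
    · exact sum_congr rfl fun k _ => by rw [mul_div_assoc]
  rw [h3, h4]
  refine Red.sub ?_ (Red.sum _ fun k hk => ?_)
  · split_ifs
    · exact Red.one
    · exact Red.zero
  · have hk' := mem_range.1 hk
    exact (hW _ (by omega)).mul (ih _ (by omega) (by omega))

namespace Datum

variable {κ E : Type*} [Field κ] [Fintype κ] [Field E] {q d : ℕ} {T : E} {th : κ} {L : κ → E}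
  (M : Datum q d T th L)

lemma g_mul_Dt (j : ℕ) : M.g j * (Dt q th j).eval₂ M.io T = M.g 0 ^ (q ^ j) := by
  induction j with
  | zero => simp [Dt]
  | succ j ih =>
    rw [Dt, eval₂_mul, eval₂_pow, pow_succ, pow_mul, ← ih, mul_pow, ← M.hrec']
    ring

lemma Dt_eval_ne (hth : ∀ j, 1 ≤ j → j < d → th ^ (q ^ j) ≠ th) (j : ℕ) (hj : j < d) :
    (Dt q th j).eval th ≠ 0 := by
  induction j with
  | zero => simp [Dt]
  | succ j ih =>
    rw [Dt, eval_mul, eval_pow]
    refine mul_ne_zero ?_ (pow_ne_zero _ (ih (by omega)))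
    rw [tp, eval_sub, eval_C, eval_X, sub_ne_zero]
    exact hth _ (by omega) hj

lemma Dt_ne (hth : ∀ j, 1 ≤ j → j < d → th ^ (q ^ j) ≠ th) (j : ℕ) (hj : j < d) :
    (Dt q th j).eval₂ M.io T ≠ 0 := by
  intro h
  exact Dt_eval_ne hth j hj (by rw [M.hT _ h, eval_zero])

lemma Pt_eval_ne (hth : ∀ j, 1 ≤ j → j < d → th ^ (q ^ j) ≠ th) (l : ℕ) :
    (Pt q d th l).eval th ≠ 0 := by
  rw [Pt, eval_prod]
  refine prod_ne_zero_iff.2 fun j hj => ?_
  rw [eval_pow]
  exact pow_ne_zero _ (Dt_eval_ne hth j (mem_range.1 hj))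

lemma Pt_ne (hth : ∀ j, 1 ≤ j → j < d → th ^ (q ^ j) ≠ th) (l : ℕ) :
    (Pt q d th l).eval₂ M.io T ≠ 0 := by
  intro h
  exact Pt_eval_ne hth l (by rw [M.hT _ h, eval_zero])

lemma La_mul_Pt (hq : 2 ≤ q) (l : ℕ) (hl : l < q ^ d) :
    M.La l * (Pt q d th l).eval₂ M.io T = M.g 0 ^ l := by
  rw [Pt, eval₂_finsetProd, La, ← prod_mul_distrib]
  conv_rhs => rw [← sum_dig q (by omega) d l hl, ← prod_pow_eq_pow_sum]
  refine prod_congr rfl fun j _ => ?_
  rw [eval₂_pow, ← mul_pow, M.g_mul_Dt, ← pow_mul, mul_comm]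

lemma u_pow (hcard : Fintype.card κ = q ^ d) : M.g 0 ^ (q ^ d - 1) = (Dt q th d).eval₂ M.io T := by
  have h1 := M.g_mul_Dt d
  have h2 : M.g d = M.g 0 := by simpa using M.hper 0
  have h3 : M.g 0 ^ (q ^ d) = M.g 0 * M.g 0 ^ (q ^ d - 1) := by
    rw [← pow_succ']
    congr 1
    have : 0 < q ^ d := by rw [← hcard]; exact Fintype.card_pos
    omega
  rw [h2, h3] at h1
  exact (mul_left_cancel₀ M.hne h1).symm

lemma Dt_d_eval (hcard : Fintype.card κ = q ^ d) (hd : 1 ≤ d) (M : Datum q d T th L) :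
    (Dt q th d).eval th = 0 := by
  obtain ⟨m, rfl⟩ : ∃ m, d = m + 1 := ⟨d - 1, by omega⟩
  rw [Dt, eval_mul, tp, eval_sub, eval_C, eval_X, th_pow M hcard, sub_self, zero_mul]

lemma sum_io_pow (hcard : Fintype.card κ = q ^ d) [DecidableEq κ] (m : ℕ) :
    ∑ a : κˣ, M.io (a : κ) ^ m = if q ^ d - 1 ∣ m then -1 else 0 := by
  have h := FiniteField.sum_pow_units κ m
  have h2 := congrArg M.io h
  rw [map_sum, hcard] at h2
  simp only [map_pow] at h2
  rw [h2]
  split_ifs <;> simp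

/-- the values at `T = th` of the coefficients of `P1 * h` -/
lemma conv_F (hcard : Fintype.card κ = q ^ d) (hd : 1 ≤ d) (hq : 2 ≤ q)
    (hth : ∀ j, 1 ≤ j → j < d → th ^ (q ^ j) ≠ th) (f : ℕ → κ[X])
    (hf : ∀ a : κ, a ≠ 0 → L a * (∑ l ∈ range (q ^ d - 1),
      (f l).eval₂ M.io T * (M.io a ^ l * M.La l)) =
      ∑ j ∈ range d, M.io a ^ (q ^ j) * M.g j * (Rj q d th j).eval₂ M.io T) :
    ∀ r < q ^ d - 1, ∑ x ∈ antidiagonal r,
      (∑ j ∈ range d, if q ^ j = x.1 + 1 then ((Dt q th j).eval th)⁻¹ else 0) *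
        ((f x.2).eval th / (Pt q d th x.2).eval th) =
      if r = 0 then (Rj q d th 0).eval th else 0 := by
  classical
  intro r hr
  have hN : 1 < q ^ d := Nat.one_lt_pow (by omega) (by omega)
  set N := q ^ d - 1 with hNdef
  set u := M.g 0 with hu
  have hqj : ∀ j ∈ range d, q ^ j ≤ N := by
    intro j hj
    have h1 : q ^ j < q ^ d := Nat.pow_lt_pow_right (by omega) (mem_range.1 hj)
    omega
  have hqj1 : ∀ j, 1 ≤ q ^ j := fun j => Nat.one_le_pow _ _ (by omega)
  -- coefficients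
  set c : ℕ → ℕ → E := fun j l => (f l).eval₂ M.io T *
    (((Dt q th j).eval₂ M.io T)⁻¹ * ((Pt q d th l).eval₂ M.io T)⁻¹) with hc
  set c' : ℕ → E := fun j => (Rj q d th j).eval₂ M.io T * ((Dt q th j).eval₂ M.io T)⁻¹ with hc'
  have hgj : ∀ j ∈ range d, M.g j = u ^ (q ^ j) * ((Dt q th j).eval₂ M.io T)⁻¹ := by
    intro j hj
    rw [← M.g_mul_Dt, mul_assoc, mul_inv_cancel₀ (M.Dt_ne hth j (mem_range.1 hj)), mul_one]
  have hLal : ∀ l ∈ range N, M.La l = u ^ l * ((Pt q d th l).eval₂ M.io T)⁻¹ := by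
    intro l hl
    rw [← M.La_mul_Pt hq l (by have := mem_range.1 hl; omega), mul_assoc,
      mul_inv_cancel₀ (M.Pt_ne hth l), mul_one]
  have h1 : ∀ a : κ, a ≠ 0 → ∑ j ∈ range d, ∑ l ∈ range N, c j l * (u ^ (q ^ j + l) * M.io a ^ (q ^ j + l)) =
      ∑ j ∈ range d, c' j * (u ^ (q ^ j) * M.io a ^ (q ^ j)) := by
    intro a ha
    have h := hf a ha
    rw [M.hL, sum_mul_sum] at h
    have e1 : ∑ j ∈ range d, ∑ l ∈ range N, c j l * (u ^ (q ^ j + l) * M.io a ^ (q ^ j + l)) =
        ∑ i ∈ range d, ∑ j ∈ range N, M.io a ^ q ^ i * M.g i * (eval₂ M.io T (f j) * (M.io a ^ j * M.La j)) := by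
      refine sum_congr rfl fun j hj => sum_congr rfl fun l hl => ?_
      rw [hgj j hj, hLal l hl, hc, pow_add, pow_add]
      ring
    rw [e1, h]
    refine sum_congr rfl fun j hj => ?_
    rw [hgj j hj, hc']
    ring
  -- Fourier coefficient
  have h2 : ∑ j ∈ range d, ∑ l ∈ range N, (if N ∣ q ^ j + l + (N - 1 - r) then c j l * u ^ (q ^ j + l) else 0) =
      ∑ j ∈ range d, (if N ∣ q ^ j + (N - 1 - r) then c' j * u ^ (q ^ j) else 0) := by
    have h3 : ∑ a : κˣ, M.io (a : κ) ^ (N - 1 - r) * (∑ j ∈ range d, ∑ l ∈ range N,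
        c j l * (u ^ (q ^ j + l) * M.io (a : κ) ^ (q ^ j + l))) =
        ∑ a : κˣ, M.io (a : κ) ^ (N - 1 - r) * (∑ j ∈ range d, c' j * (u ^ (q ^ j) * M.io (a : κ) ^ (q ^ j))) := by
      refine sum_congr rfl fun a _ => ?_
      rw [h1 _ a.ne_zero]
    have h4 : ∑ a : κˣ, M.io (a : κ) ^ (N - 1 - r) * (∑ j ∈ range d, ∑ l ∈ range N,
        c j l * (u ^ (q ^ j + l) * M.io (a : κ) ^ (q ^ j + l))) =
        - ∑ j ∈ range d, ∑ l ∈ range N, (if N ∣ q ^ j + l + (N - 1 - r) then c j l * u ^ (q ^ j + l) else 0) := by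
      simp_rw [mul_sum]
      rw [sum_comm, ← sum_neg_distrib]
      refine sum_congr rfl fun j _ => ?_
      rw [sum_comm, ← sum_neg_distrib]
      refine sum_congr rfl fun l _ => ?_
      have : ∀ a : κˣ, M.io (a : κ) ^ (N - 1 - r) * (c j l * (u ^ (q ^ j + l) * M.io (a : κ) ^ (q ^ j + l))) =
          (c j l * u ^ (q ^ j + l)) * M.io (a : κ) ^ (q ^ j + l + (N - 1 - r)) := by
        intro a; rw [pow_add _ (q ^ j + l)]; ring
      simp_rw [this]
      rw [← mul_sum, M.sum_io_pow hcard]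
      split_ifs <;> ring
    have h5 : ∑ a : κˣ, M.io (a : κ) ^ (N - 1 - r) * (∑ j ∈ range d, c' j * (u ^ (q ^ j) * M.io (a : κ) ^ (q ^ j))) =
        - ∑ j ∈ range d, (if N ∣ q ^ j + (N - 1 - r) then c' j * u ^ (q ^ j) else 0) := by
      simp_rw [mul_sum]
      rw [sum_comm, ← sum_neg_distrib]
      refine sum_congr rfl fun j _ => ?_
      have : ∀ a : κˣ, M.io (a : κ) ^ (N - 1 - r) * (c' j * (u ^ (q ^ j) * M.io (a : κ) ^ (q ^ j))) =
          (c' j * u ^ (q ^ j)) * M.io (a : κ) ^ (q ^ j + (N - 1 - r)) := by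
        intro a; rw [pow_add _ (q ^ j)]; ring
      simp_rw [this]
      rw [← mul_sum, M.sum_io_pow hcard]
      split_ifs <;> ring
    rw [h4, h5] at h3
    exact neg_injective h3
  -- divisibility analysis
  have hdiv : ∀ s, 1 ≤ s → s < 2 * N → (N ∣ s + (N - 1 - r) ↔ s = r + 1 ∨ s = r + 1 + N) := by
    intro s hs1 hs2
    constructor
    · rintro ⟨t, ht⟩
      have ht1 : t = 1 ∨ t = 2 := by
        have : 0 < t := by
          rcases Nat.eq_zero_or_pos t with h | h
          · subst h; omega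
          · exact h
        have : t < 3 := by
          by_contra h
          have h3 : 3 ≤ t := by omega
          have : N * 3 ≤ N * t := Nat.mul_le_mul_left _ h3
          omega
        omega
      rcases ht1 with rfl | rfl
      · left; omega
      · right; omega
    · rintro (h | h)
      · exact ⟨1, by omega⟩
      · exact ⟨2, by omega⟩
  have hu0 : u ≠ 0 := M.hne
  have hur : u ^ (r + 1) ≠ 0 := pow_ne_zero _ hu0
  have huN : u ^ N = (Dt q th d).eval₂ M.io T := M.u_pow hcard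
  have hRc : ∀ j ∈ range d, ∀ l, Red M.io T th (c j l)
      ((f l).eval th * (((Dt q th j).eval th)⁻¹ * ((Pt q d th l).eval th)⁻¹)) := by
    intro j hj l
    refine (Red.poly _).mul (Red.mul ?_ ?_)
    · exact (Red.poly _).inv M.hT (Dt_eval_ne hth j (mem_range.1 hj))
    · exact (Red.poly _).inv M.hT (Pt_eval_ne hth l)
  have hRc' : ∀ j ∈ range d, Red M.io T th (c' j)
      ((Rj q d th j).eval th * ((Dt q th j).eval th)⁻¹) := by
    intro j hj
    exact (Red.poly _).mul ((Red.poly _).inv M.hT (Dt_eval_ne hth j (mem_range.1 hj)))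
  have hLHS : Red M.io T th ((u ^ (r + 1))⁻¹ * ∑ j ∈ range d, ∑ l ∈ range N,
      (if N ∣ q ^ j + l + (N - 1 - r) then c j l * u ^ (q ^ j + l) else 0))
      (∑ j ∈ range d, ∑ l ∈ range N, if q ^ j + l = r + 1 then
        (f l).eval th * (((Dt q th j).eval th)⁻¹ * ((Pt q d th l).eval th)⁻¹) else 0) := by
    simp_rw [mul_sum]
    refine Red.sum _ fun j hj => Red.sum _ fun l hl => ?_
    have hs := hdiv (q ^ j + l) (by have := hqj1 j; omega)
      (by have := hqj j hj; have := mem_range.1 hl; omega)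
    by_cases hA : q ^ j + l = r + 1
    · rw [if_pos (hs.2 (Or.inl hA)), if_pos hA]
      have : (u ^ (r + 1))⁻¹ * (c j l * u ^ (q ^ j + l)) = c j l := by
        rw [hA]; field_simp
      rw [this]
      exact hRc j hj l
    · rw [if_neg hA]
      by_cases hB : q ^ j + l = r + 1 + N
      · rw [if_pos (hs.2 (Or.inr hB))]
        have : (u ^ (r + 1))⁻¹ * (c j l * u ^ (q ^ j + l)) = (Dt q th d).eval₂ M.io T * c j l := by
          rw [hB, pow_add u (r + 1) N, huN]; field_simp
        rw [this]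
        have h := (Red.poly (io := M.io) (T := T) (th := th) (Dt q th d)).mul (hRc j hj l)
        rw [Dt_d_eval hcard hd M, zero_mul] at h
        exact h
      · rw [if_neg (fun h => by rcases hs.1 h with h | h <;> contradiction), mul_zero]
        exact Red.zero
  have hRHS : Red M.io T th ((u ^ (r + 1))⁻¹ * ∑ j ∈ range d,
      (if N ∣ q ^ j + (N - 1 - r) then c' j * u ^ (q ^ j) else 0))
      (∑ j ∈ range d, if q ^ j = r + 1 then
        (Rj q d th j).eval th * ((Dt q th j).eval th)⁻¹ else 0) := by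
    rw [mul_sum]
    refine Red.sum _ fun j hj => ?_
    have hs := hdiv (q ^ j) (hqj1 j) (by have := hqj j hj; omega)
    by_cases hA : q ^ j = r + 1
    · rw [if_pos (hs.2 (Or.inl hA)), if_pos hA]
      have : (u ^ (r + 1))⁻¹ * (c' j * u ^ (q ^ j)) = c' j := by
        rw [hA]; field_simp
      rw [this]
      exact hRc' j hj
    · have hB : ¬ (q ^ j = r + 1 + N) := by have := hqj j hj; omega
      rw [if_neg hA, if_neg (fun h => by rcases hs.1 h with h | h <;> contradiction), mul_zero]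
      exact Red.zero
  rw [h2] at hLHS
  have h6 := Red.unique M.hT hLHS hRHS
  -- evaluate the right hand side
  have h7 : (∑ j ∈ range d, if q ^ j = r + 1 then
        (Rj q d th j).eval th * ((Dt q th j).eval th)⁻¹ else 0) =
        if r = 0 then (Rj q d th 0).eval th else 0 := by
    rw [sum_eq_single 0]
    · simp [Dt]
    · intro j hj hj0
      have : (Rj q d th j).eval th = 0 := by
        rw [Rj, eval_prod, prod_eq_zero (i := 0)]
        · rw [mem_erase, mem_range]
          exact ⟨fun h => hj0 h.symm, by omega⟩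
        · simp [tp]
      rw [this, zero_mul, ite_self]
    · intro h; exact absurd (mem_range.2 (by omega)) h
  rw [← h7, ← h6, Nat.sum_antidiagonal_eq_sum_range_succ_mk]
  simp_rw [sum_mul]
  rw [sum_comm]
  refine sum_congr rfl fun j hj => ?_
  simp only [ite_mul, zero_mul]
  by_cases hjr : q ^ j ≤ r + 1
  · have := hqj1 j
    rw [sum_eq_single (q ^ j - 1), sum_eq_single (r + 1 - q ^ j)]
    · rw [if_pos (by omega), if_pos (by omega)]
      have : r - (q ^ j - 1) = r + 1 - q ^ j := by omega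
      rw [this]
      ring
    · intro b _ hb; rw [if_neg (by omega)]
    · intro h; exact absurd (mem_range.2 (by omega)) h
    · intro b _ hb; rw [if_neg (by omega)]
    · intro h; exact absurd (mem_range.2 (by omega)) h
  · rw [sum_eq_zero, sum_eq_zero]
    · intro l _; rw [if_neg (by omega)]
    · intro l hl; have := mem_range.1 hl; rw [if_neg (by omega)]

end Datum

end Pool.Agent.D0H54.Gk
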