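import Pool.Agent.D0H54.Gk.Build
import Pool.Agent.D0H54.Gk.Der

set_option linter.unusedSectionVars false

namespace Pool.Agent.D0H54.Gk

open Polynomial Finset TensorProduct

namespace Datum

section

variable {p : ℕ} [hp : Fact p.Prime] {κ E : Type*} [Field κ] [Fintype κ]
  [Field E] [CharP E p] [CharP κ p]
  {q r d : ℕ} {T : E} {th : κ} {L : κ → E}
  (M : Datum q d T th L) (D : Derivation ℤ E E) (hDT : D T = 1)
  (hdec : ∀ x : E, Dec p T x)
  (hqp : q = p ^ r) (hcard : Fintype.card κ = q ^ d) (hd : 1 ≤ d) (hq : 2 ≤ q)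
  (hLne : ∀ a, a ≠ 0 → L a ≠ 0)

include hDT hLne in
lemma cart_H (m : ℕ) : cart p hdec (M.H (hh D L) (p * m)) = M.H (hh D L) m := by
  rw [← cartHom_apply p D hDT, H, H, map_sum]
  refine sum_congr rfl fun a _ => ?_
  rw [cartHom_apply, mul_comm p m, pow_mul, cart_mulp p D hDT, hh, cart_dlog p D hDT hdec]
  exact hLne _ a.ne_zero

include hcard in
lemma H_add_mul (h : κ → E) (m t : ℕ) : M.H h (m + (q ^ d - 1) * t) = M.H h m := by
  rw [H, H]
  refine sum_congr rfl fun a _ => ?_
  rw [pow_add, pow_mul, inv_pow _ (q ^ d - 1), M.io_pow_N hcard a.ne_zero, inv_one, one_pow, mul_one]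

include hDT hdec hqp hcard hd hq hLne in
lemma H_all (l : ℕ) (hl : M.H (hh D L) l = 0) (m : ℕ) : M.H (hh D L) (l * p ^ m) = 0 := by
  have hr : 1 ≤ r := by
    rcases r with _ | r
    · simp at hqp; omega
    · omega
  have h1 : ∀ s, M.H (hh D L) (l * p ^ (r * d * s)) = 0 := by
    intro s
    have h2 : p ^ (r * d * s) = (q ^ d) ^ s := by rw [pow_mul, pow_mul, ← hqp]
    obtain ⟨t, ht⟩ : ∃ t, (q ^ d) ^ s = 1 + (q ^ d - 1) * t := by
      have h3 : (q ^ d - 1) ∣ (q ^ d) ^ s - 1 ^ s := Nat.sub_dvd_pow_sub_pow _ _ _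
      obtain ⟨t, ht⟩ := h3
      refine ⟨t, ?_⟩
      rw [one_pow] at ht
      have : 1 ≤ (q ^ d) ^ s := Nat.one_le_pow _ _ (by positivity)
      omega
    rw [h2, ht]
    have h4 : l * (1 + (q ^ d - 1) * t) = l + (q ^ d - 1) * (l * t) := by ring
    rw [h4, M.H_add_mul hcard, hl]
  have hstep : ∀ j, M.H (hh D L) (l * p ^ (j + 1)) = 0 → M.H (hh D L) (l * p ^ j) = 0 := by
    intro j hj
    have h3 : l * p ^ (j + 1) = p * (l * p ^ j) := by rw [pow_succ]; ring
    rw [h3] at hj
    rw [← M.cart_H D hDT hdec hLne, hj, ← cartHom_apply p D hDT, map_zero]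
  have hdown : ∀ n j, M.H (hh D L) (l * p ^ (j + n)) = 0 → M.H (hh D L) (l * p ^ j) = 0 := by
    intro n
    induction n with
    | zero => intro j h; exact h
    | succ n ih => intro j h; exact ih j (hstep _ h)
  have hle : m ≤ r * d * m := by
    have : 1 ≤ r * d := Nat.mul_pos hr hd
    exact Nat.le_mul_of_pos_left m this
  refine hdown (r * d * m - m) m ?_
  rw [Nat.add_sub_cancel' hle]
  exact h1 m

end

end Datum

section logder

variable {E : Type*} [Field E] (D : Derivation ℤ E E)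

lemma D_prod {ι : Type*} (s : Finset ι) (u : ι → E) (n : ι → ℕ) (hu : ∀ i ∈ s, u i ≠ 0) :
    D (∏ i ∈ s, u i ^ n i) = (∏ i ∈ s, u i ^ n i) * ∑ i ∈ s, (n i : E) * (D (u i) / u i) := by
  classical
  induction s using Finset.induction_on with
  | empty => simp
  | insert a s ha ih =>
    have h1 : u a ≠ 0 := hu a (Finset.mem_insert_self _ _)
    rw [prod_insert ha, sum_insert ha, Derivation.leibniz, ih fun i hi => hu i (Finset.mem_insert_of_mem hi),
      Derivation.leibniz_pow, smul_eq_mul, smul_eq_mul]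
    have h2 : (n a • u a ^ (n a - 1) • D (u a)) = u a ^ n a * ((n a : E) * (D (u a) / u a)) := by
      rcases Nat.eq_zero_or_pos (n a) with h | h
      · rw [h]; simp
      · obtain ⟨m, hm⟩ : ∃ m, n a = m + 1 := ⟨n a - 1, by omega⟩
        rw [hm, Nat.add_sub_cancel, nsmul_eq_mul, smul_eq_mul, pow_succ]
        field_simp
    rw [h2]
    ring

end logder

section basis

variable {p : ℕ} [hp : Fact p.Prime] {κ E : Type*} [Field κ] [Fintype κ] [CharP κ p]
  [Field E] [CharP E p]

/-- coordinates of the residue field over the prime field, and independence of the Frobenius twists -/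
lemma exists_basis (io : κ →+* E) {ι : Type*} [Fintype ι] (y : ι → κ) (h : ι → E)
    (hs : ∀ s : ℕ, ∑ i, io (y i) ^ (p ^ s) * h i = 0) :
    ∃ (n : ℕ) (e : Fin n → κ) (t : κ → Fin n → ℕ),
    (∀ y, y = ∑ j, (t y j : κ) * e j) ∧ ∀ j, ∑ i, (t (y i) j : E) * h i = 0 := by
  classical
  let _ : Algebra (ZMod p) κ := ZMod.algebra κ p
  have pb : PowerBasis (ZMod p) κ := Field.powerBasisOfFiniteOfSeparable (ZMod p) κ
  have hy : ∀ y : κ, y = ∑ j : Fin pb.dim, (((pb.basis.repr y j).val : ℕ) : κ) * pb.gen ^ (j : ℕ) := by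
    intro y
    conv_lhs => rw [← pb.basis.sum_repr y]
    refine sum_congr rfl fun j _ => ?_
    rw [pb.basis_eq_pow, Algebra.smul_def]
    congr 1
    conv_lhs => rw [← ZMod.natCast_zmod_val (pb.basis.repr y j)]
    rw [map_natCast]
  refine ⟨pb.dim, fun j => pb.gen ^ (j : ℕ), fun y j => (pb.basis.repr y j).val, hy, ?_⟩
  have hio : ∀ (y : κ) (s : ℕ), io y ^ (p ^ s) =
      ∑ j : Fin pb.dim, (((pb.basis.repr y j).val : ℕ) : E) * (io pb.gen ^ (p ^ s)) ^ (j : ℕ) := by
    intro y s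
    conv_lhs => rw [hy y]
    rw [map_sum, sum_pow_char_pow]
    refine sum_congr rfl fun j _ => ?_
    rw [map_mul, mul_pow, map_pow, map_natCast, ← pow_mul, ← pow_mul, mul_comm (j : ℕ)]
    congr 1
    have := map_natCast (iterateFrobenius E p s) ((pb.basis.repr y j).val)
    rw [iterateFrobenius_def] at this
    exact this
  have hsurj : Function.Surjective (aeval pb.gen : (ZMod p)[X] → κ) := by
    intro y
    obtain ⟨f, hf⟩ := pb.exists_eq_aeval' y
    exact ⟨f, hf.symm⟩
  have hdim : (minpoly (ZMod p) pb.gen).natDegree = pb.dim := pb.natDegree_minpoly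
  have hq1 : Fintype.card (ZMod p) = p ^ 1 := by rw [ZMod.card, pow_one]
  have hinj := Datum.th_inj (k := ZMod p) (κ := κ) (p := p) (r := 1) (d := pb.dim) (th := pb.gen) hq1
    (fun j h1 h2 => th_ne pb.gen (minpoly (ZMod p) pb.gen) (minpoly.monic pb.isIntegral_gen) hsurj
      (fun a => minpoly.dvd_iff) j h1 (by rw [hdim]; exact h2))
  have hinj2 : Function.Injective (fun j : Fin pb.dim => io pb.gen ^ (p ^ (j : ℕ))) := by
    intro i j hij
    beta_reduce at hij
    rw [← map_pow, ← map_pow] at hij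
    refine Fin.ext (hinj i i.2 j j.2 ?_)
    rw [ZMod.card]
    exact io.injective hij
  have hv := Matrix.eq_zero_of_forall_index_sum_pow_mul_eq_zero
    (f := fun j : Fin pb.dim => io pb.gen ^ (p ^ (j : ℕ)))
    (v := fun j : Fin pb.dim => ∑ i, (((pb.basis.repr (y i) j).val : ℕ) : E) * h i) hinj2 (fun s => by
      rw [← hs (s : ℕ)]
      have h2 : ∀ i, io (y i) ^ (p ^ (s : ℕ)) * h i = ∑ j : Fin pb.dim,
          (io pb.gen ^ (p ^ (s : ℕ))) ^ (j : ℕ) * ((((pb.basis.repr (y i) j).val : ℕ) : E) * h i) := by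
        intro i
        rw [hio (y i) (s : ℕ), sum_mul]
        refine sum_congr rfl fun j _ => ?_
        ring
      rw [sum_congr rfl fun i _ => h2 i, sum_comm]
      refine sum_congr rfl fun i _ => ?_
      rw [mul_sum])
  intro j
  exact congrFun hv j

end basis

end Pool.Agent.D0H54.Gk
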