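import Pool.Agent.D0H54.Gk.Van

set_option linter.unusedSectionVars false

namespace Pool.Agent.D0H54.Gk

open Polynomial Finset

/-- `w` divides the (w-integral) rational function `x` -/
def DivBy {k : Type*} [Field k] (w : k[X]) (x : RatFunc k) : Prop :=
  ∃ a b : k[X], w ∣ a ∧ ¬ w ∣ b ∧ x * algebraMap k[X] (RatFunc k) b = algebraMap k[X] (RatFunc k) a

namespace Datum

section main

variable {p : ℕ} [hp : Fact p.Prime] {k κ E : Type*} [Field k] [Fintype k] [Field κ] [Fintype κ]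
  [Field E] [Algebra k κ] [Algebra (RatFunc k) E] [CharP E p]
  {r d : ℕ} {T : E} {th : κ} {L : κ → E}
  (M : Datum (Fintype.card k) d T th L) (D : Derivation ℤ E E) (hDT : D T = 1)
  (hdec : ∀ x : E, Dec p T x)
  (hqp : Fintype.card k = p ^ r) (hcard : Fintype.card κ = Fintype.card k ^ d) (hd : 1 ≤ d)
  (φ : κ →+* κ) (hφ : ∀ x, φ x = x ^ Fintype.card k)
  (hLne : ∀ a, a ≠ 0 → L a ≠ 0)
  (hth : ∀ j, 1 ≤ j → j < d → th ^ (Fintype.card k ^ j) ≠ th)
  (w : k[X]) (hw : w.map (algebraMap k κ) = ∏ j ∈ range d, (X - C (th ^ (Fintype.card k ^ j))))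
  (hwdvd : ∀ a : k[X], w ∣ a ↔ (a.map (algebraMap k κ)).eval th = 0)
  (hrel : ∃ (n : ℕ) (c : ℕ → k[X]), ∀ a : κ,
    algebraMap (RatFunc k) E (algebraMap k[X] (RatFunc k) w) * D (L a) =
    ∑ i ∈ range n, algebraMap (RatFunc k) E (algebraMap k[X] (RatFunc k) (c i)) * L a ^ (Fintype.card k ^ i))

lemma one_lt_q : 2 ≤ Fintype.card k := Fintype.one_lt_card

include hφ in
lemma shift_compat (hM : M.Compat (k := k)) :
    (M.shift hcard hd (one_lt_q (k := k)) φ hφ).Compat (k := k) := by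
  intro a
  change (a.map (algebraMap k κ)).eval₂ (M.io.comp φ) T = _
  rw [← eval₂_map, Polynomial.map_map]
  have : φ.comp (algebraMap k κ) = algebraMap k κ := by
    ext c
    rw [RingHom.comp_apply, hφ, ← map_pow, FiniteField.pow_card]
  rw [this]
  exact hM a

include hw hrel hLne hcard hd in
lemma good_h (hM : M.Compat (k := k)) :
    M.Good (fun a => (P1 (Fintype.card k) d th).eval₂ M.io T * hh D L a) := by
  obtain ⟨n, c, hc⟩ := hrel
  have hwT : algebraMap (RatFunc k) E (algebraMap k[X] (RatFunc k) w) =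
      (-1) ^ d * (P1 (Fintype.card k) d th).eval₂ M.io T := by
    have hd1 : (-1 : E) ^ d = ∏ _j ∈ range d, (-1 : E) := by simp
    rw [← hM w, hw, P1, eval₂_finsetProd, eval₂_finsetProd, hd1, ← prod_mul_distrib]
    refine prod_congr rfl fun j _ => ?_
    rw [eval_tp, eval₂_sub, eval₂_X, eval₂_C, map_pow]
    ring
  have hneg : ((-1 : E) ^ d) * (-1) ^ d = 1 := by
    rw [← mul_pow]; simp
  refine Good.congr (F := fun a => ∑ i ∈ range n, (C ((-1) ^ d) * (c i).map (algebraMap k κ)).eval₂ M.io T *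
    L a ^ (Fintype.card k ^ i - 1)) ?_ fun a ha => ?_
  · exact Good.sum (range n) fun i _ => (Good.powL hcard hd (one_lt_q (k := k)) _).smul _
  · have h1 := hc a
    rw [hwT] at h1
    have hL := hLne a ha
    rw [hh, ← mul_div_assoc, div_eq_iff hL, sum_mul]
    have h2 : (P1 (Fintype.card k) d th).eval₂ M.io T * D (L a) = (-1) ^ d *
        ((-1) ^ d * (P1 (Fintype.card k) d th).eval₂ M.io T * D (L a)) := by
      linear_combination ((-1 : E) * (P1 (Fintype.card k) d th).eval₂ M.io T * D (L a)) * hneg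
    rw [h2, h1, mul_sum]
    refine sum_congr rfl fun i _ => ?_
    have h3 : L a ^ (Fintype.card k ^ i) = L a ^ (Fintype.card k ^ i - 1) * L a := by
      rw [← pow_succ]
      congr 1
      have : 0 < Fintype.card k ^ i := pow_pos Fintype.card_pos i
      omega
    rw [h3, eval₂_mul, eval₂_C, ← hM (c i)]
    simp
    ring

include hDT hqp hcard hd hLne in
lemma hf_of (f : ℕ → κ[X]) (hf : ∀ a : κ, a ≠ 0 → (P1 (Fintype.card k) d th).eval₂ M.io T * hh D L a =
      ∑ l ∈ range (Fintype.card k ^ d - 1), (f l).eval₂ M.io T * (M.io a ^ l * M.La l)) :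
    ∀ a : κ, a ≠ 0 → L a * (∑ l ∈ range (Fintype.card k ^ d - 1),
      (f l).eval₂ M.io T * (M.io a ^ l * M.La l)) =
      ∑ j ∈ range d, M.io a ^ (Fintype.card k ^ j) * M.g j * (Rj (Fintype.card k) d th j).eval₂ M.io T := by
  intro a ha
  rw [← hf a ha, ← M.P1_D D hDT hqp hcard hd (one_lt_q (k := k)) a, hh]
  have := hLne a ha
  field_simp

include hDT hqp hcard hd hLne hth hw hrel hwdvd in
lemma root_zero (hM : M.Compat (k := k)) (l : ℕ) (hl : l < Fintype.card k ^ d - 1)
    (hB : DivBy w (bC k l)) (f : κ[X])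
    (hf : (P1 (Fintype.card k) d th).eval₂ M.io T * M.H (hh D L) l = - (f.eval₂ M.io T * M.La l))
    (φ : κ →+* κ) (hφ : ∀ x, φ x = x ^ Fintype.card k) :
    f.eval th = 0 := by
  have hq2 : 2 ≤ Fintype.card k := one_lt_q (k := k)
  obtain ⟨F, hF⟩ := M.good_h D hcard hd hLne w hw hrel hM
  have h1 := M.H_eq hcard hd hq2 φ hφ (hh D L) _ F hF l hl
  have h2 : f.eval₂ M.io T = (F l).eval₂ M.io T := by
    rw [hf] at h1
    exact mul_right_cancel₀ (M.La_ne hq2 l) (neg_injective h1)
  have h3 : f = F l := by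
    rw [← sub_eq_zero]
    apply M.hT
    rw [eval₂_sub, h2, sub_self]
  have h4 := bC_red hM hcard hd hth F (M.hf_of D hDT hqp hcard hd hLne F hF) l hl
  obtain ⟨a, b, ha, hb, hab⟩ := hB
  have h5 : Red M.io T th (algebraMap (RatFunc k) E (bC k l)) 0 := by
    refine ⟨a.map (algebraMap k κ), b.map (algebraMap k κ), ?_, ?_, ?_⟩
    · rw [ne_eq, ← hwdvd]; exact hb
    · rw [hM a, hM b, ← map_mul, hab]
    · rw [zero_mul, (hwdvd a).1 ha]
  have h6 := Red.unique M.hT h5 h4
  rw [h3]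
  have h7 := R0_ne (k := k) hth
  rcases div_eq_zero_iff.1 h6.symm with h | h
  · exact h
  · exact absurd h h7

include hDT hqp hcard hd hLne hth hw hrel hwdvd in
lemma roots (i : ℕ) : ∀ (M : Datum (Fintype.card k) d T th L) (_ : M.Compat (k := k)) (l : ℕ)
    (_ : l < Fintype.card k ^ d - 1)
    (_ : ∀ i, DivBy w (bC k ((rot (Fintype.card k) d)^[i] l))) (f : κ[X])
    (_ : (P1 (Fintype.card k) d th).eval₂ M.io T * M.H (hh D L) l = - (f.eval₂ M.io T * M.La l))
    (φ : κ →+* κ) (_ : ∀ x, φ x = x ^ Fintype.card k),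
    f.eval (th ^ (Fintype.card k ^ i)) = 0 := by
  have hq2 : 2 ≤ Fintype.card k := one_lt_q (k := k)
  induction i with
  | zero =>
    intro M hM l hl hB f hf φ hφ
    rw [pow_zero, pow_one]
    exact M.root_zero D hDT hqp hcard hd hLne hth w hw hwdvd hrel hM l hl (hB 0) f hf φ hφ
  | succ i ih =>
    intro M hM l hl hB f hf φ hφ
    set M' := M.shift hcard hd hq2 φ hφ with hM'
    have hM'c : M'.Compat (k := k) := M.shift_compat hcard hd φ hφ hM
    have hl' : rot (Fintype.card k) d l < Fintype.card k ^ d - 1 := rot_lt_N hq2 hd l hl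
    obtain ⟨F, hF⟩ := M'.good_h D hcard hd hLne w hw hrel hM'c
    have h1 := M'.H_eq hcard hd hq2 φ hφ (hh D L) _ F hF _ hl'
    have h2 := ih M' hM'c _ hl' (fun j => hB (j + 1)) (F _) h1 φ hφ
    rw [M.H_shift hcard hd hq2 φ hφ _ l (by omega), M.shift_P1 hcard hd hq2 φ hφ,
      M.shift_La hcard hd hq2 φ hφ, hf] at h1
    have h3 : f.eval₂ M.io T = (F (rot (Fintype.card k) d l)).eval₂ M'.io T :=
      mul_right_cancel₀ (M.La_ne hq2 l) (neg_injective h1)
    have h4 : f = (F (rot (Fintype.card k) d l)).map φ := by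
      rw [← sub_eq_zero]
      apply M.hT
      rw [eval₂_sub, h3, eval₂_map]
      exact sub_self _
    have h5 : th ^ (Fintype.card k ^ (i + 1)) = φ (th ^ (Fintype.card k ^ i)) := by
      rw [hφ, ← pow_mul, ← pow_succ]
    rw [h4, h5, eval_map, eval₂_hom, h2, map_zero]

lemma th_inj (hqp : Fintype.card k = p ^ r) [CharP κ p] (hth : ∀ j, 1 ≤ j → j < d → th ^ (Fintype.card k ^ j) ≠ th) :
    ∀ i < d, ∀ j < d, th ^ (Fintype.card k ^ i) = th ^ (Fintype.card k ^ j) → i = j := by
  have key : ∀ i j, i < j → j < d → th ^ (Fintype.card k ^ i) ≠ th ^ (Fintype.card k ^ j) := by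
    intro i j hij hj h
    have h1 : th ^ (Fintype.card k ^ j) = (th ^ (Fintype.card k ^ (j - i))) ^ (Fintype.card k ^ i) := by
      rw [← pow_mul, ← pow_add]; congr 2; omega
    rw [h1, hqp, ← pow_mul p r i] at h
    have h2 := iterateFrobenius_inj κ p (r * i) (a₁ := th) (a₂ := th ^ ((p ^ r) ^ (j - i)))
      (by simpa [iterateFrobenius_def] using h)
    rw [← hqp] at h2
    exact hth (j - i) (by omega) (by omega) h2.symm
  intro i hi j hj h
  rcases lt_trichotomy i j with h1 | h1 | h1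
  · exact absurd h (key i j h1 hj)
  · exact h1
  · exact absurd h.symm (key j i h1 hi)

include hDT hdec hqp hcard hd hLne hth hw hrel hwdvd in
theorem H_zero [CharP κ p] (hM : M.Compat (k := k)) (l : ℕ) (hl0 : 0 < l)
    (hl : l < Fintype.card k ^ d - 1)
    (hB : ∀ i, DivBy w (bC k ((rot (Fintype.card k) d)^[i] l)))
    (φ : κ →+* κ) (hφ : ∀ x, φ x = x ^ Fintype.card k) : M.H (hh D L) l = 0 := by
  classical
  have hq2 : 2 ≤ Fintype.card k := one_lt_q (k := k)
  obtain ⟨f, hf1, hf2⟩ := M.degree_bound D hDT hdec hqp hcard hd hq2 φ hφ hLne l hl0 hl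
    (M.good_h D hcard hd hLne w hw hrel hM)
  have hroots : ∀ i, f.eval (th ^ (Fintype.card k ^ i)) = 0 := fun i =>
    roots D hDT hqp hcard hd hLne hth w hw hwdvd hrel i M hM l hl hB f hf2 φ hφ
  have hf0 : f = 0 := by
    refine eq_zero_of_degree_lt_of_eval_finset_eq_zero
      ((range d).image fun i => th ^ (Fintype.card k ^ i)) ?_ ?_
    · rw [card_image_of_injOn, card_range]
      · rw [mem_degreeLT] at hf1
        exact lt_of_lt_of_le hf1 (by rw [Nat.cast_le]; omega)
      · intro i hi j hj h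
        exact th_inj hqp hth i (by simpa using hi) j (by simpa using hj) h
    · intro x hx
      obtain ⟨i, _, rfl⟩ := mem_image.1 hx
      exact hroots i
  rw [hf0, eval₂_zero, zero_mul, neg_zero] at hf2
  rcases mul_eq_zero.1 hf2 with h | h
  · exact absurd h M.P1_ne
  · exact h

end main

end Datum

end Pool.Agent.D0H54.Gk
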