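import Mathlib

set_option linter.unusedSectionVars false

namespace Pool.Agent.D0H54.Gk

open Polynomial

variable {κ E : Type*} [Field κ] [Field E] (io : κ →+* E) (T : E) (th : κ)

/-- `x` is integral at `T = th` with value `y` -/
def Red (x : E) (y : κ) : Prop :=
  ∃ a b : κ[X], b.eval th ≠ 0 ∧ x * b.eval₂ io T = a.eval₂ io T ∧ y * b.eval th = a.eval th

variable {io T th}

lemma Red.poly (f : κ[X]) : Red io T th (f.eval₂ io T) (f.eval th) :=
  ⟨f, 1, by simp, by simp, by simp⟩

lemma Red.one : Red io T th 1 1 := by simpa using Red.poly (io := io) (T := T) (th := th) 1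
lemma Red.zero : Red io T th 0 0 := by simpa using Red.poly (io := io) (T := T) (th := th) 0

lemma Red.add {x x' : E} {y y' : κ} (h : Red io T th x y) (h' : Red io T th x' y') :
    Red io T th (x + x') (y + y') := by
  obtain ⟨a, b, hb, h1, h2⟩ := h
  obtain ⟨a', b', hb', h1', h2'⟩ := h'
  refine ⟨a * b' + a' * b, b * b', by simp [hb, hb'], ?_, ?_⟩
  · simp only [eval₂_mul, eval₂_add, ← h1, ← h1']; ring
  · simp only [eval_mul, eval_add, ← h2, ← h2']; ring

lemma Red.neg {x : E} {y : κ} (h : Red io T th x y) : Red io T th (-x) (-y) := by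
  obtain ⟨a, b, hb, h1, h2⟩ := h
  refine ⟨-a, b, hb, ?_, ?_⟩
  · simp only [eval₂_neg, ← h1]; ring
  · simp only [eval_neg, ← h2]; ring

lemma Red.sub {x x' : E} {y y' : κ} (h : Red io T th x y) (h' : Red io T th x' y') :
    Red io T th (x - x') (y - y') := by
  rw [sub_eq_add_neg, sub_eq_add_neg]; exact h.add h'.neg

lemma Red.mul {x x' : E} {y y' : κ} (h : Red io T th x y) (h' : Red io T th x' y') :
    Red io T th (x * x') (y * y') := by
  obtain ⟨a, b, hb, h1, h2⟩ := h
  obtain ⟨a', b', hb', h1', h2'⟩ := h'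
  refine ⟨a * a', b * b', by simp [hb, hb'], ?_, ?_⟩
  · simp only [eval₂_mul, ← h1, ← h1']; ring
  · simp only [eval_mul, ← h2, ← h2']; ring

lemma Red.pow {x : E} {y : κ} (h : Red io T th x y) (n : ℕ) : Red io T th (x ^ n) (y ^ n) := by
  induction n with
  | zero => simpa using Red.one
  | succ n ih => rw [pow_succ, pow_succ]; exact ih.mul h

lemma Red.sum {ι : Type*} (s : Finset ι) {f : ι → E} {g : ι → κ}
    (h : ∀ i ∈ s, Red io T th (f i) (g i)) : Red io T th (∑ i ∈ s, f i) (∑ i ∈ s, g i) := by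
  classical
  induction s using Finset.induction_on with
  | empty => simpa using Red.zero
  | insert a s ha ih =>
    rw [Finset.sum_insert ha, Finset.sum_insert ha]
    exact (h a (Finset.mem_insert_self _ _)).add (ih fun i hi => h i (Finset.mem_insert_of_mem hi))

lemma Red.prod {ι : Type*} (s : Finset ι) {f : ι → E} {g : ι → κ}
    (h : ∀ i ∈ s, Red io T th (f i) (g i)) : Red io T th (∏ i ∈ s, f i) (∏ i ∈ s, g i) := by
  classical
  induction s using Finset.induction_on with
  | empty => simpa using Red.one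
  | insert a s ha ih =>
    rw [Finset.prod_insert ha, Finset.prod_insert ha]
    exact (h a (Finset.mem_insert_self _ _)).mul (ih fun i hi => h i (Finset.mem_insert_of_mem hi))

lemma Red.inv {x : E} {y : κ} (hT : ∀ f : κ[X], f.eval₂ io T = 0 → f = 0)
    (h : Red io T th x y) (hy : y ≠ 0) : Red io T th x⁻¹ y⁻¹ := by
  obtain ⟨a, b, hb, h1, h2⟩ := h
  have ha : a.eval th ≠ 0 := by rw [← h2]; exact mul_ne_zero hy hb
  have ha' : a.eval₂ io T ≠ 0 := fun h => ha (by rw [hT a h, eval_zero])
  have hx : x ≠ 0 := by rintro rfl; rw [zero_mul] at h1; exact ha' h1.symm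
  refine ⟨b, a, ha, ?_, ?_⟩
  · rw [← h1, ← mul_assoc, inv_mul_cancel₀ hx, one_mul]
  · rw [← h2, ← mul_assoc, inv_mul_cancel₀ hy, one_mul]

lemma Red.unique {x : E} {y y' : κ} (hT : ∀ f : κ[X], f.eval₂ io T = 0 → f = 0)
    (h : Red io T th x y) (h' : Red io T th x y') : y = y' := by
  obtain ⟨a, b, hb, h1, h2⟩ := h
  obtain ⟨a', b', hb', h1', h2'⟩ := h'
  have h3 : a * b' - a' * b = 0 := by
    apply hT
    rw [eval₂_sub, eval₂_mul, eval₂_mul, ← h1, ← h1']; ring
  have h4 : a.eval th * b'.eval th = a'.eval th * b.eval th := by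
    have := congrArg (eval th) h3
    rw [eval_sub, eval_mul, eval_mul, eval_zero, sub_eq_zero] at this
    exact this
  rw [← h2, ← h2'] at h4
  have h5 : (y - y') * (b.eval th * b'.eval th) = 0 := by linear_combination h4
  rcases mul_eq_zero.1 h5 with h | h
  · exact sub_eq_zero.1 h
  · exact absurd h (mul_ne_zero hb hb')

end Pool.Agent.D0H54.Gk
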