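import Pool.Agent.D0H54.Gk.BC
import Pool.Agent.D0H54.Gk.CartPoly

set_option linter.unusedSectionVars false

namespace Pool.Agent.D0H54.Gk

open Polynomial Finset

/-- periodic digits -/
def dg (q d l j : ℕ) : ℕ := l / q ^ (j % d) % q

/-- cyclic rotation of the digits -/
def rot (q d l : ℕ) : ℕ := ∑ j ∈ range d, dg q d l (j + 1) * q ^ j

section digits

variable {q d : ℕ} (hq : 2 ≤ q) (hd : 1 ≤ d)

include hq in
lemma dg_lt (l j : ℕ) : dg q d l j < q := Nat.mod_lt _ (by omega)

lemma dg_mod (l j : ℕ) : dg q d l (j % d) = dg q d l j := by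
  rw [dg, dg, Nat.mod_mod]

lemma dg_per (l j : ℕ) : dg q d l (j + d) = dg q d l j := by
  rw [dg, dg, Nat.add_mod_right]

lemma dg_of_lt (l : ℕ) {j : ℕ} (hj : j < d) : dg q d l j = l / q ^ j % q := by
  rw [dg, Nat.mod_eq_of_lt hj]

include hq in
lemma rot_lt (l : ℕ) : rot q d l < q ^ d :=
  (dig_of_sum q (by omega) d (fun j => dg q d l (j + 1)) (fun i _ => dg_lt hq l _)).1

include hq hd in
lemma dg_rot (l j : ℕ) : dg q d (rot q d l) j = dg q d l (j + 1) := by
  have h := (dig_of_sum q (by omega) d (fun j => dg q d l (j + 1)) (fun i _ => dg_lt hq l _)).2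
    (j % d) (Nat.mod_lt _ (by omega))
  rw [dg, rot, h, ← dg_mod l (j % d + 1), ← dg_mod l (j + 1)]
  congr 1
  simp [Nat.add_mod]

include hq in
lemma sum_dg (l : ℕ) (hl : l < q ^ d) : ∑ j ∈ range d, dg q d l j * q ^ j = l := by
  conv_rhs => rw [← sum_dig q (by omega) d l hl]
  exact sum_congr rfl fun j hj => by rw [dg_of_lt l (mem_range.1 hj)]

include hq in
lemma rot_eq (l : ℕ) (hl : l < q ^ d) : q * rot q d l = l + dg q d l 0 * (q ^ d - 1) := by
  have h1 := sum_range_succ (fun j => dg q d l j * q ^ j) d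
  rw [sum_range_succ'] at h1
  have h2 : ∑ j ∈ range d, dg q d l (j + 1) * q ^ (j + 1) = q * rot q d l := by
    rw [rot, mul_sum]
    refine sum_congr rfl fun j _ => ?_
    rw [pow_succ]; ring
  have h3 : dg q d l d = dg q d l 0 := by simpa using dg_per (q := q) (d := d) l 0
  rw [h2, sum_dg hq l hl, h3] at h1
  have h4 : 0 < q ^ d := pow_pos (by omega) d
  rw [Nat.mul_sub, mul_one]
  have h5 : dg q d l 0 ≤ dg q d l 0 * q ^ d := Nat.le_mul_of_pos_right _ h4
  simp only [pow_zero, mul_one] at h1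
  omega

include hq hd in
lemma rot_lt_N (l : ℕ) (hl : l < q ^ d - 1) : rot q d l < q ^ d - 1 := by
  have h1 := rot_eq (d := d) hq l (by omega)
  have h2 : dg q d l 0 * (q ^ d - 1) ≤ (q - 1) * (q ^ d - 1) :=
    Nat.mul_le_mul_right _ (by have := dg_lt (d := d) hq l 0; omega)
  have h3 : (q - 1) * (q ^ d - 1) + (q ^ d - 1) = q * (q ^ d - 1) := by
    obtain ⟨m, rfl⟩ : ∃ m, q = m + 1 := ⟨q - 1, by omega⟩
    simp; ring
  have h4 : q * rot q d l < q * (q ^ d - 1) := by omega
  exact Nat.lt_of_mul_lt_mul_left h4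

include hq in
lemma rot_pos (l : ℕ) (hl0 : 0 < l) (hl : l < q ^ d) : 0 < rot q d l := by
  have h1 := rot_eq hq l hl
  rcases Nat.eq_zero_or_pos (rot q d l) with h | h
  · rw [h] at h1; omega
  · exact h

include hq hd in
lemma dg_rot_iter (l j i : ℕ) : dg q d ((rot q d)^[i] l) j = dg q d l (j + i) := by
  induction i generalizing j with
  | zero => rfl
  | succ i ih =>
    rw [Function.iterate_succ_apply', dg_rot hq hd, ih]
    congr 1; ring

include hq in
lemma rot_iter_lt (l i : ℕ) (hl : l < q ^ d) : (rot q d)^[i] l < q ^ d := by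
  induction i with
  | zero => exact hl
  | succ i _ => rw [Function.iterate_succ_apply']; exact rot_lt hq _

include hq hd in
lemma rot_iter_d (l : ℕ) (hl : l < q ^ d) : (rot q d)^[d] l = l := by
  rw [← sum_dg hq ((rot q d)^[d] l) (rot_iter_lt hq l d hl)]
  conv_rhs => rw [← sum_dg hq l hl]
  exact sum_congr rfl fun j _ => by rw [dg_rot_iter hq hd, dg_per]

include hd in
lemma sum_dg_shift (l : ℕ) (f : ℕ → ℕ) : ∑ j ∈ range d, f (dg q d l (j + 1)) = ∑ j ∈ range d, f (dg q d l j) :=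
  sum_shift hd (fun j => f (dg q d l j)) (by
    have : dg q d l d = dg q d l 0 := by simpa using dg_per (q := q) (d := d) l 0
    rw [this])

end digits

namespace Datum

variable {κ E : Type*} [Field κ] [Fintype κ] [Field E] {q d : ℕ} {T : E} {th : κ} {L : κ → E}
  (M : Datum q d T th L)

/-- composing the embedding with the Frobenius -/
noncomputable def shift (hcard : Fintype.card κ = q ^ d) (hd : 1 ≤ d) (hq : 2 ≤ q) (φ : κ →+* κ) (hφ : ∀ x, φ x = x ^ q) :
    Datum q d T th L where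
  io := M.io.comp φ
  g := fun j => M.g (j + 1)
  hT := by
    intro f hf
    rw [← eval₂_map] at hf
    exact (Polynomial.map_eq_zero φ).1 (M.hT _ hf)
  hL := by
    intro a
    have h1 : ∀ j, M.io.comp φ a ^ q ^ j * M.g (j + 1) = M.io a ^ q ^ (j + 1) * M.g (j + 1) := by
      intro j
      rw [RingHom.comp_apply, hφ, map_pow, ← pow_mul, pow_succ']
    simp_rw [h1]
    rw [sum_shift hd (fun j => M.io a ^ q ^ j * M.g j)]
    · exact M.hL a
    · have : M.g d = M.g 0 := by simpa using M.hper 0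
      rw [this, ← map_pow, th_pow M hcard]
      simp
  hrec := by
    intro j
    rw [← M.hrec (j + 1), RingHom.comp_apply, hφ, map_pow, ← pow_mul, ← pow_succ']
  hper := by
    intro j
    have := M.hper (j + 1)
    rw [← this]
    congr 1; ring
  hne := M.g_ne 1 hq

variable (hcard : Fintype.card κ = q ^ d) (hd : 1 ≤ d) (hq : 2 ≤ q) (φ : κ →+* κ) (hφ : ∀ x, φ x = x ^ q)

include hcard hd hq hφ

lemma La_eq_dg (l : ℕ) : M.La l = ∏ j ∈ range d, M.g j ^ dg q d l j := by
  rw [La]
  exact prod_congr rfl fun j hj => by rw [dg_of_lt l (mem_range.1 hj)]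

lemma shift_La (l : ℕ) : (M.shift hcard hd hq φ hφ).La (rot q d l) = M.La l := by
  rw [La_eq_dg _ hcard hd hq φ hφ, La_eq_dg _ hcard hd hq φ hφ,
    ← prod_shift hd (fun j => M.g j ^ dg q d l j)]
  · exact prod_congr rfl fun j _ => by rw [dg_rot hq hd]; rfl
  · have h1 : M.g d = M.g 0 := by simpa using M.hper 0
    have h2 : dg q d l d = dg q d l 0 := by simpa using dg_per (q := q) (d := d) l 0
    rw [h1, h2]

lemma shift_P1 : (P1 q d th).eval₂ (M.shift hcard hd hq φ hφ).io T = (P1 q d th).eval₂ M.io T := by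
  rw [P1, eval₂_finsetProd, eval₂_finsetProd, ← prod_shift hd (fun j => (tp q th j).eval₂ M.io T)]
  · refine prod_congr rfl fun j _ => ?_
    rw [eval_tp, eval_tp]
    change M.io (φ th) ^ _ - _ = _
    rw [hφ, map_pow, ← pow_mul, ← pow_succ']
  · simp [tp, th_pow M hcard]

/-- relation between monomials: `La l * ∏ tt_j ^ {l_j} = La (rot l) ^ q` -/
lemma La_rot (l : ℕ) : M.La l * ∏ j ∈ range d, (tp q th j).eval₂ M.io T ^ dg q d l j =
    M.La (rot q d l) ^ q := by
  rw [La_eq_dg _ hcard hd hq φ hφ, La_eq_dg _ hcard hd hq φ hφ, ← prod_mul_distrib, ← prod_pow]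
  rw [← prod_shift hd (fun j => M.g j ^ dg q d l j * (tp q th j).eval₂ M.io T ^ dg q d l j)]
  · refine prod_congr rfl fun j _ => ?_
    rw [dg_rot hq hd, ← mul_pow, mul_comm (M.g (j + 1)), M.hrec', ← pow_mul, ← pow_mul, mul_comm]
  · have h1 : M.g d = M.g 0 := by simpa using M.hper 0
    have h2 : dg q d l d = dg q d l 0 := by simpa using dg_per (q := q) (d := d) l 0
    have h3 : tp q th d = tp q th 0 := by simp [tp, th_pow M hcard]
    rw [h1, h2, h3]

omit hcard hd hq hφ

open Classical in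
/-- Fourier coefficient -/
noncomputable def H (h : κ → E) (l : ℕ) : E := ∑ a : κˣ, (M.io (a : κ))⁻¹ ^ l * h a

include hcard hd hq hφ

lemma io_inv_pow (a : κˣ) (m : ℕ) : (M.io (a : κ))⁻¹ ^ (m * (q ^ d - 1)) = 1 := by
  rw [mul_comm, pow_mul, inv_pow, M.io_pow_N hcard a.ne_zero, inv_one, one_pow]

lemma H_shift (h : κ → E) (l : ℕ) (hl : l < q ^ d) :
    (M.shift hcard hd hq φ hφ).H h (rot q d l) = M.H h l := by
  rw [H, H]
  refine sum_congr rfl fun a _ => ?_
  congr 1
  change (M.io (φ (a : κ)))⁻¹ ^ _ = _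
  rw [hφ, map_pow, ← inv_pow, ← pow_mul, rot_eq hq l hl, pow_add, M.io_inv_pow hcard hd hq φ hφ, mul_one]

lemma H_eq (h : κ → E) (c : E) (f : ℕ → κ[X]) (hf : ∀ a : κ, a ≠ 0 → c * h a = ∑ l ∈ range (q ^ d - 1),
      (f l).eval₂ M.io T * (M.io a ^ l * M.La l)) (l : ℕ) (hl : l < q ^ d - 1) :
    c * M.H h l = - ((f l).eval₂ M.io T * M.La l) := by
  classical
  rw [H, mul_sum]
  have h1 : ∀ a : κˣ, c * ((M.io (a : κ))⁻¹ ^ l * h a) = ∑ m ∈ range (q ^ d - 1),
      ((f m).eval₂ M.io T * M.La m) * M.io (a : κ) ^ (m + (q ^ d - 1 - l)) := by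
    intro a
    have e1 : (M.io (a : κ))⁻¹ ^ l = M.io (a : κ) ^ (q ^ d - 1 - l) := by
      have h2 := M.io_pow_N hcard a.ne_zero
      have h3 : M.io (a : κ) ≠ 0 := by
        intro h; rw [map_eq_zero] at h; exact a.ne_zero h
      have h4 : M.io (a : κ) ^ l * M.io (a : κ) ^ (q ^ d - 1 - l) = 1 := by
        rw [← pow_add, ← h2]; congr 1; omega
      rw [inv_pow]
      exact (eq_inv_of_mul_eq_one_right h4).symm
    have e2 : c * ((M.io (a : κ))⁻¹ ^ l * h a) = (M.io (a : κ))⁻¹ ^ l * (c * h a) := by ring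
    rw [e2, hf a a.ne_zero, e1, mul_sum]
    refine sum_congr rfl fun m _ => ?_
    rw [pow_add]; ring
  simp_rw [h1]
  rw [sum_comm]
  simp_rw [← mul_sum, M.sum_io_pow hcard]
  rw [sum_eq_single l]
  · have : l + (q ^ d - 1 - l) = q ^ d - 1 := by omega
    rw [this]
    simp
  · intro m hm hml
    have hm' := mem_range.1 hm
    rw [if_neg, mul_zero]
    rintro ⟨t, ht⟩
    have ht1 : t = 1 := by
      have : 0 < t := by
        rcases Nat.eq_zero_or_pos t with h | h
        · subst h; omega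
        · exact h
      have : t < 2 := by
        by_contra h3
        have h4 : 2 ≤ t := by omega
        have : (q ^ d - 1) * 2 ≤ (q ^ d - 1) * t := Nat.mul_le_mul_left _ h4
        omega
      omega
    rw [ht1] at ht
    omega
  · intro h; exact absurd (mem_range.2 hl) h

end Datum

end Pool.Agent.D0H54.Gk
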